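import Pool.Agent.H936.X.Graph

/-!
# The algebraic part of the theorem on fibres near different special fibres
-/

set_option autoImplicit false
set_option linter.unusedSectionVars false
set_option linter.unusedVariables false

open Matrix Module

namespace Pool.Agent.H936.X

open Pool.Agent.Helper880_LF
open Pool.Agent.Helper880_LF.NB (rank_le)
open Pool.Agent.Helper880_R3 (Ix ib ib_apply ib_inj ib_mul Tot)
open Pool.Agent.H936.SL
open Pool.Agent.H936.G (nrmS mem_nrmS nrmS_br nrmS_dim thmE)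

variable {F : Type} [Field F] {n r₀ N M : ℕ} {J : Matrix (Fin n) (Fin n) F} {𝒟 : Type} [AddCommGroup 𝒟] [Module F 𝒟]

/-- the data: the blocks with the numbers `i` have special centres with the Lie algebras `𝔩 i` -/
structure Ch (J : Mn n F) (X Fc : Fin M → 𝒟 →ₗ[F] Mn n F) (F₀ : 𝒟 →ₗ[F] Matrix (Fin r₀) (Fin r₀) F)
    (𝔩 : Fin M → Submodule F (Mn n F)) (L : Submodule F (Matrix (Ix r₀ n M) (Ix r₀ n M) F)) : Prop where
  br : ∀ x ∈ L, ∀ y ∈ L, x * y - y * x ∈ L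
  mem : ∀ i d, X i d ∈ spS J
  nrm : ∀ d, ∀ w ∈ L, Tot (F₀ d) (fun i => Fc i d + X i d) * w - w * Tot (F₀ d) (fun i => Fc i d + X i d) ∈ L
  le : ∀ i, 𝔩 i ≤ spS J
  tn : ∀ i, TN (𝔩 i)
  ne_bot : ∀ i, 𝔩 i ≠ ⊥
  ne_top : ∀ i, 𝔩 i ≠ spS J
  fc : ∀ i d, ∃ c : F, Fc i d + c • (1 : Mn n F) ∈ nrmS J (𝔩 i)

/-- the elements with vanishing components -/
def LI (J : Mn n F) (L : Submodule F (Matrix (Ix r₀ n M) (Ix r₀ n M) F)) (I : Finset (Option (Fin M))) :
    Submodule F (Matrix (Fin r₀) (Fin r₀) F × (Fin M → Mn n F)) where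
  carrier := {w | Tot w.1 w.2 ∈ L ∧ (∀ i, w.2 i ∈ spS J) ∧ (none ∈ I → w.1 = 0) ∧ ∀ i, some i ∈ I → w.2 i = 0}
  zero_mem' := ⟨by
    have : Tot (0 : Matrix (Fin r₀) (Fin r₀) F) (0 : Fin M → Mn n F) = 0 := Tot_zero
    rw [Prod.fst_zero, Prod.snd_zero, this]
    exact L.zero_mem, fun i => (spS J).zero_mem, fun _ => rfl, fun _ _ => rfl⟩
  add_mem' := by
    rintro ⟨e, y⟩ ⟨e', y'⟩ ⟨h1, h2, h3, h4⟩ ⟨h1', h2', h3', h4'⟩
    refine ⟨?_, fun i => (spS J).add_mem (h2 i) (h2' i), fun h => ?_, fun i h => ?_⟩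
    · have := L.add_mem h1 h1'
      rw [Tot_add] at this
      exact this
    · show (e, y).1 + (e', y').1 = 0
      rw [h3 h, h3' h, add_zero]
    · show (e, y).2 i + (e', y').2 i = 0
      rw [h4 i h, h4' i h, add_zero]
  smul_mem' := by
    rintro c ⟨e, y⟩ ⟨h1, h2, h3, h4⟩
    refine ⟨?_, fun i => (spS J).smul_mem c (h2 i), fun h => ?_, fun i h => ?_⟩
    · have := L.smul_mem c h1
      rw [Tot_smul] at this
      exact this
    · show c • (e, y).1 = 0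
      rw [h3 h, smul_zero]
    · show c • (e, y).2 i = 0
      rw [h4 i h, smul_zero]

theorem mem_LI {L : Submodule F (Matrix (Ix r₀ n M) (Ix r₀ n M) F)} {I : Finset (Option (Fin M))}
    {w : Matrix (Fin r₀) (Fin r₀) F × (Fin M → Mn n F)} : w ∈ LI J L I ↔
      Tot w.1 w.2 ∈ L ∧ (∀ i, w.2 i ∈ spS J) ∧ (none ∈ I → w.1 = 0) ∧ ∀ i, some i ∈ I → w.2 i = 0 := Iff.rfl

/-- the component with the number `j` -/
def pj (j : Fin M) : (Matrix (Fin r₀) (Fin r₀) F × (Fin M → Mn n F)) →ₗ[F] Mn n F :=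
  LinearMap.proj j ∘ₗ LinearMap.snd F _ _

theorem pj_apply (j : Fin M) (w : Matrix (Fin r₀) (Fin r₀) F × (Fin M → Mn n F)) : pj j w = w.2 j := rfl

section
variable {X Fc : Fin M → 𝒟 →ₗ[F] Mn n F} {F₀ : 𝒟 →ₗ[F] Matrix (Fin r₀) (Fin r₀) F}
    {𝔩 : Fin M → Submodule F (Mn n F)} {L : Submodule F (Matrix (Ix r₀ n M) (Ix r₀ n M) F)}

theorem br_zero_right {B : Type} [Fintype B] [DecidableEq B] (x : Matrix B B F) : x * 0 - 0 * x = 0 := by
  rw [Matrix.mul_zero, Matrix.zero_mul, sub_zero]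

/-- brackets with elements which normalise -/
theorem LI_br (hJ : Jᵀ = -J) {I : Finset (Option (Fin M))} {e : Matrix (Fin r₀) (Fin r₀) F} {y : Fin M → Mn n F}
    (hy : ∀ i, GS J (y i)) (hn : ∀ w ∈ L, Tot e y * w - w * Tot e y ∈ L)
    {w : Matrix (Fin r₀) (Fin r₀) F × (Fin M → Mn n F)} (hw : w ∈ LI J L I) :
    ((e * w.1 - w.1 * e, fun i => y i * w.2 i - w.2 i * y i) : Matrix (Fin r₀) (Fin r₀) F × (Fin M → Mn n F)) ∈ LI J L I := by
  obtain ⟨h1, h2, h3, h4⟩ := hw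
  refine ⟨?_, fun i => (hy i).br hJ (GS.of (h2 i)), fun h => ?_, fun i h => ?_⟩
  · have h5 := hn _ h1
    rw [Tot_br] at h5
    exact h5
  · show e * w.1 - w.1 * e = 0
    rw [h3 h, br_zero_right]
  · show y i * w.2 i - w.2 i * y i = 0
    rw [h4 i h, br_zero_right]

theorem Ch.gs (h : Ch J X Fc F₀ 𝔩 L) (i : Fin M) (d : 𝒟) : GS J (Fc i d) := by
  obtain ⟨c, hc⟩ := h.fc i d
  exact ⟨c, hc.1⟩

/-- the ideals of the simple Lie algebra -/
theorem full_of [CharZero F] (hJ : Jᵀ = -J) (hdet : IsUnit J.det) (hbr : ∀ x ∈ L, ∀ y ∈ L, x * y - y * x ∈ L)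
    {j : Fin M} (hfull : Pj J L j = spS J) {I : Finset (Option (Fin M))}
    {w : Matrix (Fin r₀) (Fin r₀) F × (Fin M → Mn n F)} (hw : w ∈ LI J L I) (h0 : w.2 j ≠ 0) :
    spS J ≤ (LI J L I).map (pj j) := by
  refine simple hJ hdet (𝔞 := (LI J L I).map (pj j)) ?_ (a := w.2 j) ⟨w, hw, rfl⟩ (hw.2.1 j) h0
  rintro x hx _ ⟨w', hw', rfl⟩
  rw [← hfull] at hx
  obtain ⟨-, e, y, c, h1, h2, h3⟩ := hx
  refine ⟨_, LI_br hJ h2 (fun w hw => hbr _ h1 _ hw) hw', ?_⟩
  show y j * w'.2 j - w'.2 j * y j = x * w'.2 j - w'.2 j * x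
  have h5 := br_scalar' x (w'.2 j) c 0
  rw [zero_smul, add_zero, ← h3] at h5
  exact h5

/-- the first step -/
theorem Ch.full [CharZero F] [IsAlgClosed F] (h : Ch J X Fc F₀ 𝔩 L) (hJ : Jᵀ = -J) (hdet : IsUnit J.det) (hn : 3 ≤ n)
    {j : Fin M} (surj : ∀ Y ∈ spS J, ∃ d, X j d = Y ∧ ∀ i, i ≠ j → X i d = 0) (tnj : TN (Pj J L j))
    (nej : Pj J L j ≠ ⊥) : Pj J L j = spS J := by
  have hdec : ∀ x ∈ spS J, ∃ Z B, x = Z + B ∧ Z ∈ spS J ∧ B ∈ spS J ∧ (∀ Y ∈ Pj J L j, Z * Y - Y * Z ∈ Pj J L j) ∧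
      ∀ Y ∈ 𝔩 j, B * Y - Y * B ∈ 𝔩 j := by
    intro x hx
    obtain ⟨d, h1, h2⟩ := surj x hx
    obtain ⟨c, hc⟩ := h.fc j d
    refine ⟨x + (Fc j d + c • (1 : Mn n F)), -(Fc j d + c • (1 : Mn n F)), by abel, (spS J).add_mem hx hc.1,
      (spS J).neg_mem hc.1, ?_, (nrmS J (𝔩 j)).neg_mem hc |>.2⟩
    refine Pj_nrm hJ (fun i => (h.gs i d).add (GS.of (h.mem i d))) (h.nrm d) (c := -c) ((spS J).add_mem hx hc.1) ?_
    rw [← h1]
    module
  rcases thmE hJ hdet hn tnj Pj_le (h.tn j) (h.le j) hdec with (h1 | h1) | (h1 | h1)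
  · exact absurd h1 nej
  · exact h1
  · exact absurd h1 (h.ne_bot j)
  · exact absurd h1 (h.ne_top j)

/-- the step for the additional periods -/
theorem Ch.step_none [CharZero F] (h : Ch J X Fc F₀ 𝔩 L) (hJ : Jᵀ = -J) (hdet : IsUnit J.det)
    {j : Fin M} (surj : ∀ Y ∈ spS J, ∃ d, X j d = Y ∧ ∀ i, i ≠ j → X i d = 0) (hfull : Pj J L j = spS J)
    {V : Type} [AddCommGroup V] [Module F V] [FiniteDimensional F V] (Φ : 𝒟 →ₗ[F] V) {𝔊 : Submodule F (Mn n F)}
    (hG : 𝔊 ≤ spS J) (hV : finrank F V + finrank F 𝔊 < finrank F (spS J))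
    (hΦ : ∀ d, Φ d = 0 → (∃ z : F, F₀ d = z • 1) ∧ ∃ c : F, Fc j d + c • (1 : Mn n F) ∈ 𝔊)
    {I : Finset (Option (Fin M))} (ih : spS J ≤ (LI J L I).map (pj j)) :
    spS J ≤ (LI J L (insert none I)).map (pj j) := by
  obtain ⟨d, hd1, hd2⟩ : ∃ d, Φ d = 0 ∧ X j d ∉ 𝔊 := by
    by_contra hcon
    push Not at hcon
    obtain ⟨W, hW⟩ := Submodule.exists_isCompl 𝔊
    let π : Mn n F →ₗ[F] 𝔊 := 𝔊.projectionOnto W hW
    have hπ : ∀ x ∈ 𝔊, ((π x : 𝔊) : Mn n F) = x := fun x hx => by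
      have := Submodule.projectionOnto_apply_left hW ⟨x, hx⟩
      exact congrArg Subtype.val this
    have h1 : LinearMap.ker (Φ.prod (π ∘ₗ X j)) ≤ LinearMap.ker (X j) := by
      intro d hd
      have h2 : Φ d = 0 := congrArg Prod.fst hd
      have h3 : π (X j d) = 0 := congrArg Prod.snd hd
      rw [LinearMap.mem_ker, ← hπ _ (hcon d h2), h3]
      rfl
    obtain ⟨h2, h3⟩ := rank_le _ _ h1
    have h4 : spS J ≤ LinearMap.range (X j) := by
      intro Y hY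
      obtain ⟨d, e1, -⟩ := surj Y hY
      exact ⟨d, e1⟩
    have h5 := (Submodule.finrank_mono h4).trans h3
    rw [Module.finrank_prod] at h5
    omega
  obtain ⟨⟨z, hz⟩, c, hc⟩ := hΦ d hd1
  set A : Mn n F := X j d + (Fc j d + c • (1 : Mn n F)) with hA
  have hAs : A ∈ spS J := (spS J).add_mem (h.mem j d) (hG hc)
  have hA0 : A ≠ 0 := by
    intro h0
    apply hd2
    have h1 : X j d = -(Fc j d + c • (1 : Mn n F)) := eq_neg_of_add_eq_zero_left h0
    rw [h1]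
    exact 𝔊.neg_mem hc
  obtain ⟨Y, hY, hY0⟩ : ∃ Y ∈ spS J, A * Y - Y * A ≠ 0 := by
    by_contra hcon
    push Not at hcon
    exact hA0 (spS_centre hJ hdet hAs hcon)
  obtain ⟨w, hw, rfl⟩ := ih hY
  have h1 := LI_br hJ (fun i => (h.gs i d).add (GS.of (h.mem i d))) (h.nrm d) hw
  have h2 : ((F₀ d * w.1 - w.1 * F₀ d, fun i => (Fc i d + X i d) * w.2 i - w.2 i * (Fc i d + X i d)) :
      Matrix (Fin r₀) (Fin r₀) F × (Fin M → Mn n F)) ∈ LI J L (insert none I) := by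
    obtain ⟨k1, k2, k3, k4⟩ := h1
    refine ⟨k1, k2, fun _ => ?_, fun i hi => ?_⟩
    · show F₀ d * w.1 - w.1 * F₀ d = 0
      rw [hz, Matrix.smul_mul, Matrix.mul_smul, Matrix.one_mul, Matrix.mul_one, sub_self]
    · rcases Finset.mem_insert.1 hi with h3 | h3
      · exact absurd h3 (Option.some_ne_none i)
      · exact k4 i h3
  refine full_of hJ hdet h.br hfull h2 ?_
  show (Fc j d + X j d) * w.2 j - w.2 j * (Fc j d + X j d) ≠ 0
  rw [pj_apply] at hY0
  have h5 := br_scalar' A (w.2 j) (-c) 0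
  rw [zero_smul, add_zero] at h5
  have h6 : A + (-c) • (1 : Mn n F) = Fc j d + X j d := by
    rw [hA]
    module
  rw [h6] at h5
  rw [h5]
  exact hY0

/-- the step for another block -/
theorem Ch.step_some [CharZero F] [IsAlgClosed F] (h : Ch J X Fc F₀ 𝔩 L) (hJ : Jᵀ = -J) (hdet : IsUnit J.det) (hn : 3 ≤ n)
    {j : Fin M} (surj : ∀ Y ∈ spS J, ∃ d, X j d = Y ∧ ∀ i, i ≠ j → X i d = 0) (hfull : Pj J L j = spS J)
    {i : Fin M} (hij : i ≠ j) {I : Finset (Option (Fin M))} (ih : spS J ≤ (LI J L I).map (pj j)) :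
    spS J ≤ (LI J L (insert (some i) I)).map (pj j) := by
  by_contra hcon
  have hz : ∀ w ∈ LI J L I, w.2 i = 0 → w.2 j = 0 := by
    intro w hw hwi
    by_contra hwj
    apply hcon
    refine full_of hJ hdet h.br hfull (w := w) ⟨hw.1, hw.2.1, fun h1 => ?_, fun l hl => ?_⟩ hwj
    · rcases Finset.mem_insert.1 h1 with h3 | h3
      · exact absurd h3.symm (Option.some_ne_none i)
      · exact hw.2.2.1 h3
    · rcases Finset.mem_insert.1 hl with h3 | h3
      · rw [Option.some.inj h3]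
        exact hwi
      · exact hw.2.2.2 l h3
  let p : LI J L I →ₗ[F] Mn n F := pj i ∘ₗ (LI J L I).subtype
  let p' : LI J L I →ₗ[F] Mn n F := pj j ∘ₗ (LI J L I).subtype
  have hpm : ∀ w, p w ∈ spS J := fun w => w.2.2.1 i
  have hp'm : ∀ w, p' w ∈ spS J := fun w => w.2.2.1 j
  have hker : LinearMap.ker p ≤ LinearMap.ker p' := fun w hw => hz w w.2 hw
  have hp' : LinearMap.range p' = spS J := by
    refine le_antisymm ?_ fun Y hY => ?_
    · rintro _ ⟨w, rfl⟩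
      exact hp'm w
    · obtain ⟨w, hw, rfl⟩ := ih hY
      exact ⟨⟨w, hw⟩, rfl⟩
  have hle : LinearMap.range p ≤ spS J := by
    rintro _ ⟨w, rfl⟩
    exact hpm w
  have hp : LinearMap.range p = spS J := by
    refine Submodule.eq_of_le_of_finrank_le hle ?_
    have h1 : LinearMap.ker p.rangeRestrict ≤ LinearMap.ker p' := by
      rw [LinearMap.ker_rangeRestrict]
      exact hker
    obtain ⟨-, h2⟩ := rank_le _ _ h1
    rw [← hp']
    exact h2
  have hkk : LinearMap.ker p = LinearMap.ker p' := by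
    refine Submodule.eq_of_le_of_finrank_le hker ?_
    have h1 := LinearMap.finrank_range_add_finrank_ker p
    have h2 := LinearMap.finrank_range_add_finrank_ker p'
    rw [hp] at h1
    rw [hp'] at h2
    omega
  have hback : ∀ w, p' w = 0 → p w = 0 := fun w hw => by
    have h1 : w ∈ LinearMap.ker p := by
      rw [hkk]
      exact hw
    exact h1
  have tn : TN (((𝔩 i).comap p).map p') := by
    refine graph_tn hJ hdet p p' hp hp' hker (fun w w' => ?_) (h.tn i) (h.le i)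
    exact ⟨⟨_, LI_br hJ (fun l => GS.of (w.2.2.1 l)) (fun x hx => h.br _ w.2.1 _ hx) w'.2⟩, rfl, rfl⟩
  have hle' : ((𝔩 i).comap p).map p' ≤ spS J := by
    rintro _ ⟨w, -, rfl⟩
    exact hp'm w
  have hdec : ∀ x ∈ spS J, ∃ Z B, x = Z + B ∧ Z ∈ spS J ∧ B ∈ spS J ∧
      (∀ Y ∈ ((𝔩 i).comap p).map p', Z * Y - Y * Z ∈ ((𝔩 i).comap p).map p') ∧
      ∀ Y ∈ 𝔩 j, B * Y - Y * B ∈ 𝔩 j := by
    intro x hx
    obtain ⟨d, h1, h2⟩ := surj x hx
    obtain ⟨c, hc⟩ := h.fc j d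
    obtain ⟨c', hc'⟩ := h.fc i d
    refine ⟨x + (Fc j d + c • (1 : Mn n F)), -(Fc j d + c • (1 : Mn n F)), by abel, (spS J).add_mem hx hc.1,
      (spS J).neg_mem hc.1, ?_, (nrmS J (𝔩 j)).neg_mem hc |>.2⟩
    rintro _ ⟨w, hw, rfl⟩
    have hw' : w.1.2 i ∈ 𝔩 i := hw
    refine ⟨⟨_, LI_br hJ (fun i => (h.gs i d).add (GS.of (h.mem i d))) (h.nrm d) w.2⟩, ?_, ?_⟩
    · show (Fc i d + X i d) * w.1.2 i - w.1.2 i * (Fc i d + X i d) ∈ 𝔩 i
      rw [h2 i hij, add_zero]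
      have h5 := br_scalar' (Fc i d) (w.1.2 i) c' 0
      rw [zero_smul, add_zero] at h5
      rw [← h5]
      exact hc'.2 _ hw'
    · show (Fc j d + X j d) * w.1.2 j - w.1.2 j * (Fc j d + X j d) =
        (x + (Fc j d + c • (1 : Mn n F))) * w.1.2 j - w.1.2 j * (x + (Fc j d + c • (1 : Mn n F)))
      have h5 := br_scalar' (Fc j d + X j d) (w.1.2 j) c 0
      rw [zero_smul, add_zero] at h5
      rw [← h5, h1]
      have h6 : Fc j d + x + c • (1 : Mn n F) = x + (Fc j d + c • (1 : Mn n F)) := by abel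
      rw [h6]
  rcases thmE hJ hdet hn tn hle' (h.tn j) (h.le j) hdec with (h1 | h1) | (h1 | h1)
  · obtain ⟨Y, hY, hY0⟩ := Submodule.exists_mem_ne_zero_of_ne_bot (h.ne_bot i)
    have h2 := h.le i hY
    rw [← hp] at h2
    obtain ⟨w, rfl⟩ := h2
    have h3 : p' w ∈ ((𝔩 i).comap p).map p' := ⟨w, hY, rfl⟩
    rw [h1, Submodule.mem_bot] at h3
    exact hY0 (hback w h3)
  · apply h.ne_top i
    refine le_antisymm (h.le i) fun Y hY => ?_
    rw [← hp] at hY
    obtain ⟨w, rfl⟩ := hY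
    have h2 := hp'm w
    rw [← h1] at h2
    obtain ⟨w₁, h3, h4⟩ := h2
    have h5 := hback (w₁ - w) (by rw [map_sub, h4, sub_self])
    rw [map_sub] at h5
    rw [← sub_eq_zero.1 h5]
    exact h3
  · exact absurd h1 (h.ne_bot j)
  · exact absurd h1 (h.ne_top j)

/-- **The core theorem.** -/
theorem Ch.core_gen [CharZero F] [IsAlgClosed F] (h : Ch J X Fc F₀ 𝔩 L) (hJ : Jᵀ = -J) (hdet : IsUnit J.det) (hn : 3 ≤ n)
    {j : Fin M} (surj : ∀ Y ∈ spS J, ∃ d, X j d = Y ∧ ∀ i, i ≠ j → X i d = 0) (tnj : TN (Pj J L j))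
    (nej : Pj J L j ≠ ⊥) (hnone : Pj J L j = spS J → ∀ I : Finset (Option (Fin M)), spS J ≤ (LI J L I).map (pj j) →
      spS J ≤ (LI J L (insert none I)).map (pj j)) :
    ∀ Y ∈ spS J, ib (r₀ := r₀) j Y ∈ L := by
  classical
  have hfull := h.full hJ hdet hn surj tnj nej
  have key : ∀ I : Finset (Option (Fin M)), some j ∉ I → spS J ≤ (LI J L I).map (pj j) := by
    intro I
    induction I using Finset.induction_on with
    | empty =>
      intro _
      obtain ⟨A, hA, hA0⟩ := Submodule.exists_mem_ne_zero_of_ne_bot nej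
      obtain ⟨Y, hY, hY0⟩ : ∃ Y ∈ spS J, A * Y - Y * A ≠ 0 := by
        by_contra hcon
        push Not at hcon
        exact hA0 (spS_centre hJ hdet (Pj_le hA) hcon)
      rw [← hfull] at hY
      obtain ⟨-, e, y, c, h1, h2, h3⟩ := hA
      obtain ⟨-, e', y', c', h1', h2', h3'⟩ := hY
      refine full_of hJ hdet h.br hfull (I := ∅) (w := (e * e' - e' * e, fun i => y i * y' i - y' i * y i))
        ⟨?_, fun i => (h2 i).br hJ (h2' i), fun h4 => absurd h4 (Finset.notMem_empty _), fun i h4 =>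
          absurd h4 (Finset.notMem_empty _)⟩ ?_
      · rw [← Tot_br]
        exact h.br _ h1 _ h1'
      · show y j * y' j - y' j * y j ≠ 0
        rw [h3, h3', br_scalar']
        exact hY0
    | insert a I ha ih =>
      intro hj
      have ih' := ih fun h1 => hj (Finset.mem_insert_of_mem h1)
      rcases a with _ | i
      · exact hnone hfull I ih'
      · refine h.step_some hJ hdet hn surj hfull (fun hij => hj ?_) ih'
        rw [hij]
        exact Finset.mem_insert_self _ _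
  intro Y hY
  obtain ⟨w, ⟨h1, h2, h3, h4⟩, rfl⟩ := key (Finset.univ.erase (some j)) (Finset.notMem_erase _ _) hY
  have e1 : w.1 = 0 := h3 (Finset.mem_erase.2 ⟨(Option.some_ne_none j).symm, Finset.mem_univ _⟩)
  have e2 : w.2 = Pi.single j (w.2 j) := by
    funext i
    by_cases hij : i = j
    · subst hij
      rw [Pi.single_eq_same]
    · rw [Pi.single_eq_of_ne hij]
      exact h4 i (Finset.mem_erase.2 ⟨fun h5 => hij (Option.some.inj h5), Finset.mem_univ _⟩)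
  rw [ib_Tot, pj_apply, ← e2, ← e1]
  exact h1

/-- **The core theorem, without a condition on the additional periods.** -/
theorem Ch.core0 [CharZero F] [IsAlgClosed F] (h : Ch J X Fc F₀ 𝔩 L) (hJ : Jᵀ = -J) (hdet : IsUnit J.det) (hn : 3 ≤ n)
    {j : Fin M} (surj : ∀ Y ∈ spS J, ∃ d, X j d = Y ∧ ∀ i, i ≠ j → X i d = 0) (tnj : TN (Pj J L j))
    (nej : Pj J L j ≠ ⊥) : ∀ Y ∈ spS J, ∃ e, Tot e (Pi.single j Y) ∈ L := by
  classical
  have hfull := h.full hJ hdet hn surj tnj nej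
  have key : ∀ I : Finset (Option (Fin M)), some j ∉ I → none ∉ I → spS J ≤ (LI J L I).map (pj j) := by
    intro I
    induction I using Finset.induction_on with
    | empty =>
      intro _ _
      obtain ⟨A, hA, hA0⟩ := Submodule.exists_mem_ne_zero_of_ne_bot nej
      obtain ⟨Y, hY, hY0⟩ : ∃ Y ∈ spS J, A * Y - Y * A ≠ 0 := by
        by_contra hcon
        push Not at hcon
        exact hA0 (spS_centre hJ hdet (Pj_le hA) hcon)
      rw [← hfull] at hY
      obtain ⟨-, e, y, c, h1, h2, h3⟩ := hA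
      obtain ⟨-, e', y', c', h1', h2', h3'⟩ := hY
      refine full_of hJ hdet h.br hfull (I := ∅) (w := (e * e' - e' * e, fun i => y i * y' i - y' i * y i))
        ⟨?_, fun i => (h2 i).br hJ (h2' i), fun h4 => absurd h4 (Finset.notMem_empty _), fun i h4 =>
          absurd h4 (Finset.notMem_empty _)⟩ ?_
      · rw [← Tot_br]
        exact h.br _ h1 _ h1'
      · show y j * y' j - y' j * y j ≠ 0
        rw [h3, h3', br_scalar']
        exact hY0
    | insert a I ha ih =>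
      intro hj hnone
      have ih' := ih (fun h1 => hj (Finset.mem_insert_of_mem h1)) fun h1 => hnone (Finset.mem_insert_of_mem h1)
      rcases a with _ | i
      · exact absurd (Finset.mem_insert_self _ _) hnone
      · refine h.step_some hJ hdet hn surj hfull (fun hij => hj ?_) ih'
        rw [hij]
        exact Finset.mem_insert_self _ _
  intro Y hY
  obtain ⟨w, ⟨h1, h2, h3, h4⟩, rfl⟩ := key ((Finset.univ.erase (some j)).erase none)
    (fun h1 => Finset.notMem_erase (some j) Finset.univ (Finset.mem_of_mem_erase h1)) (Finset.notMem_erase _ _) hY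
  have e2 : w.2 = Pi.single j (w.2 j) := by
    funext i
    by_cases hij : i = j
    · subst hij
      rw [Pi.single_eq_same]
    · rw [Pi.single_eq_of_ne hij]
      exact h4 i (Finset.mem_erase.2 ⟨Option.some_ne_none i,
        Finset.mem_erase.2 ⟨fun h5 => hij (Option.some.inj h5), Finset.mem_univ _⟩⟩)
  refine ⟨w.1, ?_⟩
  rw [pj_apply, ← e2]
  exact h1

/-- the theorem for few additional periods -/
theorem Ch.core [CharZero F] [IsAlgClosed F] (h : Ch J X Fc F₀ 𝔩 L) (hJ : Jᵀ = -J) (hdet : IsUnit J.det) (hn : 3 ≤ n)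
    {j : Fin M} (surj : ∀ Y ∈ spS J, ∃ d, X j d = Y ∧ ∀ i, i ≠ j → X i d = 0) (tnj : TN (Pj J L j))
    (nej : Pj J L j ≠ ⊥) {V : Type} [AddCommGroup V] [Module F V] [FiniteDimensional F V] (Φ : 𝒟 →ₗ[F] V)
    {𝔊 : Submodule F (Mn n F)} (hG : 𝔊 ≤ spS J) (hV : finrank F V + finrank F 𝔊 < finrank F (spS J))
    (hΦ : ∀ d, Φ d = 0 → (∃ z : F, F₀ d = z • 1) ∧ ∃ c : F, Fc j d + c • (1 : Mn n F) ∈ 𝔊) :
    ∀ Y ∈ spS J, ib (r₀ := r₀) j Y ∈ L :=
  h.core_gen hJ hdet hn surj tnj nej fun hfull I ih => h.step_none hJ hdet surj hfull Φ hG hV hΦ ih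

end

/-! ### additional periods with a triangular group -/

/-- the entries below the diagonal with the number `m` vanish -/
def Lv (m : ℕ) (A : Matrix (Fin r₀) (Fin r₀) F) : Prop := ∀ a b : Fin r₀, (b : ℕ) < a + m → A a b = 0

theorem Lv.mul {p q : ℕ} {A B : Matrix (Fin r₀) (Fin r₀) F} (hA : Lv p A) (hB : Lv q B) : Lv (p + q) (A * B) := by
  intro a b hab
  rw [Matrix.mul_apply]
  refine Finset.sum_eq_zero fun c _ => ?_
  by_cases h1 : (c : ℕ) < a + p
  · rw [hA a c h1, zero_mul]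
  · rw [hB c b (by omega), mul_zero]

theorem Lv.mono {p q : ℕ} {A : Matrix (Fin r₀) (Fin r₀) F} (hA : Lv p A) (h : q ≤ p) : Lv q A :=
  fun a b hab => hA a b (by omega)

theorem Lv.sub {p : ℕ} {A B : Matrix (Fin r₀) (Fin r₀) F} (hA : Lv p A) (hB : Lv p B) : Lv p (A - B) := by
  intro a b hab
  rw [Matrix.sub_apply, hA a b hab, hB a b hab, sub_zero]

theorem Lv.add {p : ℕ} {A B : Matrix (Fin r₀) (Fin r₀) F} (hA : Lv p A) (hB : Lv p B) : Lv p (A + B) := by
  intro a b hab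
  rw [Matrix.add_apply, hA a b hab, hB a b hab, add_zero]

theorem Lv.smul {p : ℕ} {A : Matrix (Fin r₀) (Fin r₀) F} (c : F) (hA : Lv p A) : Lv p (c • A) := by
  intro a b hab
  rw [Matrix.smul_apply, hA a b hab, smul_zero]

theorem Lv.br0 {A B : Matrix (Fin r₀) (Fin r₀) F} (hA : Lv 0 A) (hB : Lv 0 B) : Lv 1 (A * B - B * A) := by
  intro a b hab
  by_cases h1 : (b : ℕ) < a
  · exact ((hA.mul hB).sub (hB.mul hA)) a b (by omega)
  · have h2 : a = b := Fin.ext (by omega)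
    subst h2
    have key : ∀ {A B : Matrix (Fin r₀) (Fin r₀) F}, Lv 0 A → Lv 0 B → (A * B) a a = A a a * B a a := by
      intro A B hA hB
      rw [Matrix.mul_apply]
      refine Finset.sum_eq_single_of_mem a (Finset.mem_univ _) fun c _ hc => ?_
      have h3 : (c : ℕ) ≠ a := fun h => hc (Fin.ext h)
      by_cases h4 : (c : ℕ) < a
      · rw [hA a c (by omega), zero_mul]
      · rw [hB c a (by omega), mul_zero]
    rw [Matrix.sub_apply, key hA hB, key hB hA]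
    ring

theorem Lv.eq_zero {A : Matrix (Fin r₀) (Fin r₀) F} (hA : Lv r₀ A) : A = 0 := by
  ext a b
  exact hA a b (by omega)

section
variable {X Fc : Fin M → 𝒟 →ₗ[F] Mn n F} {F₀ : 𝒟 →ₗ[F] Matrix (Fin r₀) (Fin r₀) F}
    {𝔩 : Fin M → Submodule F (Mn n F)} {L : Submodule F (Matrix (Ix r₀ n M) (Ix r₀ n M) F)}

/-- the elements of level `m` -/
def LV (J : Mn n F) (L : Submodule F (Matrix (Ix r₀ n M) (Ix r₀ n M) F)) (I : Finset (Option (Fin M)))
    (G G' : Matrix (Fin r₀) (Fin r₀) F) (m : ℕ) : Submodule F (Matrix (Fin r₀) (Fin r₀) F × (Fin M → Mn n F)) where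
  carrier := {w | w ∈ LI J L I ∧ Lv m (G * w.1 * G')}
  zero_mem' := ⟨Submodule.zero_mem _, by
    rw [Prod.fst_zero, Matrix.mul_zero, Matrix.zero_mul]
    exact fun _ _ _ => rfl⟩
  add_mem' := by
    rintro w w' ⟨h1, h2⟩ ⟨h1', h2'⟩
    refine ⟨Submodule.add_mem _ h1 h1', ?_⟩
    rw [Prod.fst_add, Matrix.mul_add, Matrix.add_mul]
    exact h2.add h2'
  smul_mem' := by
    rintro c w ⟨h1, h2⟩
    refine ⟨Submodule.smul_mem _ c h1, ?_⟩
    rw [Prod.smul_fst, Matrix.mul_smul, Matrix.smul_mul]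
    exact h2.smul c

theorem conj_br {G G' e e' : Matrix (Fin r₀) (Fin r₀) F} (hG : G' * G = 1) : G * (e * e' - e' * e) * G' =
    (G * e * G') * (G * e' * G') - (G * e' * G') * (G * e * G') := by
  have h1 : ∀ x y : Matrix (Fin r₀) (Fin r₀) F, (G * x * G') * (G * y * G') = G * (x * y) * G' := by
    intro x y
    calc (G * x * G') * (G * y * G') = G * x * (G' * G) * y * G' := by simp only [Matrix.mul_assoc]
      _ = _ := by rw [hG, Matrix.mul_one]; simp only [Matrix.mul_assoc]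
  rw [h1, h1, Matrix.mul_sub, Matrix.sub_mul]

/-- the step for additional periods with a triangular group -/
theorem step_tri [CharZero F] (hJ : Jᵀ = -J) (hdet : IsUnit J.det) (hbr : ∀ x ∈ L, ∀ y ∈ L, x * y - y * x ∈ L)
    {j : Fin M} (hfull : Pj J L j = spS J) {G G' : Matrix (Fin r₀) (Fin r₀) F} (hG : G' * G = 1) (hG' : G * G' = 1)
    (htri : ∀ (e : Matrix (Fin r₀) (Fin r₀) F) (y : Fin M → Mn n F), Tot e y ∈ L → Lv 0 (G * e * G'))
    (hne : ∃ A ∈ spS J, A ≠ 0)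
    {I : Finset (Option (Fin M))} (ih : spS J ≤ (LI J L I).map (pj j)) :
    spS J ≤ (LI J L (insert none I)).map (pj j) := by
  obtain ⟨A, hA, Y, hY, hAY⟩ : ∃ A ∈ spS J, ∃ Y ∈ spS J, A * Y - Y * A ≠ 0 := by
    by_contra hcon
    push Not at hcon
    obtain ⟨A, hA, hA0⟩ := hne
    exact hA0 (spS_centre hJ hdet hA (hcon A hA))
  -- ideals
  have hid : ∀ m, ∀ w ∈ LV J L I G G' m, w.2 j ≠ 0 → spS J ≤ (LV J L I G G' m).map (pj j) := by
    intro m w hw h0
    refine simple hJ hdet (𝔞 := (LV J L I G G' m).map (pj j)) ?_ (a := w.2 j) ⟨w, hw, rfl⟩ (hw.1.2.1 j) h0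
    rintro x hx _ ⟨w', hw', rfl⟩
    rw [← hfull] at hx
    obtain ⟨-, e, y, c, h1, h2, h3⟩ := hx
    refine ⟨_, ⟨LI_br hJ h2 (fun w hw => hbr _ h1 _ hw) hw'.1, ?_⟩, ?_⟩
    · show Lv m (G * (e * w'.1 - w'.1 * e) * G')
      rw [conj_br hG]
      have h4 := htri e y h1
      have h5 := (h4.mul hw'.2).sub ((hw'.2.mul h4).mono (by omega))
      exact h5.mono (by omega)
    · show y j * w'.2 j - w'.2 j * y j = x * w'.2 j - w'.2 j * x
      have h5 := br_scalar' x (w'.2 j) c 0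
      rw [zero_smul, add_zero, ← h3] at h5
      exact h5
  -- brackets
  have hstep : ∀ (p q s : ℕ), spS J ≤ (LV J L I G G' p).map (pj j) → spS J ≤ (LV J L I G G' q).map (pj j) →
      (∀ B B' : Matrix (Fin r₀) (Fin r₀) F, Lv p B → Lv q B' → Lv s (B * B' - B' * B)) →
      spS J ≤ (LV J L I G G' s).map (pj j) := by
    intro p q s h1 h2 h3
    obtain ⟨w, hw, rfl⟩ := h1 hA
    obtain ⟨w', hw', rfl⟩ := h2 hY
    refine hid s (w.1 * w'.1 - w'.1 * w.1, fun i => w.2 i * w'.2 i - w'.2 i * w.2 i)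
      ⟨LI_br hJ (fun i => GS.of (hw.1.2.1 i)) (fun x hx => hbr _ hw.1.1 _ hx) hw'.1, ?_⟩ hAY
    show Lv s (G * (w.1 * w'.1 - w'.1 * w.1) * G')
    rw [conj_br hG]
    exact h3 _ _ hw.2 hw'.2
  have h0 : spS J ≤ (LV J L I G G' 0).map (pj j) := by
    intro Z hZ
    obtain ⟨w, hw, rfl⟩ := ih hZ
    exact ⟨w, ⟨hw, htri _ _ hw.1⟩, rfl⟩
  have h1 := hstep 0 0 1 h0 h0 fun B B' hB hB' => hB.br0 hB'
  have hall : ∀ m, spS J ≤ (LV J L I G G' (m + 1)).map (pj j) := by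
    intro m
    induction m with
    | zero => exact h1
    | succ m ihm =>
      refine hstep 1 (m + 1) (m + 1 + 1) h1 ihm fun B B' hB hB' => ?_
      exact ((hB.mul hB').mono (by omega)).sub ((hB'.mul hB).mono (by omega))
  intro Z hZ
  obtain ⟨w, hw, rfl⟩ := hall r₀ hZ
  have h2 : G * w.1 * G' = 0 := (hw.2.mono (by omega : r₀ ≤ r₀ + 1)).eq_zero
  have h3 : w.1 = 0 := by
    calc w.1 = (G' * G) * w.1 * (G' * G) := by rw [hG, Matrix.one_mul, Matrix.mul_one]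
      _ = G' * (G * w.1 * G') * G := by simp only [Matrix.mul_assoc]
      _ = 0 := by rw [h2, Matrix.mul_zero, Matrix.zero_mul]
  refine ⟨w, ⟨hw.1.1, hw.1.2.1, fun _ => h3, fun i hi => ?_⟩, rfl⟩
  rcases Finset.mem_insert.1 hi with h4 | h4
  · exact absurd h4 (Option.some_ne_none i)
  · exact hw.1.2.2.2 i h4

/-- **The core theorem for a triangular group.** -/
theorem Ch.core_tri [CharZero F] [IsAlgClosed F] (h : Ch J X Fc F₀ 𝔩 L) (hJ : Jᵀ = -J) (hdet : IsUnit J.det) (hn : 3 ≤ n)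
    {j : Fin M} (surj : ∀ Y ∈ spS J, ∃ d, X j d = Y ∧ ∀ i, i ≠ j → X i d = 0) (tnj : TN (Pj J L j))
    (nej : Pj J L j ≠ ⊥) {G G' : Matrix (Fin r₀) (Fin r₀) F} (hG : G' * G = 1) (hG' : G * G' = 1)
    (htri : ∀ (e : Matrix (Fin r₀) (Fin r₀) F) (y : Fin M → Mn n F), Tot e y ∈ L → Lv 0 (G * e * G')) :
    ∀ Y ∈ spS J, ib (r₀ := r₀) j Y ∈ L :=
  h.core_gen hJ hdet hn surj tnj nej fun hfull I ih => step_tri hJ hdet h.br hfull hG hG' htri (by
    obtain ⟨A, hA, hA0⟩ := Submodule.exists_mem_ne_zero_of_ne_bot nej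
    exact ⟨A, Pj_le hA, hA0⟩) ih

end

end Pool.Agent.H936.X
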