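import Pool.Agent.H936.X.Ult

/-!
# Additional periods the group of which has no large factors
-/

set_option autoImplicit false
set_option linter.unusedSectionVars false
set_option linter.unusedVariables false

open Matrix Module

namespace Pool.Agent.H936.X

open Pool.Agent.Helper880_LF (om pr spS mem_spS comm_mem simple)
open Pool.Agent.Helper880_LF.NB (rank_le)
open Pool.Agent.Helper880_R3 (Ix ib Tot)
open Pool.Agent.Y123.ST (fl um LL dd cp eval_cp dd_cp mr mr_fl Van van_right inv_mul' mul_inv')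
open Pool.Agent.TH127.PT (IsSubtorsor)
open Pool.Agent.H936.SL (Mn Lm RatGrp Tot_br Tot_mul' Tot_one' ib_Tot spS_centre Tot_inv Tot_add Tot_smul Tot_zero map_inv_aut)
open Pool.Agent.H936.V (inv_unit off Tot_inr Tot_unit_of eq_Tot Tot_map)

variable {n N r₀ : ℕ}

/-- a chain of ideals with factors which are commutative or have a dimension smaller than `d` -/
def NLF {F : Type} [Field F] (d : ℕ) (𝔤 : Submodule F (Matrix (Fin r₀) (Fin r₀) F)) : Prop :=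
  ∃ (t : ℕ) (𝔞 : ℕ → Submodule F (Matrix (Fin r₀) (Fin r₀) F)), 𝔤 ≤ 𝔞 0 ∧ 𝔞 t = ⊥ ∧ ∀ i < t, 𝔞 (i + 1) ≤ 𝔞 i ∧
    (∀ x ∈ 𝔤, ∀ y ∈ 𝔞 (i + 1), x * y - y * x ∈ 𝔞 (i + 1)) ∧
    (finrank F (𝔞 i) < finrank F (𝔞 (i + 1)) + d ∨ ∀ x ∈ 𝔞 i, ∀ y ∈ 𝔞 i, x * y - y * x ∈ 𝔞 (i + 1))

theorem single_br2 {F : Type} [Field F] (j : Fin N) (A B : Mn n F) :
    (fun l => (Pi.single j A : Fin N → Mn n F) l * (Pi.single j B : Fin N → Mn n F) l -
      (Pi.single j B : Fin N → Mn n F) l * (Pi.single j A : Fin N → Mn n F) l) = Pi.single j (A * B - B * A) := by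
  funext l
  by_cases h : l = j
  · subst h
    rw [Pi.single_eq_same, Pi.single_eq_same, Pi.single_eq_same]
  · rw [Pi.single_eq_of_ne h, Pi.single_eq_of_ne h, Pi.single_eq_of_ne h, Matrix.zero_mul, sub_zero]

section core
variable {F : Type} [Field F] {J : Mn n F}

/-- the elements of the chain -/
def RRc (J : Mn n F) (L : Submodule F (Matrix (Ix r₀ n N) (Ix r₀ n N) F)) (j : Fin N)
    (𝔞 : Submodule F (Matrix (Fin r₀) (Fin r₀) F)) : Submodule F (Matrix (Fin r₀) (Fin r₀) F × Mn n F) where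
  carrier := {w | w.1 ∈ 𝔞 ∧ w.2 ∈ spS J ∧ Tot w.1 (Pi.single j w.2) ∈ L}
  zero_mem' := ⟨𝔞.zero_mem, (spS J).zero_mem, by
    have : Tot (0 : Matrix (Fin r₀) (Fin r₀) F) (Pi.single j (0 : Mn n F)) = 0 := by
      rw [Pi.single_zero]
      exact Tot_zero
    rw [Prod.fst_zero, Prod.snd_zero, this]
    exact L.zero_mem⟩
  add_mem' := by
    rintro w w' ⟨h1, h2, h3⟩ ⟨h1', h2', h3'⟩
    refine ⟨𝔞.add_mem h1 h1', (spS J).add_mem h2 h2', ?_⟩
    have h4 := L.add_mem h3 h3'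
    rw [Tot_add] at h4
    rw [Prod.fst_add, Prod.snd_add, Pi.single_add]
    exact h4
  smul_mem' := by
    rintro c w ⟨h1, h2, h3⟩
    refine ⟨𝔞.smul_mem c h1, (spS J).smul_mem c h2, ?_⟩
    have h4 := L.smul_mem c h3
    rw [Tot_smul] at h4
    rw [Prod.smul_fst, Prod.smul_snd, Pi.single_smul]
    exact h4

/-- **the last step for additional periods without large factors** -/
theorem sig_step [CharZero F] (hJ : Jᵀ = -J) (hdet : IsUnit J.det) (hne : ∃ A ∈ spS J, A ≠ 0)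
    {L : Submodule F (Matrix (Ix r₀ n N) (Ix r₀ n N) F)}
    (hbr : ∀ x ∈ L, ∀ y ∈ L, x * y - y * x ∈ L) {j : Fin N}
    (h0 : ∀ X ∈ spS J, ∃ e, Tot e (Pi.single j X) ∈ L) {𝔤 : Submodule F (Matrix (Fin r₀) (Fin r₀) F)}
    (hg : ∀ (e : Matrix (Fin r₀) (Fin r₀) F) (y : Fin N → Mn n F), Tot e y ∈ L → e ∈ 𝔤)
    (h : NLF (finrank F (spS J)) 𝔤) : ∀ X ∈ spS J, ib (r₀ := r₀) j X ∈ L := by
  obtain ⟨A, hA, Y, hY, hAY⟩ : ∃ A ∈ spS J, ∃ Y ∈ spS J, A * Y - Y * A ≠ 0 := by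
    by_contra hcon
    push Not at hcon
    obtain ⟨A, hA, hA0⟩ := hne
    exact hA0 (spS_centre hJ hdet hA (hcon A hA))
  obtain ⟨t, 𝔞, h1, h2, h3⟩ := h
  let p : (Matrix (Fin r₀) (Fin r₀) F × Mn n F) →ₗ[F] Mn n F := LinearMap.snd F _ _
  have key : ∀ i, i ≤ t → spS J ≤ (RRc J L j (𝔞 i)).map p := by
    intro i
    induction i with
    | zero =>
      intro _ X hX
      obtain ⟨e, he⟩ := h0 X hX
      exact ⟨(e, X), ⟨h1 (hg _ _ he), hX, he⟩, rfl⟩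
    | succ i ih =>
      intro hi
      have ih' := ih (by omega)
      obtain ⟨c1, c2, c3⟩ := h3 i (by omega)
      -- the ideal
      have hid : ∀ w ∈ RRc J L j (𝔞 (i + 1)), w.2 ≠ 0 → spS J ≤ (RRc J L j (𝔞 (i + 1))).map p := by
        intro w hw hw0
        refine simple hJ hdet (𝔞 := (RRc J L j (𝔞 (i + 1))).map p) ?_ (a := w.2) ⟨w, hw, rfl⟩ hw.2.1 hw0
        rintro x hx _ ⟨w', hw', rfl⟩
        obtain ⟨e, he⟩ := h0 x hx
        refine ⟨(e * w'.1 - w'.1 * e, x * w'.2 - w'.2 * x), ⟨c2 e (hg _ _ he) _ hw'.1, comm_mem hJ hx hw'.2.1, ?_⟩, rfl⟩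
        have h5 := hbr _ he _ hw'.2.2
        rw [Tot_br, single_br2] at h5
        exact h5
      by_contra hcon
      have hz : ∀ w ∈ RRc J L j (𝔞 (i + 1)), w.2 = 0 := by
        intro w hw
        by_contra hw0
        exact hcon (hid w hw hw0)
      rcases c3 with c3 | c3
      · let ρ : RRc J L j (𝔞 i) →ₗ[F] (𝔞 i) ⧸ (𝔞 (i + 1)).comap (𝔞 i).subtype :=
          ((𝔞 (i + 1)).comap (𝔞 i).subtype).mkQ ∘ₗ
            ((LinearMap.fst F _ _ ∘ₗ (RRc J L j (𝔞 i)).subtype).codRestrict (𝔞 i) fun w => w.2.1)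
        have h6 : LinearMap.ker ρ ≤ LinearMap.ker (p ∘ₗ (RRc J L j (𝔞 i)).subtype) := by
          intro w hw
          have h7 : ((LinearMap.fst F _ _ ∘ₗ (RRc J L j (𝔞 i)).subtype).codRestrict (𝔞 i) fun w => w.2.1) w ∈
              (𝔞 (i + 1)).comap (𝔞 i).subtype := (Submodule.Quotient.mk_eq_zero _).1 hw
          exact hz w.1 ⟨h7, w.2.2⟩
        obtain ⟨-, h8⟩ := rank_le _ _ h6
        have h9 : spS J ≤ LinearMap.range (p ∘ₗ (RRc J L j (𝔞 i)).subtype) := by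
          intro X hX
          obtain ⟨w, hw, rfl⟩ := ih' hX
          exact ⟨⟨w, hw⟩, rfl⟩
        have h10 := (Submodule.finrank_mono h9).trans h8
        have h11 := Submodule.finrank_quotient_add_finrank ((𝔞 (i + 1)).comap (𝔞 i).subtype)
        have h12 := (Submodule.comapSubtypeEquivOfLe c1).finrank_eq
        omega
      · obtain ⟨w, hw, hwA⟩ := ih' hA
        obtain ⟨w', hw', hwY⟩ := ih' hY
        refine hAY ?_
        rw [← hwA, ← hwY]
        refine hz (w.1 * w'.1 - w'.1 * w.1, w.2 * w'.2 - w'.2 * w.2) ⟨c3 _ hw.1 _ hw'.1, comm_mem hJ hw.2.1 hw'.2.1, ?_⟩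
        have h5 := hbr _ hw.2.2 _ hw'.2.2
        rw [Tot_br, single_br2] at h5
        exact h5
  intro X hX
  obtain ⟨w, ⟨k1, k2, k3⟩, rfl⟩ := key t le_rfl hX
  rw [h2, Submodule.mem_bot] at k1
  rw [k1] at k3
  exact k3

end core

/-! ### torsors with a condition on the first block -/

/-- the block diagonal isomorphisms whose first block is in `S₀` -/
def B0 (n N : ℕ) (S₀ : Set (Matrix (Fin r₀) (Fin r₀) ℂ)) : Set (Matrix (Ix r₀ n N) (Ix r₀ n N) ℂ) :=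
  {x | IsUnit x ∧ ∃ (y : Matrix (Fin r₀) (Fin r₀) ℂ) (Y : Fin N → Mn n ℂ), x = Tot y Y ∧ y ∈ S₀}

/-- the positions of the entries of the first block -/
def pos0 (n N : ℕ) (q : Fin r₀ × Fin r₀) : Ix r₀ n N × Ix r₀ n N := (Sum.inl q.1, Sum.inl q.2)

theorem pos0_inj : Function.Injective (pos0 (r₀ := r₀) n N) := by
  rintro ⟨k, l⟩ ⟨k', l'⟩ h
  have h1 := (Prod.ext_iff.1 h).1
  have h2 := (Prod.ext_iff.1 h).2
  exact Prod.ext (Sum.inl_injective h1) (Sum.inl_injective h2)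

theorem Tot_pos0 (y : Matrix (Fin r₀) (Fin r₀) ℂ) (Y : Fin N → Mn n ℂ) (q : Fin r₀ × Fin r₀) :
    Tot y Y (pos0 n N q).1 (pos0 n N q).2 = y q.1 q.2 := rfl

theorem B0_tor {K : Subfield ℂ} {S₀ : Set (Matrix (Fin r₀) (Fin r₀) ℂ)} (hS : IsSubtorsor K S₀) :
    IsSubtorsor K (B0 n N S₀) where
  isUnit x hx := hx.1
  torsor := by
    rintro _ ⟨hx, x, X, rfl, hX⟩ _ ⟨hy, y, Y, rfl, hY⟩ _ ⟨hz, z, Z, rfl, hZ⟩
    refine ⟨(hx.mul (inv_unit hy)).mul hz, x * y⁻¹ * z, fun i => X i * (Y i)⁻¹ * Z i, ?_, hS.torsor _ hX _ hY _ hZ⟩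
    rw [Tot_inv hy, Tot_mul', Tot_mul']
  algebraic := by
    classical
    obtain ⟨I, hI, hI'⟩ := hS.algebraic
    refine ⟨(fun p : Ix r₀ n N × Ix r₀ n N => (MvPolynomial.X p : MvPolynomial (Ix r₀ n N × Ix r₀ n N) ℂ)) '' off ∪
      (MvPolynomial.rename (pos0 n N)) '' I, ?_, fun x => ?_⟩
    · rintro _ (⟨p, -, rfl⟩ | ⟨p, hp, rfl⟩) m
      · show (MvPolynomial.X p : MvPolynomial _ ℂ).coeff m ∈ K
        rw [MvPolynomial.coeff_X]
        split_ifs
        · exact K.one_mem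
        · exact K.zero_mem
      · by_cases hm : ∃ m', m = Finsupp.mapDomain (pos0 n N) m'
        · obtain ⟨m', rfl⟩ := hm
          rw [MvPolynomial.coeff_rename_mapDomain _ pos0_inj]
          exact hI p hp m'
        · rw [MvPolynomial.coeff_rename_eq_zero]
          · exact K.zero_mem
          · intro u hu
            exact absurd ⟨u, hu.symm⟩ hm
    · have hren : ∀ p : MvPolynomial (Fin r₀ × Fin r₀) ℂ, ∀ x : Matrix (Ix r₀ n N) (Ix r₀ n N) ℂ,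
          MvPolynomial.eval (fun b : Ix r₀ n N × Ix r₀ n N => x b.1 b.2) (MvPolynomial.rename (pos0 n N) p) =
          MvPolynomial.eval (fun q => x (pos0 n N q).1 (pos0 n N q).2) p := fun p x =>
        MvPolynomial.eval_rename _ _ _
      constructor
      · rintro ⟨hx, y, Y, rfl, hY⟩
        refine ⟨hx, ?_⟩
        rintro _ (⟨p, hp, rfl⟩ | ⟨p, hp, rfl⟩)
        · show MvPolynomial.eval _ (MvPolynomial.X p) = 0
          rw [MvPolynomial.eval_X]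
          exact hp y Y
        · rw [hren]
          exact ((hI' y).1 hY).2 p hp
      · rintro ⟨hx, h⟩
        have h1 : ∀ p ∈ (off : Set (Ix r₀ n N × Ix r₀ n N)), x p.1 p.2 = 0 := by
          intro p hp
          have h2 := h _ (Or.inl ⟨p, hp, rfl⟩)
          rwa [MvPolynomial.eval_X] at h2
        have h3 := eq_Tot h1
        set Y : Fin N → Mn n ℂ := fun i => Matrix.of fun k l => x (Sum.inr (k, i)) (Sum.inr (l, i)) with hY
        refine ⟨hx, _, Y, h3, ?_⟩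
        have h4 : IsUnit (Tot x.toBlocks₁₁ Y) := by rwa [← h3]
        refine (hI' _).2 ⟨(Pool.Agent.Helper880_R3.Tot_unit h4).1, fun p hp => ?_⟩
        have h5 := h _ (Or.inr ⟨p, hp, rfl⟩)
        rw [hren] at h5
        exact h5

theorem B0_rat {S₀ : Set (Matrix (Fin r₀) (Fin r₀) ℂ)} (hu : ∀ x ∈ S₀, IsUnit x) (hr : RatGrp S₀) :
    RatGrp (B0 n N S₀) := by
  rintro σ _ ⟨hx, x, X, rfl, hX⟩ _ ⟨hy, y, Y, rfl, hY⟩
  have h1 := Pool.Agent.Helper880_R3.Tot_unit hx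
  have h2 := Pool.Agent.Helper880_R3.Tot_unit hy
  obtain ⟨x', hx', y', hy', hxy⟩ := hr σ _ hX _ hY
  have hX'u : ∀ i, IsUnit ((X i * (Y i)⁻¹).map σ) := fun i =>
    ((h1.2 i).mul (inv_unit (h2.2 i))).map (σ : ℂ →+* ℂ).mapMatrix
  refine ⟨Tot x' fun i => (X i * (Y i)⁻¹).map σ, ⟨Tot_unit_of (hu _ hx') hX'u, _, _, rfl, hx'⟩, Tot y' fun _ => 1,
    ⟨Tot_unit_of (hu _ hy') fun _ => isUnit_one, _, _, rfl, hy'⟩, ?_⟩
  rw [Tot_inv hy, Tot_mul', Tot_map, Tot_inv (Tot_unit_of (hu _ hy') fun _ => isUnit_one), Tot_mul', hxy]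
  congr 1
  funext i
  rw [inv_one, mul_one]

theorem inter_tor {B : Type} [Fintype B] [DecidableEq B] {K K' K'' : Subfield ℂ} (h : K ≤ K'') (h' : K' ≤ K'')
    {T T' : Set (Matrix B B ℂ)} (hT : IsSubtorsor K T) (hT' : IsSubtorsor K' T') : IsSubtorsor K'' (T ∩ T') where
  isUnit x hx := hT.isUnit x hx.1
  torsor x hx y hy z hz := ⟨hT.torsor x hx.1 y hy.1 z hz.1, hT'.torsor x hx.2 y hy.2 z hz.2⟩
  algebraic := by
    obtain ⟨I, hI, hI'⟩ := hT.algebraic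
    obtain ⟨I₂, hI₂, hI₂'⟩ := hT'.algebraic
    refine ⟨I ∪ I₂, ?_, fun x => ?_⟩
    · rintro p (hp | hp) m
      · exact h (hI p hp m)
      · exact h' (hI₂ p hp m)
    · rw [Set.mem_inter_iff, hI', hI₂']
      constructor
      · rintro ⟨⟨h1, h2⟩, -, h3⟩
        refine ⟨h1, ?_⟩
        rintro p (hp | hp)
        · exact h2 p hp
        · exact h3 p hp
      · rintro ⟨h1, h2⟩
        exact ⟨⟨h1, fun p hp => h2 p (Or.inl hp)⟩, h1, fun p hp => h2 p (Or.inr hp)⟩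

theorem inter_rat {B : Type} [Fintype B] [DecidableEq B] {K K' : Subfield ℂ} {T T' : Set (Matrix B B ℂ)}
    (hT : IsSubtorsor K T) (hT' : IsSubtorsor K' T') (hr : RatGrp T) (hr' : RatGrp T') {c : Matrix B B ℂ}
    (hc : c ∈ T ∩ T') : RatGrp (T ∩ T') := by
  intro σ x hx y hy
  obtain ⟨a, ha, b, hb, hab⟩ := hr σ x hx.1 y hy.1
  obtain ⟨a', ha', b', hb', hab'⟩ := hr' σ x hx.2 y hy.2
  have hcu := (Matrix.isUnit_iff_isUnit_det _).1 (hT.isUnit c hc.1)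
  refine ⟨(x * y⁻¹).map σ * c, ⟨?_, ?_⟩, c, hc, ?_⟩
  · rw [hab]
    exact hT.torsor a ha b hb c hc.1
  · rw [hab']
    exact hT'.torsor a' ha' b' hb' c hc.2
  · rw [Matrix.mul_assoc, Matrix.mul_nonsing_inv _ hcu, Matrix.mul_one]

/-- the compositum -/
theorem exists_sup {K K' : Subfield ℂ} {D : ℕ} (hK : FiniteDimensional ℚ K) (hK' : FiniteDimensional ℚ K')
    (hD : finrank ℚ K ≤ D) (hD' : finrank ℚ K' ≤ D) : ∃ K'' : Subfield ℂ, K ≤ K'' ∧ K' ≤ K'' ∧ FiniteDimensional ℚ K'' ∧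
      finrank ℚ K'' ≤ D * D := by
  let E : IntermediateField ℚ ℂ := K.toIntermediateField fun q => SubfieldClass.ratCast_mem K q
  let E' : IntermediateField ℚ ℂ := K'.toIntermediateField fun q => SubfieldClass.ratCast_mem K' q
  have e1 : FiniteDimensional ℚ E := hK
  have e2 : FiniteDimensional ℚ E' := hK'
  refine ⟨(E ⊔ E').toSubfield, fun x hx => ?_, fun x hx => ?_, ?_, ?_⟩
  · exact (le_sup_left : E ≤ E ⊔ E') hx
  · exact (le_sup_right : E' ≤ E ⊔ E') hx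
  · exact (inferInstance : FiniteDimensional ℚ (E ⊔ E' : IntermediateField ℚ ℂ))
  · exact (IntermediateField.finrank_sup_le E E').trans (Nat.mul_le_mul hD hD')

/-! ### the first components of the elements of the Lie algebra -/

theorem dd_rename {B B' : Type} [Fintype B] [Fintype B'] [DecidableEq B'] (f : B → B')
    (P : MvPolynomial B ℂ) (x v : B' → ℂ) :
    dd (MvPolynomial.rename f P) x v = dd P (fun b => x (f b)) fun b => v (f b) := by
  induction P using MvPolynomial.induction_on with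
  | C a => rw [MvPolynomial.rename_C, Pool.Agent.Y123.ST.dd_C, Pool.Agent.Y123.ST.dd_C]
  | add p q hp hq => rw [map_add, Pool.Agent.Y123.ST.dd_add, Pool.Agent.Y123.ST.dd_add, hp, hq]
  | mul_X p b hp =>
    rw [map_mul, MvPolynomial.rename_X, Pool.Agent.Y123.ST.dd_mul, Pool.Agent.Y123.ST.dd_mul, hp,
      Pool.Agent.Y123.ST.dd_X, Pool.Agent.Y123.ST.dd_X, MvPolynomial.eval_X, MvPolynomial.eval_X, MvPolynomial.eval_rename]
    rfl

theorem fst_mem {K K₀ : Subfield ℂ} {T : Set (Matrix (Ix r₀ n N) (Ix r₀ n N) ℂ)} (hT : IsSubtorsor K T)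
    {S₀ : Set (Matrix (Fin r₀) (Fin r₀) ℂ)} (hS : IsSubtorsor K₀ S₀) (hTS : T ⊆ B0 n N S₀) {c : Matrix (Ix r₀ n N) (Ix r₀ n N) ℂ}
    (hc : c ∈ T) {e : Matrix (Fin r₀) (Fin r₀) ℂ} {y : Fin N → Mn n ℂ} (h : Tot e y ∈ Lm T) : e ∈ Lm S₀ := by
  intro P hP z hz
  obtain ⟨hcu, c₀, Y, rfl, hc₀⟩ := hTS hc
  have h1 : Van T (MvPolynomial.rename (pos0 n N) (cp (mr (c₀⁻¹ * z)) P)) := by
    intro x hx
    obtain ⟨-, x₀, X, rfl, hx₀⟩ := hTS hx
    rw [MvPolynomial.eval_rename]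
    exact van_right hS hP hc₀ hz _ hx₀
  have h2 := h _ h1 _ hc
  rw [dd_rename, dd_cp] at h2
  have h3 : (fun b : Fin r₀ × Fin r₀ => fl (Tot c₀ Y) (pos0 n N b)) = fl c₀ := rfl
  have h4 : (fun b : Fin r₀ × Fin r₀ => fl (um (fl (Tot e y)) * Tot c₀ Y) (pos0 n N b)) = fl (e * c₀) := by
    rw [Pool.Agent.Y123.ST.um_fl, Tot_mul']
    rfl
  rw [h3, h4, mr_fl, mr_fl] at h2
  have h5 : c₀ * (c₀⁻¹ * z) = z := by rw [← Matrix.mul_assoc, mul_inv' hS hc₀, Matrix.one_mul]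
  have h6 : e * c₀ * (c₀⁻¹ * z) = e * z := by rw [Matrix.mul_assoc, h5]
  rw [h5, h6] at h2
  exact h2

end Pool.Agent.H936.X
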