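import Pool.Agent.H936.X.Fin
import Pool.Agent.H936.X.Sig

/-!
# Stability under the symplectic groups
-/

set_option autoImplicit false
set_option linter.unusedSectionVars false
set_option linter.unusedVariables false

open Matrix Module

namespace Pool.Agent.H936.X

open Pool.Agent.Helper880_LF (om pr spS mem_spS comm_mem simple)
open Pool.Agent.Helper880_R3 (Ix ib Tot)
open Pool.Agent.Y119.HY (cm cm_apply cm_mul cm_one cm_transpose cm_zero cm_add cm_neg cm_pow)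
open Pool.Agent.TH127.PT (IsSubtorsor)
open Pool.Agent.Y102 (AbVar QBar)
open Pool.Agent.H936.SL (Mn Lm RatGrp Pres sp_stab finrank_spS_ge LL_br)
open Pool.Agent.H936.V (Bd Ctr SpecialC Far)

variable {n N r₀ g m : ℕ}

theorem Bd.mono {D D' : ℕ} {x : ℂ} (h : Bd D x) (hD : D ≤ D') : Bd D' x := by
  obtain ⟨K, h1, h2, h3⟩ := h
  exact ⟨K, h1, h2.trans hD, h3⟩

theorem Ctr.mono {θ : ℂ} {D D' : ℕ} {H : Matrix (Fin (2 * g)) (Fin (2 * g)) ℚ} {C : Mn (2 * g) ℂ} (h : Ctr θ D H C)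
    (hD : D ≤ D') : Ctr θ D' H C := by
  obtain ⟨Q, h1, h2⟩ := h.leg
  exact ⟨h.skew, h.hd, h.cd, Q, fun i j => Bd.mono (h1 i j) hD, h2⟩

theorem SpecialC.mono {D D' : ℕ} {H : Matrix (Fin (2 * g)) (Fin (2 * g)) ℚ} {C : Mn (2 * g) ℂ} (h : SpecialC D H C)
    (hD : D ≤ D') : SpecialC D' H C := by
  obtain ⟨A, R, K, S, h1, h2, h3⟩ := h
  exact ⟨A, R, K, S, h1, h2.trans hD, h3⟩

theorem NLF.mono {F : Type} [Field F] {d d' : ℕ} {𝔤 : Submodule F (Matrix (Fin r₀) (Fin r₀) F)} (h : NLF d 𝔤)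
    (hd : d ≤ d') : NLF d' 𝔤 := by
  obtain ⟨t, 𝔞, h1, h2, h3⟩ := h
  refine ⟨t, 𝔞, h1, h2, fun i hi => ⟨(h3 i hi).1, (h3 i hi).2.1, ?_⟩⟩
  rcases (h3 i hi).2.2 with h4 | h4
  · exact Or.inl (lt_of_lt_of_le h4 (Nat.add_le_add_left hd _))
  · exact Or.inr h4

/-- the condition on the additional periods: a torsor through them has no large factors -/
def Lar (g D : ℕ) (C₀ : Matrix (Fin r₀) (Fin r₀) ℂ) : Prop :=
  ∃ (K₀ : Subfield ℂ) (S₀ : Set (Matrix (Fin r₀) (Fin r₀) ℂ)), FiniteDimensional ℚ K₀ ∧ finrank ℚ K₀ ≤ D ∧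
    IsSubtorsor K₀ S₀ ∧ RatGrp S₀ ∧ C₀ ∈ S₀ ∧ NLF ((2 * g + 1).choose 2) (Lm S₀)

/-- a torsor which contains a stable torsor is stable -/
theorem stab_up {B : Type} [Fintype B] [DecidableEq B] {K : Subfield ℂ} {S T : Set (Matrix B B ℂ)}
    (hS : IsSubtorsor K S) (hTS : T ⊆ S) {c γ : Matrix B B ℂ} (hc : c ∈ T) (hγ : γ * c ∈ T) {x : Matrix B B ℂ}
    (hx : x ∈ S) : γ * x ∈ S := by
  have h1 := hS.torsor (γ * c) (hTS hγ) c (hTS hc) x hx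
  have hcu := (Matrix.isUnit_iff_isUnit_det _).1 (hS.isUnit c (hTS hc))
  rwa [Matrix.mul_assoc γ, Matrix.mul_nonsing_inv _ hcu, Matrix.mul_one] at h1

/-- the conditions on the additional periods -/
def Adm (g D e : ℕ) (C₀ : Matrix (Fin r₀) (Fin r₀) ℂ) : Prop :=
  (∃ (s : ℕ) (β : Fin s → ℂ), LkA g e β C₀) ∨ Lar g D C₀

/-- **The theorem**, in terms of groups -/
theorem fin2 (hg : 2 ≤ g) {θ : ℂ} (hθ : θ ≠ 0) (m N r₀ q D e : ℕ) : ∃ E : ℕ, ∀ (B : ℝ) (h w b₀ : ℕ), 1 ≤ B →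
    (2 * B * ((h : ℝ) + w + 2)) ^ E ≤ (b₀ : ℝ) → ∀ (H : Matrix (Fin (2 * g)) (Fin (2 * g)) ℚ) (t : Tup m N g r₀),
    t.OK θ q D B h w b₀ H → Adm g D e t.C₀ →
      ∀ γ : Fin N → (Mn (2 * g) ℂ)ˣ, (∀ i, γ i ∈ Pool.Agent.Y123.GN.GB (cm H)) → ∀ x ∈ t.S,
        Tot 1 (fun i => (γ i : Mn (2 * g) ℂ)) * x ∈ t.S := by
  obtain ⟨E, hE⟩ := fin hg hθ m N r₀ q (D * D) e
  refine ⟨E, fun B h w b₀ hB hbig H t ht hadm γ hγ x hx => ?_⟩
  have hDD : D ≤ D * D := Nat.le_mul_self D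
  have hHc : IsUnit (cm H).det := Pool.Agent.H936.G.cm_unit ht.hd
  have hHct : (cm H)ᵀ = -cm H := by rw [← cm_transpose, ht.skew, cm_neg]
  have hinv := Pool.Agent.H936.SL.cm_inv ht.hd
  have hJt : (cm H⁻¹)ᵀ = -cm H⁻¹ := by
    rw [← hinv, Matrix.transpose_nonsing_inv, hHct]
    refine Matrix.inv_eq_right_inv ?_
    rw [Matrix.neg_mul, Matrix.mul_neg, neg_neg, Matrix.mul_nonsing_inv _ hHc]
  have hJd : IsUnit (cm H⁻¹).det := by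
    rw [← hinv, Matrix.det_nonsing_inv]
    exact hHc.ringInverse
  rcases hadm with hl | ⟨K₀, S₀, hK₀, hD₀, hS₀, hr₀, hm₀, hN⟩
  · obtain ⟨-, h2⟩ := hE B h w b₀ hB hbig H t ⟨ht.skew, ht.hd, ht.b_mem, ht.sep, fun i => Ctr.mono (ht.ctr i) hDD,
      fun i => SpecialC.mono (ht.spc i) hDD, ht.c0, ht.base, ht.ha, ht.line, ht.inf, ht.fd, ht.deg.trans hDD, ht.tor,
      ht.rat, ht.mem, ht.pres⟩
    have h3 := h2 hl
    rw [← hinv] at h3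
    exact sp_stab hHct hHc ht.tor h3 γ hγ hx
  · obtain ⟨K', hK1, hK2, hK3, hK4⟩ := exists_sup ht.fd hK₀ ht.deg hD₀
    set T : Set (Matrix (Ix r₀ (2 * g) N) (Ix r₀ (2 * g) N) ℂ) := t.S ∩ B0 (2 * g) N S₀ with hTdef
    have hcT : Tot t.C₀ (fun j => t.C j * Pool.Agent.Y118.HV.Hv (Pool.Agent.H885.lineM (t.a j) (t.Z j)) (t.b j)) ∈ T :=
      ⟨ht.mem, ht.tor.isUnit _ ht.mem, _, _, rfl, hm₀⟩
    have hT : IsSubtorsor K' T := inter_tor hK1 hK2 ht.tor (B0_tor hS₀)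
    have hTr : RatGrp T := inter_rat ht.tor (B0_tor hS₀) ht.rat (B0_rat hS₀.isUnit hr₀) hcT
    obtain ⟨h1, -⟩ := hE B h w b₀ hB hbig H ⟨t.b, t.C, t.C₀, t.T, t.A, t.Z, t.W, t.a, K', T⟩
      ⟨ht.skew, ht.hd, ht.b_mem, ht.sep, fun i => Ctr.mono (ht.ctr i) hDD,
      fun i => SpecialC.mono (ht.spc i) hDD, ht.c0, ht.base, ht.ha, ht.line, ht.inf, hK3, hK4, hT,
      hTr, hcT, ht.pres⟩
    have h2 : ∀ j, ∀ X ∈ spS (cm H)⁻¹, ib (r₀ := r₀) j X ∈ Lm T := by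
      rw [hinv]
      intro j
      have hge := finrank_spS_ge hJt hJd
      have hpos : 0 < finrank ℂ (spS (cm H⁻¹)) := by
        refine lt_of_lt_of_le ?_ hge
        exact Nat.choose_pos (by omega)
      obtain ⟨A, hA⟩ := (Module.finrank_pos_iff_exists_ne_zero (R := ℂ)).1 hpos
      refine sig_step hJt hJd ⟨A.1, A.2, fun h0 => hA (Subtype.ext h0)⟩
        (fun x hx y hy => LL_br hT ⟨_, hcT⟩ hx hy) (h1 j) (𝔤 := Lm S₀) (fun e y he => ?_) (NLF.mono hN hge)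
      exact fst_mem hT hS₀ Set.inter_subset_right hcT he
    exact stab_up ht.tor Set.inter_subset_left hcT (sp_stab hHct hHc hT h2 γ hγ hcT) hx

end Pool.Agent.H936.X
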