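import Pool.Agent.H936.X.Comb
import Pool.Graph.R_seed8.Y123.ST.Cl2

/-!
# Tensors which are invariant under transvections
-/

set_option autoImplicit false
set_option linter.unusedSectionVars false
set_option linter.unusedVariables false

open Matrix Module

namespace Pool.Agent.H936.X

open Pool.Agent.Y123.ST (tp tp_mul tp_one tp_deriv)

section chi
variable {B κ : Type} [Fintype B] [Fintype κ] [DecidableEq κ] [DecidableEq B]

/-- semi-invariants of unipotent one-parameter groups are invariants -/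
theorem chi_one {E : Matrix B B ℂ} (hE : E * E = 0) (F : (κ → B) → ℂ)
    (h : ∀ s : ℂ, ∃ χ : ℂ, tp κ (1 + s • E) *ᵥ F = χ • F) : ∀ s : ℂ, tp κ (1 + s • E) *ᵥ F = F := by
  by_cases hF : F = 0
  · intro s
    rw [hF, Matrix.mulVec_zero]
  obtain ⟨I, hI⟩ := Function.ne_iff.1 hF
  rw [Pi.zero_apply] at hI
  choose χ hχ using h
  let p : Polynomial ℂ := ∑ J : κ → B, (∏ k, (Polynomial.C ((1 : Matrix B B ℂ) (I k) (J k)) +
    Polynomial.X * Polynomial.C (E (I k) (J k)))) * Polynomial.C (F J * (F I)⁻¹)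
  have hp : ∀ s, p.eval s = χ s := by
    intro s
    have h1 := congrFun (hχ s) I
    rw [Pi.smul_apply, smul_eq_mul] at h1
    have h2 : (tp κ (1 + s • E) *ᵥ F) I = ∑ J, (∏ k, (1 + s • E) (I k) (J k)) * F J := rfl
    rw [h2] at h1
    have h3 : p.eval s = (∑ J, (∏ k, (1 + s • E) (I k) (J k)) * F J) * (F I)⁻¹ := by
      rw [Polynomial.eval_finsetSum, Finset.sum_mul]
      refine Finset.sum_congr rfl fun J _ => ?_
      rw [Polynomial.eval_mul, Polynomial.eval_prod, Polynomial.eval_C, mul_assoc]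
      congr 1
      refine Finset.prod_congr rfl fun k _ => ?_
      rw [Polynomial.eval_add, Polynomial.eval_mul, Polynomial.eval_C, Polynomial.eval_C, Polynomial.eval_X,
        Matrix.add_apply, Matrix.smul_apply, smul_eq_mul]
    rw [h3, h1, mul_assoc, mul_inv_cancel₀ hI, mul_one]
  have hmul : ∀ s, χ s * χ (-s) = 1 := by
    intro s
    have h1 : tp κ (1 + s • E) *ᵥ (tp κ (1 + (-s) • E) *ᵥ F) = F := by
      rw [Matrix.mulVec_mulVec, ← tp_mul]
      have h2 : (1 + s • E) * (1 + (-s) • E) = 1 := by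
        rw [Matrix.add_mul, Matrix.mul_add, Matrix.mul_add, Matrix.mul_one, Matrix.one_mul, Matrix.mul_one,
          Matrix.smul_mul, Matrix.mul_smul, hE, smul_zero, smul_zero, neg_smul]
        abel
      rw [h2, tp_one, Matrix.one_mulVec]
    rw [hχ, Matrix.mulVec_smul, hχ, smul_smul] at h1
    have h3 := congrFun h1 I
    rw [Pi.smul_apply, smul_eq_mul] at h3
    have h4 : (χ (-s) * χ s - 1) * F I = 0 := by linear_combination h3
    rcases mul_eq_zero.1 h4 with h5 | h5
    · linear_combination h5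
    · exact absurd h5 hI
  have hpp : p * p.comp (-Polynomial.X) = 1 := by
    refine Polynomial.funext fun s => ?_
    rw [Polynomial.eval_mul, Polynomial.eval_comp, Polynomial.eval_neg, Polynomial.eval_X, hp, hp, hmul,
      Polynomial.eval_one]
  have hu : IsUnit p := IsUnit.of_mul_eq_one _ hpp
  obtain ⟨a, -, ha⟩ := Polynomial.isUnit_iff.1 hu
  have h0 : χ 0 = 1 := by
    have h1 := hχ 0
    rw [zero_smul, add_zero, tp_one, Matrix.one_mulVec] at h1
    have h2 := congrFun h1 I
    rw [Pi.smul_apply, smul_eq_mul] at h2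
    have h4 : (χ 0 - 1) * F I = 0 := by linear_combination -h2
    rcases mul_eq_zero.1 h4 with h5 | h5
    · linear_combination h5
    · exact absurd h5 hI
  have hχ1 : ∀ s, χ s = 1 := by
    intro s
    rw [← hp, ← ha, Polynomial.eval_C, ← h0, ← hp, ← ha, Polynomial.eval_C]
  intro s
  rw [hχ, hχ1, one_smul]

end chi

variable {n N : ℕ} {κ : Type} [Fintype κ] [DecidableEq κ]

/-- the form in the block `j` -/
def WH (H : Matrix (Fin n) (Fin n) ℚ) (j : Fin N) (x y : Fin n × Fin N) : ℚ :=
  if x.2 = j ∧ y.2 = j then H x.1 y.1 else 0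

/-- the form of the sum -/
def QH (N : ℕ) (H : Matrix (Fin n) (Fin n) ℚ) : Matrix (Fin n × Fin N) (Fin n × Fin N) ℚ := blockDiagonal fun _ => H

theorem QH_apply (H : Matrix (Fin n) (Fin n) ℚ) (x y : Fin n × Fin N) :
    QH N H x y = if x.2 = y.2 then H x.1 y.1 else 0 := by
  obtain ⟨x1, x2⟩ := x
  obtain ⟨y1, y2⟩ := y
  unfold QH
  rw [blockDiagonal_apply]

section span
variable {M : Type} [AddCommGroup M] [Module ℚ M]

/-- products of forms with coefficients -/
def prM (H : Matrix (Fin n) (Fin n) ℚ) {m : ℕ} (e : Fin m × Fin 2 ≃ κ) (b : Fin m → Fin N) (u : M) :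
    (κ → Fin n × Fin N) → M :=
  fun I => (∏ l, WH H (b l) (I (e (l, 0))) (I (e (l, 1)))) • u

open Pool.Agent.TH125.Nod in
theorem gen_memH (H : Matrix (Fin n) (Fin n) ℚ) (b : κ → Fin N) {m : ℕ} (e : Fin m × Fin 2 ≃ κ) (w : M) :
    gen Prod.snd (QH N H) b e w ∈ Submodule.span ℚ {G : (κ → Fin n × Fin N) → M |
      ∃ (m : ℕ) (e : Fin m × Fin 2 ≃ κ) (b : Fin m → Fin N) (u : M), G = prM H e b u} := by
  by_cases hb : ∀ l, b (e (l, 0)) = b (e (l, 1))
  · refine Submodule.subset_span ⟨m, e, fun l => b (e (l, 0)), w, ?_⟩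
    funext J
    unfold gen prM
    by_cases hJ : ∀ k, (J k).2 = b k
    · rw [if_pos hJ]
      congr 1
      refine Finset.prod_congr rfl fun l _ => ?_
      unfold WH
      rw [QH_apply, hJ, hJ, if_pos (hb l), if_pos ⟨rfl, (hb l).symm⟩]
    · rw [if_neg hJ]
      push Not at hJ
      obtain ⟨k, hk⟩ := hJ
      obtain ⟨⟨l, i⟩, rfl⟩ := e.surjective k
      rw [Finset.prod_eq_zero (Finset.mem_univ l), zero_smul]
      unfold WH
      rw [if_neg]
      rintro ⟨h3, h4⟩
      apply hk
      fin_cases i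
      · exact h3
      · exact h4.trans (hb l)
  · have h2 : gen Prod.snd (QH N H) b e w = 0 := by
      funext J
      unfold gen
      by_cases hJ : ∀ k, (J k).2 = b k
      · rw [if_pos hJ]
        push Not at hb
        obtain ⟨l, hl⟩ := hb
        rw [Finset.prod_eq_zero (Finset.mem_univ l), zero_smul]
        · rfl
        · rw [QH_apply, hJ, hJ, if_neg hl]
      · rw [if_neg hJ]
        rfl
    rw [h2]
    exact Submodule.zero_mem _

open Pool.Agent.TH125.Nod in
theorem span_ofH {H : Matrix (Fin n) (Fin n) ℚ} (hH : Hᵀ = -H) (hd : IsUnit H.det) {f : (κ → Fin n × Fin N) → M}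
    (h : ∀ u v : Fin n × Fin N, u.2 = v.2 → ∀ I : κ → Fin n × Fin N,
      ∑ k, (QH N H v (I k) • f (Function.update I k u) + QH N H u (I k) • f (Function.update I k v)) = 0) :
    f ∈ Submodule.span ℚ {G : (κ → Fin n × Fin N) → M |
      ∃ (m : ℕ) (e : Fin m × Fin 2 ≃ κ) (b : Fin m → Fin N) (u : M), G = prM H e b u} := by
  classical
  have hF : f = ∑ b : κ → Fin N, fun I => if ∀ k, (I k).2 = b k then f I else 0 := by
    funext I
    rw [Finset.sum_apply, Finset.sum_eq_single (fun k => (I k).2)]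
    · rw [if_pos (fun _ => rfl)]
    · intro b _ hb
      rw [if_neg]
      intro h1
      exact hb (funext fun k => (h1 k).symm)
    · intro h1
      exact absurd (Finset.mem_univ _) h1
  have hsk : ∀ a b, H a b = -H b a := by
    intro a b
    have h1 := congrFun (congrFun hH b) a
    rw [Matrix.transpose_apply, Matrix.neg_apply] at h1
    exact h1
  rw [hF]
  refine Submodule.sum_mem _ fun b _ => ?_
  have hgen : (fun I : κ → Fin n × Fin N => if ∀ k, (I k).2 = b k then f I else 0) ∈
      Gen (M := M) Prod.snd (QH N H) b := by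
    have hR : QH N H * (QH N H)⁻¹ = 1 := by
      refine mul_nonsing_inv _ ?_
      unfold QH
      rw [det_blockDiagonal, Finset.prod_const]
      exact hd.pow _
    refine fft (K := ℚ) (M := M) (κ := Prod.snd) (Q := QH N H) (R := (QH N H)⁻¹) (s := fun _ => -1) (fun _ => Or.inr rfl)
      ?_ ?_ hR (Fintype.card κ) κ b _ rfl ?_ ?_ ?_
    · intro x y hxy
      rw [QH_apply, if_neg hxy]
    · intro x y
      rw [QH_apply, QH_apply]
      by_cases hxy : x.2 = y.2
      · rw [if_pos hxy, if_pos hxy.symm, hsk y.1 x.1]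
        push_cast
        ring
      · rw [if_neg hxy, if_neg (Ne.symm hxy), mul_zero]
    · intro J hJ
      exact if_neg hJ
    · intro u v huv J
      by_cases hJ : ∀ k, (J k).2 = b k
      · refine Eq.trans (Finset.sum_congr rfl fun k _ => ?_) (h u v huv J)
        have key : ∀ x y : Fin n × Fin N, x.2 = y.2 →
            QH N H x (J k) • (if ∀ k', (Function.update J k y k').2 = b k' then f (Function.update J k y) else 0) =
              QH N H x (J k) • f (Function.update J k y) := by
          intro x y hxy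
          by_cases hx : x.2 = (J k).2
          · rw [if_pos]
            intro k'
            by_cases hk : k' = k
            · subst hk
              rw [Function.update_self, ← hxy, hx, hJ]
            · rw [Function.update_of_ne hk, hJ]
          · rw [QH_apply, if_neg hx, zero_smul, zero_smul]
        simp only
        rw [key v u huv.symm, mul_smul, key u v huv]
        push_cast
        rw [neg_smul, one_smul, sub_neg_eq_add]
      · refine Finset.sum_eq_zero fun k _ => ?_
        have key : ∀ x y : Fin n × Fin N, x.2 = y.2 →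
            QH N H x (J k) • (if ∀ k', (Function.update J k y k').2 = b k' then f (Function.update J k y) else 0) = 0 := by
          intro x y hxy
          by_cases hx : x.2 = (J k).2
          · rw [if_neg, smul_zero]
            intro h1
            apply hJ
            intro k'
            by_cases hk : k' = k
            · subst hk
              have := h1 k'
              rwa [Function.update_self, ← hxy, hx] at this
            · have := h1 k'
              rwa [Function.update_of_ne hk] at this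
          · rw [QH_apply, if_neg hx, zero_smul]
        simp only
        rw [key v u huv.symm, mul_smul, key u v huv, smul_zero, sub_zero]
    · intro i hi
      exact absurd hi (by norm_num)
  unfold Gen at hgen
  have hle : Submodule.span ℚ {g | ∃ (m : ℕ) (e : Fin m × Fin 2 ≃ κ) (w : M), g = gen Prod.snd (QH N H) b e w} ≤
      Submodule.span ℚ {G : (κ → Fin n × Fin N) → M |
        ∃ (m : ℕ) (e : Fin m × Fin 2 ≃ κ) (b : Fin m → Fin N) (u : M), G = prM H e b u} := by
    rw [Submodule.span_le]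
    rintro _ ⟨m', e, w, rfl⟩
    exact gen_memH H b e w
  exact hle hgen

end span

/-! ### transvections -/

/-- the direction of a transvection -/
def EH (H : Matrix (Fin n) (Fin n) ℂ) (w : Fin n → ℂ) : Matrix (Fin n) (Fin n) ℂ := vecMulVec (H *ᵥ w) w

theorem alt0 {H : Matrix (Fin n) (Fin n) ℂ} (hH : Hᵀ = -H) (w : Fin n → ℂ) : w ⬝ᵥ (H *ᵥ w) = 0 := by
  have h1 : w ⬝ᵥ (H *ᵥ w) = (w ᵥ* H) ⬝ᵥ w := Matrix.dotProduct_mulVec w H w
  have h2 : w ᵥ* H = -(H *ᵥ w) := by
    rw [← Matrix.mulVec_transpose, hH, Matrix.neg_mulVec]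
  rw [h2, neg_dotProduct, dotProduct_comm (H *ᵥ w) w] at h1
  have h3 : (2 : ℂ) * (w ⬝ᵥ (H *ᵥ w)) = 0 := by linear_combination h1
  exact (mul_eq_zero.1 h3).resolve_left two_ne_zero

theorem EH_sq {H : Matrix (Fin n) (Fin n) ℂ} (hH : Hᵀ = -H) (w : Fin n → ℂ) : EH H w * EH H w = 0 := by
  unfold EH
  rw [Matrix.vecMulVec_mul_vecMulVec, alt0 hH, zero_smul, Matrix.vecMulVec_zero]

theorem EH_sp {H : Matrix (Fin n) (Fin n) ℂ} (hH : Hᵀ = -H) (w : Fin n → ℂ) (s : ℂ) :
    (1 + s • EH H w) * H * (1 + s • EH H w)ᵀ = H := by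
  have h1 : EH H w * H = -(vecMulVec (H *ᵥ w) (H *ᵥ w)) := by
    unfold EH
    rw [Matrix.vecMulVec_mul, ← Matrix.mulVec_transpose, hH, Matrix.neg_mulVec, Matrix.vecMulVec_neg]
  have h2 : H * (EH H w)ᵀ = vecMulVec (H *ᵥ w) (H *ᵥ w) := by
    unfold EH
    rw [Matrix.transpose_vecMulVec, Matrix.mul_vecMulVec]
  have h3 : EH H w * H * (EH H w)ᵀ = 0 := by
    rw [h1, Matrix.neg_mul]
    unfold EH
    rw [Matrix.transpose_vecMulVec, Matrix.vecMulVec_mul_vecMulVec, dotProduct_comm, alt0 hH, zero_smul,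
      Matrix.vecMulVec_zero, neg_zero]
  rw [Matrix.transpose_add, Matrix.transpose_one, Matrix.transpose_smul, Matrix.add_mul, Matrix.one_mul, Matrix.mul_add,
    Matrix.mul_one, Matrix.add_mul, Matrix.smul_mul, Matrix.mul_smul, Matrix.mul_smul, Matrix.smul_mul, h3, h1, h2]
  rw [smul_zero, smul_zero, add_zero, smul_neg]
  abel

theorem EH_pol (H : Matrix (Fin n) (Fin n) ℂ) (u v x p : Fin n) :
    (EH H (Pi.single u 1 + Pi.single v 1) - EH H (Pi.single u 1) - EH H (Pi.single v 1)) x p =
      H x u * (if p = v then 1 else 0) + H x v * (if p = u then 1 else 0) := by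
  unfold EH
  rw [mulVec_add, mulVec_single_one, mulVec_single_one]
  simp only [Matrix.sub_apply, vecMulVec_apply, Pi.add_apply, Matrix.col_apply, Pi.single_apply]
  ring

theorem bdH_sg {j : Fin N} (E : Matrix (Fin n) (Fin n) ℂ) (s : ℂ) :
    blockDiagonal (fun k => if k = j then 1 + s • E else 1) =
      (1 : Matrix (Fin n × Fin N) (Fin n × Fin N) ℂ) + s • blockDiagonal (Pi.single j E) := by
  rw [← blockDiagonal_one, ← blockDiagonal_smul, ← blockDiagonal_add]
  congr 1
  funext k
  by_cases h : k = j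
  · subst h
    rw [if_pos rfl, Pi.add_apply, Pi.smul_apply, Pi.single_eq_same]
    rfl
  · rw [if_neg h, Pi.add_apply, Pi.smul_apply, Pi.single_eq_of_ne h, smul_zero, add_zero]
    rfl

/-- the Lie algebra condition for semi-invariants -/
theorem lie_ofH {H : Matrix (Fin n) (Fin n) ℂ} (hH : Hᵀ = -H) {F : (κ → Fin n × Fin N) → ℂ}
    (h : ∀ γ : Fin N → Matrix (Fin n) (Fin n) ℂ, (∀ j, γ j * H * (γ j)ᵀ = H) →
      ∃ χ : ℂ, tp κ (blockDiagonal γ) *ᵥ F = χ • F) (j : Fin N) (w : Fin n → ℂ) (I : κ → Fin n × Fin N) :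
    ∑ k, ∑ p, blockDiagonal (Pi.single j (EH H w)) (I k) p * F (Function.update I k p) = 0 := by
  refine tp_deriv _ F (chi_one ?_ F fun s => ?_) I
  · rw [← blockDiagonal_mul]
    have h1 : (fun k => (Pi.single j (EH H w) : Fin N → Matrix (Fin n) (Fin n) ℂ) k *
        (Pi.single j (EH H w) : Fin N → Matrix (Fin n) (Fin n) ℂ) k) = 0 := by
      funext k
      by_cases hk : k = j
      · subst hk
        rw [Pi.single_eq_same, EH_sq hH]
        rfl
      · rw [Pi.single_eq_of_ne hk, Matrix.zero_mul]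
        rfl
    rw [h1, blockDiagonal_zero]
  · rw [← bdH_sg]
    refine h _ fun k => ?_
    by_cases hk : k = j
    · rw [if_pos hk]
      exact EH_sp hH w s
    · rw [if_neg hk, Matrix.one_mul, Matrix.transpose_one, Matrix.mul_one]

/-- infinitesimal invariance -/
theorem Inv_ofH {H : Matrix (Fin n) (Fin n) ℂ} (hH : Hᵀ = -H) {F : (κ → Fin n × Fin N) → ℂ}
    (h : ∀ γ : Fin N → Matrix (Fin n) (Fin n) ℂ, (∀ j, γ j * H * (γ j)ᵀ = H) →
      ∃ χ : ℂ, tp κ (blockDiagonal γ) *ᵥ F = χ • F) (u v : Fin n × Fin N) (huv : u.2 = v.2) (I : κ → Fin n × Fin N) :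
    ∑ k, ((blockDiagonal (fun _ : Fin N => H)) v (I k) * F (Function.update I k u) +
      (blockDiagonal (fun _ : Fin N => H)) u (I k) * F (Function.update I k v)) = 0 := by
  obtain ⟨u, j⟩ := u
  obtain ⟨v, j'⟩ := v
  simp only at huv
  subst huv
  have hsk : ∀ a b, H a b = -H b a := by
    intro a b
    have h1 := congrFun (congrFun hH b) a
    rw [Matrix.transpose_apply, Matrix.neg_apply] at h1
    exact h1
  have h1 := lie_ofH hH h j (Pi.single u 1 + Pi.single v 1) I
  have h2 := lie_ofH hH h j (Pi.single u 1) I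
  have h3 := lie_ofH hH h j (Pi.single v 1) I
  have h4 : ∑ k, ∑ p, (blockDiagonal (Pi.single j (EH H (Pi.single u 1 + Pi.single v 1))) (I k) p
      - blockDiagonal (Pi.single j (EH H (Pi.single u 1))) (I k) p - blockDiagonal (Pi.single j (EH H (Pi.single v 1))) (I k) p) *
        F (Function.update I k p) = 0 := by
    simp only [sub_mul, Finset.sum_sub_distrib]
    rw [h1, h2, h3]
    ring
  have hbd : ∀ (M : Matrix (Fin n) (Fin n) ℂ) (x p : Fin n × Fin N),
      blockDiagonal (Pi.single j M) x p = if x.2 = j ∧ p.2 = j then M x.1 p.1 else 0 :=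
    fun M x p => Pool.Agent.Y123.ST.bd_single j M x p
  have hQ : ∀ x y : Fin n × Fin N, (blockDiagonal (fun _ : Fin N => H)) x y = if x.2 = y.2 then H x.1 y.1 else 0 := by
    rintro ⟨x1, x2⟩ ⟨y1, y2⟩
    rw [blockDiagonal_apply]
  have h5 : ∀ k : κ, ∑ p, (blockDiagonal (Pi.single j (EH H (Pi.single u 1 + Pi.single v 1))) (I k) p
      - blockDiagonal (Pi.single j (EH H (Pi.single u 1))) (I k) p - blockDiagonal (Pi.single j (EH H (Pi.single v 1))) (I k) p) *
        F (Function.update I k p) =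
      -((blockDiagonal (fun _ : Fin N => H)) (v, j) (I k) * F (Function.update I k (u, j)) +
        (blockDiagonal (fun _ : Fin N => H)) (u, j) (I k) * F (Function.update I k (v, j))) := by
    intro k
    have h6 : ∀ p : Fin n × Fin N, (blockDiagonal (Pi.single j (EH H (Pi.single u 1 + Pi.single v 1))) (I k) p
      - blockDiagonal (Pi.single j (EH H (Pi.single u 1))) (I k) p - blockDiagonal (Pi.single j (EH H (Pi.single v 1))) (I k) p) *
        F (Function.update I k p) =
        (if (I k).2 = j ∧ p.2 = j then H (I k).1 u * (if p.1 = v then 1 else 0) else 0) *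
          F (Function.update I k p) +
        (if (I k).2 = j ∧ p.2 = j then H (I k).1 v * (if p.1 = u then 1 else 0) else 0) *
          F (Function.update I k p) := by
      intro p
      rw [hbd, hbd, hbd]
      by_cases hp : (I k).2 = j ∧ p.2 = j
      · rw [if_pos hp, if_pos hp, if_pos hp, if_pos hp, if_pos hp, ← add_mul]
        congr 1
        exact EH_pol H u v (I k).1 p.1
      · rw [if_neg hp, if_neg hp, if_neg hp, if_neg hp, if_neg hp]
        ring
    rw [Finset.sum_congr rfl (fun p _ => h6 p), Finset.sum_add_distrib,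
      Pool.Agent.Y123.ST.sum_block j v (I k) _ (fun p => F (Function.update I k p)),
      Pool.Agent.Y123.ST.sum_block j u (I k) _ (fun p => F (Function.update I k p)), hQ, hQ]
    by_cases hj : (I k).2 = j
    · rw [if_pos hj, if_pos hj, if_pos hj.symm, if_pos hj.symm, hsk (I k).1 u, hsk (I k).1 v]
      ring
    · rw [if_neg hj, if_neg hj, if_neg (Ne.symm hj), if_neg (Ne.symm hj)]
      simp
  rw [Finset.sum_congr rfl (fun k _ => h5 k), Finset.sum_neg_distrib, neg_eq_zero] at h4
  exact h4

/-- **Semi-invariant tensors with coefficients** -/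
theorem span_ofC {H : Matrix (Fin n) (Fin n) ℚ} (hH : Hᵀ = -H) (hd : IsUnit H.det) {ι : Type}
    (f : (κ → Fin n × Fin N) → ι → ℚ)
    (h : ∀ γ : Fin N → Matrix (Fin n) (Fin n) ℂ,
      (∀ j, γ j * Pool.Agent.Y119.HY.cm H * (γ j)ᵀ = Pool.Agent.Y119.HY.cm H) → ∀ i : ι,
      ∃ χ : ℂ, tp κ (blockDiagonal γ) *ᵥ (fun I => (f I i : ℂ)) = χ • fun I => (f I i : ℂ)) :
    f ∈ Submodule.span ℚ {G : (κ → Fin n × Fin N) → ι → ℚ |
      ∃ (m : ℕ) (e : Fin m × Fin 2 ≃ κ) (b : Fin m → Fin N) (u : ι → ℚ), G = prM H e b u} := by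
  refine span_ofH hH hd fun u v huv I => ?_
  have hHc : (Pool.Agent.Y119.HY.cm H)ᵀ = -Pool.Agent.Y119.HY.cm H := by
    rw [← Pool.Agent.Y119.HY.cm_transpose, hH, Pool.Agent.Y119.HY.cm_neg]
  funext i
  have h1 := Inv_ofH hHc (fun γ hγ => h γ hγ i) u v huv I
  have hQ : ∀ x y : Fin n × Fin N, (blockDiagonal (fun _ : Fin N => Pool.Agent.Y119.HY.cm H)) x y = ((QH N H x y : ℚ) : ℂ) := by
    rintro ⟨x1, x2⟩ ⟨y1, y2⟩
    rw [blockDiagonal_apply, QH_apply]
    simp only
    split_ifs
    · rw [Pool.Agent.Y119.HY.cm_apply]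
    · rw [Rat.cast_zero]
  simp only [hQ] at h1
  rw [Finset.sum_apply, Pi.zero_apply]
  simp only [Pi.add_apply, Pi.smul_apply, smul_eq_mul]
  exact_mod_cast h1

end Pool.Agent.H936.X
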