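import Pool.Agent.H936.X.Pt
import Pool.Agent.H885.BaseU

/-!
# The theorem on fibres near different special fibres
-/

set_option autoImplicit false
set_option linter.unusedSectionVars false
set_option linter.unusedVariables false

open Matrix Module Filter PowerSeries

namespace Pool.Agent.H936.X

open Pool.Agent.Y113 (ps)
open Pool.Agent.Y118.HV (Hv hh)
open Pool.Agent.Y120.GH (cx cx_mem Cw)
open Pool.Agent.Helper880_LF (om pr spS mem_spS comm_mem)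
open Pool.Agent.Helper880_LF.NB (gm gm_mul gm_add gm_sub gm_smul gm_zero gm_one gm_ev gm_eq gm_surj gm_neg gm_unit gm_apply
  gm_transpose gm_kt kt kt_apply dm dm_mul dm_smul dm_transpose Lst mem_Lst normL rank_le kerD mem_kerD ker_alg)
open Pool.Agent.Helper880_R3 (Ix ib Tot)
open Pool.Agent.Y118.UL (mk mk_eq mk_eq_zero mk_ne_zero mk_surj ev_ge rep U)
open Pool.Agent.Y119.HY (cm cm_apply cm_mul cm_one cm_transpose cm_zero cm_add cm_neg cm_pow)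
open Pool.Agent.TH127.PT (IsSubtorsor)
open Pool.Agent.Y102 (AbVar QBar)
open Pool.Agent.H936.SL (Mn GS Pj TN Lm RatGrp Pres Lev)
open Pool.Agent.H936.G (DD ld ld_apply cjg cjg_apply Xd Fu mkLev Spc nrmS)
open Pool.Agent.H936.V (gm_spS gm_skew Pt Cen JJ JJ_skew JJ_det Ag gens Bd Ctr SpecialC Far)
open Pool.Agent.H885 (Sys InfT part GBaseU line lineM toMv line_size pow_absorb base_sysU)

variable {n N r₀ g R m : ℕ}

/-- the data -/
structure Dat (N g r₀ : ℕ) where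
  H : Matrix (Fin (2 * g)) (Fin (2 * g)) ℚ
  C : Fin N → Mn (2 * g) ℂ
  C₀ : Matrix (Fin r₀) (Fin r₀) ℂ
  pt : Pt 1 (2 * g) N
  K : Subfield ℂ
  S : Set (Matrix (Ix r₀ (2 * g) N) (Ix r₀ (2 * g) N) ℂ)

/-- the conditions -/
structure Dat.OK (θ : ℂ) (q D E : ℕ) (d : Dat N g r₀) : Prop where
  skew : d.Hᵀ = -d.H
  hd : IsUnit d.H.det
  ctr : ∀ i, Ctr θ D d.H (d.C i)
  spc : ∀ i, SpecialC D d.H (d.C i)
  c0 : d.C₀.det ≠ 0
  pt : OKX q E (cm (d.H)⁻¹) d.C d.pt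
  fd : FiniteDimensional ℚ d.K
  deg : finrank ℚ d.K ≤ D
  tor : IsSubtorsor d.K d.S
  rat : RatGrp d.S
  mem : Tot d.C₀ (fun j => d.C j * Hv (d.pt.Z 0 j) (d.pt.b 0 j)) ∈ d.S
  pres : ∀ j, ∃ (A : AbVar g) (R : Matrix (Fin (2 * g)) (Fin (2 * g)) ℚ),
    Pres A d.H (d.C j * Hv (d.pt.Z 0 j) (d.pt.b 0 j)) R

/-- the conclusion -/
def Dat.Good (d : Dat N g r₀) (j : Fin N) : Prop :=
  ∀ X ∈ spS (cm (d.H)⁻¹), ib (r₀ := r₀) j X ∈ Lm d.S

/-- the conclusion for arbitrary additional periods -/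
def Dat.Good0 (d : Dat N g r₀) (j : Fin N) : Prop :=
  ∀ X ∈ spS (cm (d.H)⁻¹), ∃ e, Tot e (Pi.single j X) ∈ Lm d.S

/-- the values -/
noncomputable def Dat.z (d : Dat N g r₀) (j : Fin N) : Mn (2 * g) ℂ := Hv (d.pt.Z 0 j) (d.pt.b 0 j)

section
variable {θ : ℂ} {q D : ℕ}

theorem Dat.OK.zdet {E : ℕ} {d : Dat N g r₀} (h : d.OK θ q D E) (i : Fin N) : (d.z i).det ≠ 0 := by
  have h4 := (Pool.Agent.Helper880_R3.Tot_unit (h.tor.isUnit _ h.mem)).2 i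
  have h5 := (Matrix.isUnit_iff_isUnit_det _).1 h4
  rw [Matrix.det_mul] at h5
  exact (isUnit_of_mul_isUnit_right h5).ne_zero

theorem Dat.OK.lev {E : ℕ} {d : Dat N g r₀} (h : d.OK θ q D E) :
    ∃ (A : Fin N → AbVar g) (Rm : Fin N → Matrix (Fin (2 * g)) (Fin (2 * g)) ℚ),
      Lev d.K A d.H d.C₀ (fun j => d.C j * Hv (d.pt.Z 0 j) (d.pt.b 0 j)) Rm d.S := by
  choose A Rm hAR using h.pres
  exact ⟨A, Rm, mkLev h.fd h.tor h.rat h.mem hAR h.hd⟩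

theorem cen_of {d : ℕ → Dat N g r₀} (hθ : θ ≠ 0) (h : ∀ k, (d k).OK θ q D k) (i : Fin N) :
    Cen D (fun k => (d k).H) (fun k => (d k).C i) θ where
  skew k := (h k).skew
  hd k := (h k).hd
  cd k := ((h k).ctr i).cd
  ne := hθ
  leg k := ((h k).ctr i).leg

/-- **the derivations** -/
theorem surj_seq {d : ℕ → Dat N g r₀} (h : ∀ k, (d k).OK θ q D k) (j : Fin N) :
    ∀ Y ∈ spS (gm (JJ fun k => (d k).H)), ∃ δ : DD,
      Xd (fun k => (d k).C j) (fun k => (d k).z) j δ = Y ∧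
      ∀ i, i ≠ j → Xd (fun k => (d k).C i) (fun k => (d k).z) i δ = 0 := by
  classical
  intro Y hY
  obtain ⟨F, rfl⟩ := gm_surj Y
  have hF := gm_spS.1 hY
  set G : ℕ → Mn (2 * g) ℂ := fun k => if F k ∈ spS (JJ (fun k => (d k).H) k) then F k else 0 with hG
  have hGF : gm G = gm F := by
    rw [gm_ev]
    filter_upwards [hF] with k hk
    exact if_pos hk
  have hGs : ∀ k, G k ∈ spS (JJ (fun k => (d k).H) k) := by
    intro k
    rw [hG]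
    simp only
    split_ifs with hk
    · exact hk
    · exact Submodule.zero_mem _
  obtain ⟨δ, h1, h2⟩ := der_ptsX (d := fun k => (d k).pt) (C := fun k => (d k).C) (fun k => (h k).pt) j hGs
  have hzu : IsUnit (gm fun k => Hv ((d k).pt.Z 0 j) ((d k).pt.b 0 j)).det := gm_unit fun k => (h k).zdet j
  have hCu : IsUnit (gm fun k => (d k).C j).det := gm_unit fun k => ((h k).ctr j).cd.ne_zero
  have hinv : gm (fun k => ((d k).C j)⁻¹) = (gm fun k => (d k).C j)⁻¹ := by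
    symm
    refine Matrix.inv_eq_right_inv ?_
    rw [← gm_mul, ← gm_one]
    congr 1
    funext k
    exact Matrix.mul_nonsing_inv _ ((h k).ctr j).cd
  refine ⟨δ, ?_, fun i hi => ?_⟩
  · show gm (fun k => (d k).C j) * (dm δ (gm fun k => Hv ((d k).pt.Z 0 j) ((d k).pt.b 0 j)) *
      (gm fun k => Hv ((d k).pt.Z 0 j) ((d k).pt.b 0 j))⁻¹) * (gm fun k => (d k).C j)⁻¹ = gm F
    rw [h1, Matrix.mul_assoc _ (gm fun k => Hv ((d k).pt.Z 0 j) ((d k).pt.b 0 j)), Matrix.mul_nonsing_inv _ hzu,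
      Matrix.mul_one]
    have h3 : gm (fun k => ((d k).C j)⁻¹ * G k * (d k).C j) =
        (gm fun k => (d k).C j)⁻¹ * gm F * gm (fun k => (d k).C j) := by
      rw [gm_mul, gm_mul, hinv, hGF]
    rw [h3]
    calc gm (fun k => (d k).C j) * ((gm fun k => (d k).C j)⁻¹ * gm F * gm (fun k => (d k).C j)) *
        (gm fun k => (d k).C j)⁻¹ = (gm (fun k => (d k).C j) * (gm fun k => (d k).C j)⁻¹) * gm F *
          (gm (fun k => (d k).C j) * (gm fun k => (d k).C j)⁻¹) := by simp only [Matrix.mul_assoc]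
      _ = _ := by rw [Matrix.mul_nonsing_inv _ hCu, Matrix.one_mul, Matrix.mul_one]
  · show gm (fun k => (d k).C i) * (dm δ (gm fun k => Hv ((d k).pt.Z 0 i) ((d k).pt.b 0 i)) *
      (gm fun k => Hv ((d k).pt.Z 0 i) ((d k).pt.b 0 i))⁻¹) * (gm fun k => (d k).C i)⁻¹ = 0
    rw [h2 i hi, Matrix.zero_mul, Matrix.mul_zero, Matrix.zero_mul]

/-- the Lie algebras of the centres -/
theorem lie_seq (hg : 2 ≤ g) (hθ : θ ≠ 0) {d : ℕ → Dat N g r₀} (h : ∀ k, (d k).OK θ q D k) :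
    ∃ 𝔩 : Fin N → Submodule (U ℂ) (Mn (2 * g) (U ℂ)), (∀ i, 𝔩 i ≤ spS (gm (JJ fun k => (d k).H))) ∧ (∀ i, TN (𝔩 i)) ∧
      (∀ i, 𝔩 i ≠ ⊥) ∧ (∀ i, 𝔩 i ≠ spS (gm (JJ fun k => (d k).H))) ∧ ∀ i (δ : DD), ∃ c : U ℂ,
        ld (fun k => (d k).C i) δ + c • (1 : Mn (2 * g) (U ℂ)) ∈ nrmS (gm (JJ fun k => (d k).H)) (𝔩 i) := by
  have h0 : ∀ i, ∃ 𝔩 : Submodule (U ℂ) (Mn (2 * g) (U ℂ)), 𝔩 ≤ spS (gm (JJ fun k => (d k).H)) ∧ TN 𝔩 ∧ 𝔩 ≠ ⊥ ∧
      𝔩 ≠ spS (gm (JJ fun k => (d k).H)) ∧ ∀ δ : DD, ∃ c : U ℂ,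
        ld (fun k => (d k).C i) δ + c • (1 : Mn (2 * g) (U ℂ)) ∈ nrmS (gm (JJ fun k => (d k).H)) 𝔩 := by
    intro i
    choose A₀ R₀ K₀ S₀ hK₀ hD₀ hspc using fun k => (h k).spc i
    exact spc_l0 hg (cen_of hθ h i) hK₀ hD₀ hspc
  choose 𝔩 le tn nb nt fc using h0
  exact ⟨𝔩, le, tn, nb, nt, fc⟩

/-- **few additional periods**, for each number `s` -/
theorem uniA (hg : 2 ≤ g) (hθ : θ ≠ 0) (q D s e : ℕ) (j : Fin N) : ∃ E : ℕ, ∀ d : Dat N g r₀, d.OK θ q D E →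
    (∃ β : Fin s → ℂ, LkA g e β d.C₀) → d.Good j := by
  by_contra hcon
  simp only [not_exists, not_forall] at hcon
  choose d h hl hbad using hcon
  choose β hβ using hl
  obtain ⟨𝔩, le, tn, nb, nt, fc⟩ := lie_seq hg hθ h
  choose A Rm hlev using fun k => (h k).lev
  have hj := core_ult (Cs := fun i k => (d k).C i) (z := fun k => (d k).z) (by omega)
    (JJ_skew fun k => (h k).skew) (JJ_det fun k => (h k).hd) (fun i k => ((h k).ctr i).cd.ne_zero)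
    (fun k i => (h k).zdet i) (C₀ := fun k => (d k).C₀) (fun k => (h k).c0) le tn nb nt fc (surj_seq h j)
    (fun k => (h k).fd) (fun k => (h k).deg) (fun k => (h k).tor) (fun k => (h k).mem)
    (fun k => (hlev k).TN (h k).skew j) (fun k => (hlev k).ne (by omega) j)
    (fewA hg (cen_of hθ h j) (fun k => (h k).c0) hβ (le j) (nb j) (nt j) (fc j))
  obtain ⟨k, hk⟩ := hj.exists
  exact hbad k hk

/-- **arbitrary additional periods** -/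
theorem uni0 (hg : 2 ≤ g) (hθ : θ ≠ 0) (q D : ℕ) (j : Fin N) : ∃ E : ℕ, ∀ d : Dat N g r₀, d.OK θ q D E → d.Good0 j := by
  by_contra hcon
  simp only [not_exists, not_forall] at hcon
  choose d h hbad using hcon
  obtain ⟨𝔩, le, tn, nb, nt, fc⟩ := lie_seq hg hθ h
  choose A Rm hlev using fun k => (h k).lev
  have hj := core_ult0 (Cs := fun i k => (d k).C i) (z := fun k => (d k).z) (by omega)
    (JJ_skew fun k => (h k).skew) (JJ_det fun k => (h k).hd) (fun i k => ((h k).ctr i).cd.ne_zero)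
    (fun k i => (h k).zdet i) (C₀ := fun k => (d k).C₀) (fun k => (h k).c0) le tn nb nt fc (surj_seq h j)
    (fun k => (h k).fd) (fun k => (h k).deg) (fun k => (h k).tor) (fun k => (h k).mem)
    (fun k => (hlev k).TN (h k).skew j) (fun k => (hlev k).ne (by omega) j)
  obtain ⟨k, hk⟩ := hj.exists
  exact hbad k hk

end

theorem OKX.mono {q E E' : ℕ} {J : Mn n ℂ} {C : Fin N → Mn n ℂ} {d : Pt 1 n N} (h : OKX q E' J C d) (hE : E ≤ E') :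
    OKX q E J C d := by
  refine ⟨h.one_le, h.sys, h.T_ne, h.ρ_pos, h.mem, h.b_mem, h.sep, ?_, h.inf⟩
  have hH := h.one_le
  have hw0 : (0 : ℝ) ≤ d.w := by positivity
  have hρ := h.ρ_pos
  exact (pow_le_pow_right₀ (by nlinarith) hE).trans h.big

theorem Dat.OK.mono {θ : ℂ} {q D E E' : ℕ} {d : Dat N g r₀} (h : d.OK θ q D E') (hE : E ≤ E') : d.OK θ q D E :=
  ⟨h.skew, h.hd, h.ctr, h.spc, h.c0, h.pt.mono hE, h.fd, h.deg, h.tor, h.rat, h.mem, h.pres⟩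

/-- **The uniform theorem.** -/
theorem uni (hg : 2 ≤ g) {θ : ℂ} (hθ : θ ≠ 0) (N r₀ q D e : ℕ) : ∃ E : ℕ, ∀ d : Dat N g r₀, d.OK θ q D E →
    (∀ j, d.Good0 j) ∧ ((∃ (s : ℕ) (β : Fin s → ℂ), LkA g e β d.C₀) → ∀ j, d.Good j) := by
  choose EA hA using fun (s : ℕ) (j : Fin N) => uniA (r₀ := r₀) hg hθ q D s e j
  choose EB hB using fun (j : Fin N) => uni0 (r₀ := r₀) hg hθ q D j
  refine ⟨∑ j : Fin N, (EB j + ∑ s ∈ Finset.range (2 * g), EA s j), fun d hd => ?_⟩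
  have hle : ∀ j : Fin N, EB j + ∑ s ∈ Finset.range (2 * g), EA s j ≤
      ∑ j : Fin N, (EB j + ∑ s ∈ Finset.range (2 * g), EA s j) := fun j =>
    Finset.single_le_sum (f := fun j => EB j + ∑ s ∈ Finset.range (2 * g), EA s j) (fun _ _ => Nat.zero_le _)
      (Finset.mem_univ j)
  refine ⟨fun j => hB j d (hd.mono ((Nat.le_add_right _ _).trans (hle j))), fun ⟨s, β, hl⟩ j => ?_⟩
  have hs : s < 2 * g := by have := hl.1; omega
  have h1 : EA s j ≤ ∑ s ∈ Finset.range (2 * g), EA s j :=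
    Finset.single_le_sum (f := fun s => EA s j) (fun _ _ => Nat.zero_le _) (Finset.mem_range.2 hs)
  exact hA s j d (hd.mono (h1.trans ((Nat.le_add_left _ _).trans (hle j)))) ⟨β, hl⟩

/-! ### points of bases of any dimension -/

/-- **the points on lines**: uniform systems -/
theorem pt_ofX (N m n q : ℕ) : ∃ q' c : ℕ, ∀ (E : ℕ) (B : ℝ) (h w b₀ : ℕ), 1 ≤ B →
    (2 * B * ((h : ℝ) + w + 2)) ^ (c * E) ≤ (b₀ : ℝ) → ∀ (J : Mn n ℂ) (C : Fin N → Mn n ℂ) (b : Fin N → ℕ),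
    (∀ j, b₀ ≤ b j ∧ b j ≤ b₀ + w) → (∀ i j, b i = b j ∨ Far m B h (b i) (b j)) →
    ∀ (T : Fin N → MvPolynomial (Fin m) ℤ) (A : Fin N → Fin m → Fin n → Fin n → MvPolynomial (Fin m) ℤ)
      (Z W : Fin N → Matrix (Fin n) (Fin n) (MvPowerSeries (Fin m) ℚ)) (a : Fin N → Fin m → ℤ),
    (∀ j, GBaseU (N := 1) q B (T j) (fun _ => A j) (fun _ => Z j) (fun _ => W j)) →
    (∀ j i, |a j i| ≤ h) → (∀ j, line (a j) (toMv (T j)) ≠ 0) →
    (∀ X : Fin N → Mn n ℂ, (∀ j, X j ∈ spS J) → ∀ β,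
      InfT (part b (fun j => lineM (a j) (Z j)) β) (fun j => if b j = β then (C j)⁻¹ * X j * C j else 0)) →
    ∃ p : Pt 1 n N, OKX q' E J C p ∧ (∀ j, p.Z 0 j = lineM (a j) (Z j)) ∧ ∀ j, p.b 0 j = b j := by
  classical
  obtain ⟨q', E₀, hbase⟩ := base_sysU m n 1 q
  obtain ⟨e₁, he₁⟩ := pow_absorb (c := (2 : ℝ) * (1 + 2 ^ m)) (by
    have : (1 : ℝ) ≤ 2 ^ m := one_le_pow₀ (by norm_num)
    linarith)
  refine ⟨q', e₁ + E₀ + 1, fun E B h w b₀ hB hbig J C b hb hsep T A Z W a hF ha hTa hI => ?_⟩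
  set x : ℝ := 2 * B * ((h : ℝ) + w + 2) with hx
  have hh0 : (0 : ℝ) ≤ h := by positivity
  have hw0 : (0 : ℝ) ≤ w := by positivity
  have hx1 : (h : ℝ) + w + 2 ≤ x := by
    rw [hx]
    nlinarith
  have hx2 : 2 ≤ x := by linarith
  have hx3 : B * ((h : ℝ) + 2) ≤ x := by
    rw [hx]
    nlinarith
  have hx4 : 2 * B * ((h : ℝ) + 2) ≤ x := by
    rw [hx]
    nlinarith
  have hbig' : (2 * (2 * B * ((h : ℝ) + 2)) ^ E₀ * ((w : ℝ) + 2 ^ m * (B * ((h : ℝ) + 2)) + 2)) ^ E ≤ (b₀ : ℝ) := by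
    refine le_trans ?_ hbig
    rw [pow_mul]
    refine pow_le_pow_left₀ (by positivity) ?_ E
    have h1 : (2 * B * ((h : ℝ) + 2)) ^ E₀ ≤ x ^ E₀ := pow_le_pow_left₀ (by positivity) hx4 _
    have h2 : (w : ℝ) + 2 ^ m * (B * ((h : ℝ) + 2)) + 2 ≤ (1 + 2 ^ m) * x := by
      have h3 : (2 : ℝ) ^ m * (B * ((h : ℝ) + 2)) ≤ 2 ^ m * x := mul_le_mul_of_nonneg_left hx3 (by positivity)
      linarith
    calc 2 * (2 * B * ((h : ℝ) + 2)) ^ E₀ * ((w : ℝ) + 2 ^ m * (B * ((h : ℝ) + 2)) + 2) ≤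
        2 * x ^ E₀ * ((1 + 2 ^ m) * x) := by
          refine mul_le_mul (by linarith) h2 (by positivity) (by positivity)
      _ = (2 * (1 + 2 ^ m)) * (x ^ E₀ * x) := by ring
      _ ≤ x ^ e₁ * (x ^ E₀ * x) := mul_le_mul_of_nonneg_right (he₁ x hx2) (by positivity)
      _ = x ^ (e₁ + E₀ + 1) := by ring
  have h1 : ∀ j, ∃ (T' : Polynomial ℤ) (B' : Fin n → Fin n → Polynomial ℤ), T' ≠ 0 ∧
      Sys (N := 1) q' ((2 * B * ((h : ℝ) + 2)) ^ E₀) T' (fun _ => B')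
        (fun _ => lineM (a j) (Z j)) (fun _ => lineM (a j) (W j)) := by
    intro j
    obtain ⟨T', B', hT', hS'⟩ := hbase B (T j) (fun _ => A j) (fun _ => Z j) (fun _ => W j) (hF j) h
      (fun _ => a j) (fun _ => ha j) (fun _ => hTa j)
    have h2 : B' = fun _ => B' 0 := funext fun i => by rw [Subsingleton.elim i 0]
    rw [h2] at hS'
    exact ⟨T', B' 0, hT', hS'⟩
  choose T' B' hT' hS' using h1
  refine ⟨⟨(2 * B * ((h : ℝ) + 2)) ^ E₀, fun _ => T', fun _ => B', fun _ j => lineM (a j) (Z j),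
    fun _ j => lineM (a j) (W j), 2 ^ m * (B * ((h : ℝ) + 2)), w, b₀, fun _ => b⟩, ⟨one_le_pow₀ (by nlinarith),
    fun _ => hS', fun _ => hT', by positivity, fun _ j a' b' => ?_, fun _ => hb,
    fun l j l' j' hne => ?_, hbig', fun _ => hI⟩, fun j => rfl, fun j => rfl⟩
  · exact cx_mem (by positivity) (line_size hB ((hF j).size 0 a' b') (ha j))
  · refine lt_of_eq_of_lt ?_ ((hsep j j').resolve_left fun h2 => hne ⟨Subsingleton.elim _ _, h2⟩)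
    show 2 * (2 ^ m * (B * ((h : ℝ) + 2))) = 2 ^ (m + 1) * B * ((h : ℝ) + 2)
    ring

/-- a tuple of fibres, with a subtorsor through the period matrix -/
structure Tup (m N g r₀ : ℕ) where
  b : Fin N → ℕ
  C : Fin N → Mn (2 * g) ℂ
  C₀ : Matrix (Fin r₀) (Fin r₀) ℂ
  T : Fin N → MvPolynomial (Fin m) ℤ
  A : Fin N → Fin m → Fin (2 * g) → Fin (2 * g) → MvPolynomial (Fin m) ℤ
  Z : Fin N → Matrix (Fin (2 * g)) (Fin (2 * g)) (MvPowerSeries (Fin m) ℚ)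
  W : Fin N → Matrix (Fin (2 * g)) (Fin (2 * g)) (MvPowerSeries (Fin m) ℚ)
  a : Fin N → Fin m → ℤ
  K : Subfield ℂ
  S : Set (Matrix (Ix r₀ (2 * g) N) (Ix r₀ (2 * g) N) ℂ)

/-- the conditions -/
structure Tup.OK (θ : ℂ) (q D : ℕ) (B : ℝ) (h w b₀ : ℕ) (H : Matrix (Fin (2 * g)) (Fin (2 * g)) ℚ)
    (t : Tup m N g r₀) : Prop where
  skew : Hᵀ = -H
  hd : IsUnit H.det
  b_mem : ∀ j, b₀ ≤ t.b j ∧ t.b j ≤ b₀ + w
  sep : ∀ i j, t.b i = t.b j ∨ Far m B h (t.b i) (t.b j)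
  ctr : ∀ i, Ctr θ D H (t.C i)
  spc : ∀ i, SpecialC D H (t.C i)
  c0 : t.C₀.det ≠ 0
  base : ∀ j, GBaseU (N := 1) q B (t.T j) (fun _ => t.A j) (fun _ => t.Z j) (fun _ => t.W j)
  ha : ∀ j i, |t.a j i| ≤ h
  line : ∀ j, line (t.a j) (toMv (t.T j)) ≠ 0
  inf : ∀ X : Fin N → Mn (2 * g) ℂ, (∀ j, X j ∈ spS (cm H⁻¹)) → ∀ β,
    InfT (part t.b (fun j => lineM (t.a j) (t.Z j)) β) (fun j => if t.b j = β then (t.C j)⁻¹ * X j * t.C j else 0)
  fd : FiniteDimensional ℚ t.K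
  deg : finrank ℚ t.K ≤ D
  tor : IsSubtorsor t.K t.S
  rat : RatGrp t.S
  mem : Tot t.C₀ (fun j => t.C j * Hv (lineM (t.a j) (t.Z j)) (t.b j)) ∈ t.S
  pres : ∀ j, ∃ (A : AbVar g) (R : Matrix (Fin (2 * g)) (Fin (2 * g)) ℚ),
    Pres A H (t.C j * Hv (lineM (t.a j) (t.Z j)) (t.b j)) R

/-- **The theorem.** -/
theorem fin (hg : 2 ≤ g) {θ : ℂ} (hθ : θ ≠ 0) (m N r₀ q D e : ℕ) : ∃ E : ℕ, ∀ (B : ℝ) (h w b₀ : ℕ), 1 ≤ B →
    (2 * B * ((h : ℝ) + w + 2)) ^ E ≤ (b₀ : ℝ) → ∀ (H : Matrix (Fin (2 * g)) (Fin (2 * g)) ℚ) (t : Tup m N g r₀),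
    t.OK θ q D B h w b₀ H → (∀ j, ∀ X ∈ spS (cm H⁻¹), ∃ e, Tot e (Pi.single j X) ∈ Lm t.S) ∧
      ((∃ (s : ℕ) (β : Fin s → ℂ), LkA g e β t.C₀) → ∀ j, ∀ X ∈ spS (cm H⁻¹), ib (r₀ := r₀) j X ∈ Lm t.S) := by
  obtain ⟨q', c, hqc⟩ := pt_ofX N m (2 * g) q
  obtain ⟨E, hE⟩ := uni hg hθ N r₀ q' D e
  refine ⟨c * E, fun B h w b₀ hB hbig H t ht => ?_⟩
  obtain ⟨p, hp, hpZ, hpb⟩ := hqc E B h w b₀ hB hbig (cm H⁻¹) t.C t.b ht.b_mem ht.sep t.T t.A t.Z t.W t.a ht.base ht.ha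
    ht.line ht.inf
  exact hE ⟨H, t.C, t.C₀, p, t.K, t.S⟩ ⟨ht.skew, ht.hd, ht.ctr, ht.spc, ht.c0, hp, ht.fd, ht.deg, ht.tor, ht.rat,
    by simp only [hpZ, hpb]; exact ht.mem, fun j => by simp only [hpZ, hpb]; exact ht.pres j⟩

end Pool.Agent.H936.X
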