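import Pool.Agent.H936.X.Ult
import Pool.Agent.H936.W.Ult

/-!
# The core theorem in the ultrapower, for spaces of matrices
-/

set_option autoImplicit false
set_option linter.unusedSectionVars false
set_option linter.unusedVariables false

open Matrix Module Filter

namespace Pool.Agent.H936.X

open Pool.Agent.Helper880_LF (om om_add_left om_add_right om_smul_left om_smul_right om_zero_left om_zero_right pr spS
  mem_spS comm_mem)
open Pool.Agent.Helper880_LF.NB (gm gm_mul gm_add gm_sub gm_smul gm_zero gm_one gm_ev gm_eq gm_surj gm_neg gm_unit gm_apply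
  gm_transpose gm_kt kt kt_apply dm dm_mul dm_smul Lst mem_Lst normL rank_le)
open Pool.Agent.Helper880_R3 (Ix ib ib_apply ib_inj ib_mul Tot GU mem_GU finrank_GU gm_fb gm_ib dm_fb)
open Pool.Agent.Y118.UL (mk mk_eq mk_eq_zero mk_ne_zero mk_surj ev_ge U)
open Pool.Agent.Y119.HY (cm cm_apply cm_mul cm_one cm_transpose cm_zero cm_add cm_neg)
open Pool.Agent.H936.SL (Mn GS Pj TN Lm gm_Tot tr_gm dm_Tot Lst_br Tot_mul' finrank_spS_ge)
open Pool.Agent.H936.G (DD dm_addD dm_smulD ld ld_apply cjg cjg_apply Xd Tot_inv2 ld_mul nrmS mem_nrmS nrmS_dim L0 L0_rlie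
  RLie Spc upS mem_upS upS_dim)
open Pool.Agent.H936.V (gm_spS gm_skew gm_GS TN_gm ne_gm ld_Tot Cen JJ JJ_skew JJ_det TN_GUs nrm_L0 Ag der_ag gens evs ld_scale Bd)
open Pool.Agent.H885 (GUs mem_GUs)
open Pool.Agent.H936.W (Lw mem_Lw Lw_br normW Sp)

variable {n r₀ M : ℕ}

/-- the projections in the ultrapower -/
theorem gm_PjW {J : ℕ → Matrix (Fin n) (Fin n) ℂ} {V : ℕ → Submodule ℂ (Matrix (Ix r₀ n M) (Ix r₀ n M) ℂ)} {j : Fin M}
    {X : ℕ → Matrix (Fin n) (Fin n) ℂ} : gm X ∈ Pj (gm J) (Lw V) j ↔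
      ∀ᶠ k in (hyperfilter ℕ : Filter ℕ), X k ∈ Pj (J k) (V k) j := by
  classical
  constructor
  · rintro ⟨h0, e, y, c, h1, h2, h3⟩
    obtain ⟨e, rfl⟩ := gm_surj e
    obtain ⟨c, rfl⟩ := mk_surj c
    choose y' hy' using fun i => gm_surj (y i)
    have hy : y = fun i => gm fun k => y' i k := funext fun i => (hy' i).symm
    subst hy
    have e1 : gm (fun k => Tot (e k) fun i => y' i k) = Tot (gm e) fun i => gm fun k => y' i k :=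
      gm_Tot e fun k i => y' i k
    rw [← e1, mem_Lw] at h1
    have e2 : ∀ᶠ k in (hyperfilter ℕ : Filter ℕ), ∀ i, GS (J k) (y' i k) := Filter.eventually_all.2 fun i => gm_GS.1 (h2 i)
    have e3 : gm (fun k => y' j k) = gm fun k => X k + c k • (1 : Mn n ℂ) := by
      rw [gm_add, gm_smul, gm_one]
      exact h3
    filter_upwards [gm_spS.1 h0, h1, e2, gm_eq e3] with k k0 k1 k2 k3
    exact ⟨k0, e k, fun i => y' i k, c k, k1, k2, k3⟩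
  · intro h
    have h1 : ∀ k, ∃ (e : Matrix (Fin r₀) (Fin r₀) ℂ) (y : Fin M → Mn n ℂ) (c : ℂ), X k ∈ Pj (J k) (V k) j →
        (Tot e y ∈ V k ∧ (∀ i, GS (J k) (y i)) ∧ y j = X k + c • (1 : Mn n ℂ)) := by
      intro k
      by_cases hk : X k ∈ Pj (J k) (V k) j
      · obtain ⟨-, e, y, c, k1, k2, k3⟩ := hk
        exact ⟨e, y, c, fun _ => ⟨k1, k2, k3⟩⟩
      · exact ⟨0, fun _ => 0, 0, fun h => absurd h hk⟩
    choose e y c hh using h1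
    refine ⟨gm_spS.2 (h.mono fun k hk => hk.1), gm e, fun i => gm fun k => y k i, mk ℂ c, ?_, fun i => ?_, ?_⟩
    · rw [← gm_Tot, mem_Lw]
      exact h.mono fun k hk => (hh k hk).1
    · exact gm_GS.2 (h.mono fun k hk => (hh k hk).2.1 i)
    · rw [← gm_one, ← gm_smul, ← gm_add, gm_ev]
      exact h.mono fun k hk => (hh k hk).2.2

/-- nondegenerate trace forms -/
theorem TN_gmW {J : ℕ → Matrix (Fin n) (Fin n) ℂ} {V : ℕ → Submodule ℂ (Matrix (Ix r₀ n M) (Ix r₀ n M) ℂ)} {j : Fin M}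
    (h : ∀ k, TN (Pj (J k) (V k) j)) : TN (Pj (gm J) (Lw V) j) := by
  classical
  intro X hX htr
  obtain ⟨X, rfl⟩ := gm_surj X
  by_contra hne
  have h0 : ∀ᶠ k in (hyperfilter ℕ : Filter ℕ), X k ≠ 0 := by
    by_contra hcon
    rw [← Ultrafilter.eventually_not] at hcon
    apply hne
    rw [← gm_zero, gm_ev]
    exact hcon.mono fun k hk => not_not.1 hk
  have h1 := gm_PjW.1 hX
  have h2 : ∀ k, ∃ Y, (X k ≠ 0 ∧ X k ∈ Pj (J k) (V k) j) →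
      (Y ∈ Pj (J k) (V k) j ∧ Matrix.trace (X k * Y) ≠ 0) := by
    intro k
    by_cases hk : X k ≠ 0 ∧ X k ∈ Pj (J k) (V k) j
    · have h3 := h k (X k) hk.2
      by_contra hcon
      push Not at hcon
      refine hk.1 (h3 fun Y hY => ?_)
      exact (hcon Y).2 hY
    · exact ⟨0, fun h => absurd h hk⟩
  choose Y hY using h2
  have h3 := htr (gm Y) (gm_PjW.2 ((h0.and h1).mono fun k hk => (hY k hk).1))
  rw [← gm_mul, tr_gm, mk_eq_zero] at h3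
  obtain ⟨k, hk1, hk2⟩ := ((h0.and h1).and h3).exists
  exact (hY k hk1).2 hk2

theorem ne_gmW {J : ℕ → Matrix (Fin n) (Fin n) ℂ} {V : ℕ → Submodule ℂ (Matrix (Ix r₀ n M) (Ix r₀ n M) ℂ)} {j : Fin M}
    (h : ∀ k, Pj (J k) (V k) j ≠ ⊥) : Pj (gm J) (Lw V) j ≠ ⊥ := by
  choose X hX hX0 using fun k => Submodule.exists_mem_ne_zero_of_ne_bot (h k)
  intro hcon
  have h1 : gm X ∈ Pj (gm J) (Lw V) j := gm_PjW.2 (Filter.Eventually.of_forall hX)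
  rw [hcon, Submodule.mem_bot, ← gm_zero] at h1
  obtain ⟨k, hk⟩ := (gm_eq h1).exists
  exact hX0 k hk

/-- back to the components -/
theorem back1W {J : ℕ → Mn n ℂ} {V : ℕ → Submodule ℂ (Matrix (Ix r₀ n M) (Ix r₀ n M) ℂ)} {i : Fin M}
    (h : ∀ Y ∈ spS (gm J), ib (r₀ := r₀) i Y ∈ Lw V) :
    ∀ᶠ k in (hyperfilter ℕ : Filter ℕ), ∀ X ∈ spS (J k), ib (r₀ := r₀) i X ∈ V k := by
  classical
  by_contra hcon
  rw [← Ultrafilter.eventually_not] at hcon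
  have h1 : ∀ k, ∃ X ∈ spS (J k), (¬ ∀ X ∈ spS (J k), ib (r₀ := r₀) i X ∈ V k) → ib (r₀ := r₀) i X ∉ V k := by
    intro k
    by_cases hk : ∀ X ∈ spS (J k), ib (r₀ := r₀) i X ∈ V k
    · exact ⟨0, (spS (J k)).zero_mem, fun h => absurd hk h⟩
    · have hk' := hk
      push Not at hk'
      obtain ⟨Y, h1, h2⟩ := hk'
      exact ⟨Y, h1, fun _ => h2⟩
  choose X hX1 hX2 using h1
  have h3 : ib i (gm X) ∈ Lw V := h _ (gm_spS.2 (Filter.Eventually.of_forall hX1))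
  rw [← gm_ib] at h3
  have h5 := mem_Lw.1 h3
  obtain ⟨k, hk1, hk2⟩ := (h5.and hcon).exists
  exact hX2 k hk2 hk1

section
variable {J : ℕ → Mn n ℂ} {Cs : Fin M → ℕ → Mn n ℂ} {z : ℕ → Fin M → Mn n ℂ} {C₀ : ℕ → Matrix (Fin r₀) (Fin r₀) ℂ}
    {𝔩 : Fin M → Submodule (U ℂ) (Mn n (U ℂ))} {K : ℕ → Subfield ℂ} {d : ℕ}
    {V : ℕ → Submodule ℂ (Matrix (Ix r₀ n M) (Ix r₀ n M) ℂ)}

theorem ch_ofW (cu : ∀ i k, (Cs i k).det ≠ 0) (zu : ∀ k i, (z k i).det ≠ 0) (hC₀ : ∀ k, (C₀ k).det ≠ 0)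
    (le : ∀ i, 𝔩 i ≤ spS (gm J)) (tn : ∀ i, TN (𝔩 i)) (nb : ∀ i, 𝔩 i ≠ ⊥)
    (nt : ∀ i, 𝔩 i ≠ spS (gm J)) (fc : ∀ i (δ : DD), ∃ c : U ℂ, ld (Cs i) δ + c • (1 : Mn n (U ℂ)) ∈ nrmS (gm J) (𝔩 i))
    (hK : ∀ k, FiniteDimensional ℚ (K k)) (hD : ∀ k, finrank ℚ (K k) ≤ d)
    (hV : ∀ k, Sp (K k) (J k) (Tot (C₀ k) fun i => Cs i k * z k i) (V k)) :
    Ch (gm J) (𝒟 := DsX J Cs z) (fun i => Xd (Cs i) z i ∘ₗ (DsX J Cs z).subtype)
      (fun i => ld (Cs i) ∘ₗ (DsX J Cs z).subtype) (ld C₀ ∘ₗ (DsX J Cs z).subtype) 𝔩 (Lw V) := by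
  refine ⟨Lw_br fun k => (hV k).br, fun i d => d.2 i, fun d w hw => ?_, le, tn, nb, nt, fun i d => fc i d⟩
  have h3 := normW hK hD (fun k => (hV k).unit) (fun k => (hV k).rat) (fun k => (hV k).kdf) (d : DD) hw
  have h4 : ld (fun k => Tot (C₀ k) fun i => Cs i k * z k i) (d : DD) =
      Tot (ld C₀ (d : DD)) (fun i => ld (Cs i) (d : DD) + Xd (Cs i) z i (d : DD)) := by
    have h5 := ld_Tot (C₀ := C₀) hC₀ (y := fun k i => Cs i k * z k i) (fun k i => by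
      rw [Matrix.det_mul]
      exact mul_ne_zero (cu i k) (zu k _)) (d : DD)
    refine h5.trans ?_
    congr 1
    funext i
    exact ld_mul (cu i) (fun k => zu k i) _
  rw [h4] at h3
  exact h3

/-- **the core theorem in the ultrapower**, few additional periods -/
theorem core_ultW (hn : 3 ≤ n) (skew : ∀ k, (J k)ᵀ = -J k) (det : ∀ k, (J k).det ≠ 0)
    (cu : ∀ i k, (Cs i k).det ≠ 0) (zu : ∀ k i, (z k i).det ≠ 0) (hC₀ : ∀ k, (C₀ k).det ≠ 0)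
    (le : ∀ i, 𝔩 i ≤ spS (gm J)) (tn : ∀ i, TN (𝔩 i)) (nb : ∀ i, 𝔩 i ≠ ⊥)
    (nt : ∀ i, 𝔩 i ≠ spS (gm J)) (fc : ∀ i (δ : DD), ∃ c : U ℂ, ld (Cs i) δ + c • (1 : Mn n (U ℂ)) ∈ nrmS (gm J) (𝔩 i))
    {j : Fin M} (surj : ∀ Y ∈ spS (gm J), ∃ δ : DD, Xd (Cs j) z j δ = Y ∧ ∀ i, i ≠ j → Xd (Cs i) z i δ = 0)
    (hK : ∀ k, FiniteDimensional ℚ (K k)) (hD : ∀ k, finrank ℚ (K k) ≤ d)
    (hV : ∀ k, Sp (K k) (J k) (Tot (C₀ k) fun i => Cs i k * z k i) (V k)) (hfew : FewX J (Cs j) C₀) :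
    ∀ᶠ k in (hyperfilter ℕ : Filter ℕ), ∀ X ∈ spS (J k), ib (r₀ := r₀) j X ∈ V k := by
  obtain ⟨V', _, _, _, Φ, 𝔊, hG, hV', hΦ⟩ := hfew
  exact back1W ((ch_ofW cu zu hC₀ le tn nb nt fc hK hD hV).core (gm_skew skew) (gm_unit det) hn (surj_of surj)
    (TN_gmW fun k => (hV k).tn j) (ne_gmW fun k => (hV k).ne j) (Φ ∘ₗ (DsX J Cs z).subtype) hG hV' fun d hd => hΦ d hd)

end

end Pool.Agent.H936.X
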