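import Pool.Agent.H936.X.Fin
import Pool.Agent.H936.X.UltV
import Pool.Agent.H936.V.Ag

/-!
# The theorem on fibres near different special fibres, for spaces of matrices
-/

set_option autoImplicit false
set_option linter.unusedSectionVars false
set_option linter.unusedVariables false

open Matrix Module Filter PowerSeries

namespace Pool.Agent.H936.X

open Pool.Agent.Y118.HV (Hv hh)
open Pool.Agent.Helper880_LF (om pr spS mem_spS comm_mem)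
open Pool.Agent.Helper880_R3 (Ix ib Tot)
open Pool.Agent.Y118.UL (mk mk_eq mk_eq_zero mk_ne_zero mk_surj ev_ge rep U)
open Pool.Agent.Y119.HY (cm cm_apply cm_mul cm_one cm_transpose cm_zero cm_add cm_neg cm_pow)
open Pool.Agent.TH127.PT (IsSubtorsor)
open Pool.Agent.Y102 (AbVar QBar)
open Pool.Agent.H936.SL (Mn GS Pj TN Lm RatGrp Pres Lev)
open Pool.Agent.H936.G (DD ld ld_apply cjg cjg_apply Xd Fu mkLev Spc nrmS)
open Pool.Agent.H936.V (gm_spS gm_skew Pt Cen JJ JJ_skew JJ_det Ag gens Bd Ctr SpecialC Far ag_rat ag_zero)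
open Pool.Agent.H885 (Sys InfT part GBaseU line lineM toMv)
open Pool.Agent.H936.W (Sp)

variable {n N g m : ℕ}

/-- the torsor of all invertible matrices -/
theorem units_tor {B : Type} [Fintype B] [DecidableEq B] (K : Subfield ℂ) :
    IsSubtorsor K {x : Matrix B B ℂ | IsUnit x} := by
  refine Pool.Agent.Y123.ST.subT_iff.1 ⟨fun x hx y hy z hz => ?_, ∅, fun x => ?_⟩
  · exact (IsUnit.mul (IsUnit.mul hx (Pool.Agent.H936.V.inv_unit hy)) hz)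
  · constructor
    · intro hx
      exact ⟨hx, fun p hp => absurd hp (Set.notMem_empty p)⟩
    · rintro ⟨hx, -⟩
      exact hx

theorem units_rat {B : Type} [Fintype B] [DecidableEq B] : RatGrp {x : Matrix B B ℂ | IsUnit x} := by
  intro σ x hx y hy
  refine ⟨(x * y⁻¹).map σ, ?_, 1, isUnit_one, by rw [inv_one, Matrix.mul_one]⟩
  exact (IsUnit.mul hx (Pool.Agent.H936.V.inv_unit hy)).map (σ : ℂ →+* ℂ).mapMatrix

/-- the data -/
structure DatV (N g : ℕ) where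
  H : Matrix (Fin (2 * g)) (Fin (2 * g)) ℚ
  C : Fin N → Mn (2 * g) ℂ
  pt : Pt 1 (2 * g) N
  K : Subfield ℂ
  V : Submodule ℂ (Matrix (Ix 1 (2 * g) N) (Ix 1 (2 * g) N) ℂ)

/-- the conditions -/
structure DatV.OK (θ : ℂ) (q D E : ℕ) (d : DatV N g) : Prop where
  skew : d.Hᵀ = -d.H
  hd : IsUnit d.H.det
  ctr : ∀ i, Ctr θ D d.H (d.C i)
  spc : ∀ i, SpecialC D d.H (d.C i)
  pt : OKX q E (cm (d.H)⁻¹) d.C d.pt
  fd : FiniteDimensional ℚ d.K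
  deg : finrank ℚ d.K ≤ D
  sp : Sp d.K (cm (d.H)⁻¹) (Tot (θ • (1 : Matrix (Fin 1) (Fin 1) ℂ)) fun j => d.C j * Hv (d.pt.Z 0 j) (d.pt.b 0 j)) d.V
  pres : ∀ j, ∃ (A : AbVar g) (R : Matrix (Fin (2 * g)) (Fin (2 * g)) ℚ),
    Pres A d.H (d.C j * Hv (d.pt.Z 0 j) (d.pt.b 0 j)) R

/-- the data without the space -/
noncomputable def DatV.dat (θ : ℂ) (d : DatV N g) : Dat N g 1 :=
  ⟨d.H, d.C, θ • 1, d.pt, d.K, {x | IsUnit x}⟩

theorem DatV.OK.dat {θ : ℂ} (hθ : θ ≠ 0) {q D E : ℕ} {d : DatV N g} (h : d.OK θ q D E) : (d.dat θ).OK θ q D E where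
  skew := h.skew
  hd := h.hd
  ctr := h.ctr
  spc := h.spc
  c0 := by
    show (θ • (1 : Matrix (Fin 1) (Fin 1) ℂ)).det ≠ 0
    rw [Matrix.det_smul, Matrix.det_one, mul_one]
    exact pow_ne_zero _ hθ
  pt := h.pt
  fd := h.fd
  deg := h.deg
  tor := units_tor _
  rat := units_rat
  mem := (Matrix.isUnit_iff_isUnit_det _).2 h.sp.unit.isUnit
  pres := h.pres

/-- **all the spaces** -/
theorem uniV (hg : 2 ≤ g) {θ : ℂ} (hθ : θ ≠ 0) (q D : ℕ) (j : Fin N) : ∃ E : ℕ, ∀ d : DatV N g, d.OK θ q D E →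
    ∀ X ∈ spS (cm (d.H)⁻¹), ib (r₀ := 1) j X ∈ d.V := by
  by_contra hcon
  rw [not_exists] at hcon
  simp only [not_forall] at hcon
  choose d h X hX hbad using hcon
  have h' : ∀ k, ((d k).dat θ).OK θ q D k := fun k => (h k).dat hθ
  obtain ⟨𝔩, le, tn, nb, nt, fc⟩ := lie_seq hg hθ h'
  have hκ : ∀ k, LkA g 1 (Fin.elim0 : Fin 0 → ℂ) ((fun k => ((d k).dat θ).C₀) k) := by
    intro k
    refine ⟨by omega, θ⁻¹, inv_ne_zero hθ, fun i i' => ?_⟩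
    show Ag 1 _ (θ⁻¹ * (θ • (1 : Matrix (Fin 1) (Fin 1) ℂ)) i i')
    rw [Subsingleton.elim i i', Matrix.smul_apply, Matrix.one_apply_eq, smul_eq_mul, mul_one, inv_mul_cancel₀ hθ]
    have h1 := ag_rat 1 (Fin.elim0 : Fin 0 → ℂ)
    rwa [Rat.cast_one] at h1
  have hj := core_ultW (Cs := fun i k => ((d k).dat θ).C i) (z := fun k => ((d k).dat θ).z) (by omega)
    (JJ_skew fun k => (h' k).skew) (JJ_det fun k => (h' k).hd) (fun i k => ((h' k).ctr i).cd.ne_zero)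
    (fun k i => (h' k).zdet i) (C₀ := fun k => ((d k).dat θ).C₀) (fun k => (h' k).c0) le tn nb nt fc (surj_seq h' j)
    (fun k => (h' k).fd) (fun k => (h' k).deg) (fun k => (h k).sp)
    (fewA hg (cen_of hθ h' j) (fun k => (h' k).c0) hκ (le j) (nb j) (nt j) (fc j))
  obtain ⟨k, hk⟩ := hj.exists
  exact hbad k (hk _ (hX k))

theorem DatV.OK.mono {θ : ℂ} {q D E E' : ℕ} {d : DatV N g} (h : d.OK θ q D E') (hE : E ≤ E') : d.OK θ q D E :=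
  ⟨h.skew, h.hd, h.ctr, h.spc, h.pt.mono hE, h.fd, h.deg, h.sp, h.pres⟩

theorem uniVall (hg : 2 ≤ g) {θ : ℂ} (hθ : θ ≠ 0) (N q D : ℕ) : ∃ E : ℕ, ∀ d : DatV N g, d.OK θ q D E →
    ∀ j, ∀ X ∈ spS (cm (d.H)⁻¹), ib (r₀ := 1) j X ∈ d.V := by
  choose E hE using fun (j : Fin N) => uniV hg hθ q D j
  refine ⟨∑ j, E j, fun d hd j => hE j d (hd.mono ?_)⟩
  exact Finset.single_le_sum (f := E) (fun _ _ => Nat.zero_le _) (Finset.mem_univ j)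

/-- a tuple of fibres, with a space of matrices -/
structure TupV (m N g : ℕ) where
  b : Fin N → ℕ
  C : Fin N → Mn (2 * g) ℂ
  T : Fin N → MvPolynomial (Fin m) ℤ
  A : Fin N → Fin m → Fin (2 * g) → Fin (2 * g) → MvPolynomial (Fin m) ℤ
  Z : Fin N → Matrix (Fin (2 * g)) (Fin (2 * g)) (MvPowerSeries (Fin m) ℚ)
  W : Fin N → Matrix (Fin (2 * g)) (Fin (2 * g)) (MvPowerSeries (Fin m) ℚ)
  a : Fin N → Fin m → ℤ
  K : Subfield ℂ
  V : Submodule ℂ (Matrix (Ix 1 (2 * g) N) (Ix 1 (2 * g) N) ℂ)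

/-- the conditions -/
structure TupV.OK (θ : ℂ) (q D : ℕ) (B : ℝ) (h w b₀ : ℕ) (H : Matrix (Fin (2 * g)) (Fin (2 * g)) ℚ)
    (t : TupV m N g) : Prop where
  skew : Hᵀ = -H
  hd : IsUnit H.det
  b_mem : ∀ j, b₀ ≤ t.b j ∧ t.b j ≤ b₀ + w
  sep : ∀ i j, t.b i = t.b j ∨ Far m B h (t.b i) (t.b j)
  ctr : ∀ i, Ctr θ D H (t.C i)
  spc : ∀ i, SpecialC D H (t.C i)
  base : ∀ j, GBaseU (N := 1) q B (t.T j) (fun _ => t.A j) (fun _ => t.Z j) (fun _ => t.W j)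
  ha : ∀ j i, |t.a j i| ≤ h
  line : ∀ j, line (t.a j) (toMv (t.T j)) ≠ 0
  inf : ∀ X : Fin N → Mn (2 * g) ℂ, (∀ j, X j ∈ spS (cm H⁻¹)) → ∀ β,
    InfT (part t.b (fun j => lineM (t.a j) (t.Z j)) β) (fun j => if t.b j = β then (t.C j)⁻¹ * X j * t.C j else 0)
  fd : FiniteDimensional ℚ t.K
  deg : finrank ℚ t.K ≤ D
  sp : Sp t.K (cm H⁻¹) (Tot (θ • (1 : Matrix (Fin 1) (Fin 1) ℂ)) fun j => t.C j * Hv (lineM (t.a j) (t.Z j)) (t.b j)) t.V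
  pres : ∀ j, ∃ (A : AbVar g) (R : Matrix (Fin (2 * g)) (Fin (2 * g)) ℚ),
    Pres A H (t.C j * Hv (lineM (t.a j) (t.Z j)) (t.b j)) R

/-- **The theorem.** -/
theorem finV (hg : 2 ≤ g) {θ : ℂ} (hθ : θ ≠ 0) (m N q D : ℕ) : ∃ E : ℕ, ∀ (B : ℝ) (h w b₀ : ℕ), 1 ≤ B →
    (2 * B * ((h : ℝ) + w + 2)) ^ E ≤ (b₀ : ℝ) → ∀ (H : Matrix (Fin (2 * g)) (Fin (2 * g)) ℚ) (t : TupV m N g),
    t.OK θ q D B h w b₀ H → ∀ j, ∀ X ∈ spS (cm H⁻¹), ib (r₀ := 1) j X ∈ t.V := by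
  obtain ⟨q', c, hqc⟩ := pt_ofX N m (2 * g) q
  obtain ⟨E, hE⟩ := uniVall hg hθ N q' D
  refine ⟨c * E, fun B h w b₀ hB hbig H t ht => ?_⟩
  obtain ⟨p, hp, hpZ, hpb⟩ := hqc E B h w b₀ hB hbig (cm H⁻¹) t.C t.b ht.b_mem ht.sep t.T t.A t.Z t.W t.a ht.base ht.ha
    ht.line ht.inf
  exact hE ⟨H, t.C, p, t.K, t.V⟩ ⟨ht.skew, ht.hd, ht.ctr, ht.spc, hp, ht.fd, ht.deg,
    by simp only [hpZ, hpb]; exact ht.sp, fun j => by simp only [hpZ, hpb]; exact ht.pres j⟩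

end Pool.Agent.H936.X
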