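import Pool.Agent.H936.G.Core

/-!
# Isomorphisms of the symplectic Lie algebra respect the trace form up to a factor
-/

set_option autoImplicit false
set_option linter.unusedSectionVars false
set_option linter.unusedVariables false

open Matrix Module

namespace Pool.Agent.H936.X

open Pool.Agent.Helper880_LF
open Pool.Agent.Helper880_LF.NB (rank_le)
open Pool.Agent.Helper880_R3 (Ix ib ib_apply ib_inj ib_mul Tot)
open Pool.Agent.H936.SL
open Pool.Agent.H936.G (nrmS mem_nrmS nrmS_br nrmS_dim thmE)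

variable {F : Type} [Field F] {n r₀ N M : ℕ} {J : Matrix (Fin n) (Fin n) F}

/-- the trace form on the symplectic Lie algebra is nondegenerate -/
theorem TN_sp [CharZero F] (hJ : Jᵀ = -J) (hdet : IsUnit J.det) : TN (spS J) := by
  intro X hX h
  refine spS_ext hJ hdet hX (spS J).zero_mem fun c d => ?_
  rw [h _ (pr_mem hJ c d), Matrix.zero_mul, Matrix.trace_zero]

/-- the trace form of a linear map to matrices -/
def trB {V : Type} [AddCommGroup V] [Module F V] (φ : V →ₗ[F] Mn n F) : LinearMap.BilinForm F V :=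
  LinearMap.mk₂ F (fun X Y => Matrix.trace (φ X * φ Y))
    (fun X X' Y => by rw [map_add, Matrix.add_mul, Matrix.trace_add])
    (fun c X Y => by rw [map_smul, Matrix.smul_mul, Matrix.trace_smul])
    (fun X Y Y' => by rw [map_add, Matrix.mul_add, Matrix.trace_add])
    (fun c X Y => by rw [map_smul, Matrix.mul_smul, Matrix.trace_smul])

theorem trB_apply {V : Type} [AddCommGroup V] [Module F V] (φ : V →ₗ[F] Mn n F) (X Y : V) :
    trB φ X Y = Matrix.trace (φ X * φ Y) := rfl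

/-- invariance of the trace form -/
theorem tr_inv3 (x y z : Mn n F) : Matrix.trace ((x * y - y * x) * z) = -Matrix.trace (y * (x * z - z * x)) := by
  rw [Matrix.sub_mul, Matrix.mul_sub, Matrix.trace_sub, Matrix.trace_sub, Matrix.trace_mul_comm (x * y) z,
    Matrix.mul_assoc y x z, ← Matrix.mul_assoc z x y, Matrix.trace_mul_comm (z * x) y]
  ring

/-- **representations of the symplectic Lie algebra**: the trace form is a multiple of the trace form -/
theorem tr_scale [CharZero F] [IsAlgClosed F] (hJ : Jᵀ = -J) (hdet : IsUnit J.det) (φ : spS J →ₗ[F] Mn n F)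
    (hφ : ∀ (X Y : spS J), φ ⟨(X : Mn n F) * (Y : Mn n F) - (Y : Mn n F) * (X : Mn n F), comm_mem hJ X.2 Y.2⟩ = φ X * φ Y - φ Y * φ X) :
    ∃ lam : F, ∀ X Y : spS J, Matrix.trace (φ X * φ Y) = lam * Matrix.trace ((X : Mn n F) * (Y : Mn n F)) := by
  classical
  by_cases hne : Nontrivial (spS J)
  swap
  · refine ⟨0, fun X Y => ?_⟩
    rw [not_nontrivial_iff_subsingleton] at hne
    rw [Subsingleton.elim X 0, map_zero, Matrix.zero_mul, Matrix.trace_zero, zero_mul]
  set B := trB (spS J).subtype with hB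
  have hBn : B.Nondegenerate := by
    have hsymm : ∀ X Y, B X Y = B Y X := fun X Y => by
      rw [hB, trB_apply, trB_apply, Matrix.trace_mul_comm]
    have h1 : ∀ X, (∀ Y, B X Y = 0) → X = 0 := by
      intro X h
      exact Subtype.ext (TN_sp hJ hdet X X.2 fun Y hY => h ⟨Y, hY⟩)
    exact ⟨h1, fun Y h => h1 Y fun X => by rw [hsymm]; exact h X⟩
  set A : Module.End F (spS J) := (B.toDual hBn).symm.toLinearMap ∘ₗ trB φ with hA
  have hAB : ∀ X Y, B (A X) Y = trB φ X Y := fun X Y =>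
    LinearMap.BilinForm.apply_toDual_symm_apply (hB := hBn) (trB φ X) Y
  obtain ⟨lam, hlam⟩ := Module.End.exists_eigenvalue A
  obtain ⟨X₀, hX₀⟩ := hlam.exists_hasEigenvector
  refine ⟨lam, ?_⟩
  let 𝔞 : Submodule F (Mn n F) := (Module.End.eigenspace A lam).map (spS J).subtype
  have hmem : ∀ X : spS J, X ∈ Module.End.eigenspace A lam ↔
      ∀ Y : spS J, Matrix.trace (φ X * φ Y) = lam * Matrix.trace ((X : Mn n F) * (Y : Mn n F)) := by
    intro X
    rw [Module.End.mem_eigenspace_iff]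
    constructor
    · intro h Y
      have h1 := hAB X Y
      rw [h, map_smul, LinearMap.smul_apply, smul_eq_mul] at h1
      exact h1.symm
    · intro h
      have h1 : ∀ Y, B (A X - lam • X) Y = 0 := by
        intro Y
        rw [map_sub, LinearMap.sub_apply, map_smul, LinearMap.smul_apply, hAB, smul_eq_mul]
        exact sub_eq_zero.2 (h Y)
      have h2 := hBn.1 _ h1
      exact sub_eq_zero.1 h2
  have h1 : spS J ≤ 𝔞 := by
    refine simple hJ hdet (𝔞 := 𝔞) ?_ (a := (X₀ : Mn n F)) ⟨X₀, hX₀.1, rfl⟩ X₀.2 fun h => hX₀.2 (Subtype.ext h)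
    rintro x hx _ ⟨y, hy, rfl⟩
    refine ⟨⟨x * (y : Mn n F) - (y : Mn n F) * x, comm_mem hJ hx y.2⟩, ?_, rfl⟩
    rw [SetLike.mem_coe, hmem] at hy ⊢
    intro Y
    have e1 := hφ ⟨x, hx⟩ y
    have e2 := hφ ⟨x, hx⟩ Y
    have e3 := hy ⟨x * (Y : Mn n F) - (Y : Mn n F) * x, comm_mem hJ hx Y.2⟩
    show Matrix.trace (φ ⟨x * (y : Mn n F) - (y : Mn n F) * x, _⟩ * φ Y) =
      lam * Matrix.trace ((x * (y : Mn n F) - (y : Mn n F) * x) * (Y : Mn n F))
    rw [e1, tr_inv3, tr_inv3, ← e2, e3]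
    ring
  intro X Y
  obtain ⟨X', hX', hXX⟩ := h1 X.2
  have h2 : X' = X := Subtype.ext hXX
  rw [h2] at hX'
  exact (hmem X).1 hX' Y

/-- **the trace form on a part of a graph** -/
theorem graph_tn [CharZero F] [IsAlgClosed F] (hJ : Jᵀ = -J) (hdet : IsUnit J.det) {W : Type} [AddCommGroup W] [Module F W]
    (p p' : W →ₗ[F] Mn n F) (hp : LinearMap.range p = spS J) (hp' : LinearMap.range p' = spS J)
    (hker : LinearMap.ker p ≤ LinearMap.ker p')
    (hbr : ∀ w w', ∃ w'', p w'' = p w * p w' - p w' * p w ∧ p' w'' = p' w * p' w' - p' w' * p' w)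
    {𝔩 : Submodule F (Mn n F)} (tn : TN 𝔩) (hle : 𝔩 ≤ spS J) : TN ((𝔩.comap p).map p') := by
  have hpm : ∀ w, p w ∈ spS J := fun w => by rw [← hp]; exact ⟨w, rfl⟩
  have hp'm : ∀ w, p' w ∈ spS J := fun w => by rw [← hp']; exact ⟨w, rfl⟩
  obtain ⟨s, hs⟩ := LinearMap.exists_rightInverse_of_surjective (p.codRestrict (spS J) hpm) (by
    rw [LinearMap.range_eq_top]
    rintro ⟨X, hX⟩
    rw [← hp] at hX
    obtain ⟨w, hw⟩ := hX
    exact ⟨w, Subtype.ext hw⟩)
  have hs' : ∀ X : spS J, p (s X) = X := fun X => congrArg Subtype.val (LinearMap.congr_fun hs X)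
  set φ : spS J →ₗ[F] Mn n F := p' ∘ₗ s with hφ
  have hpφ : ∀ w, p' w = φ ⟨p w, hpm w⟩ := by
    intro w
    have h1 : w - s ⟨p w, hpm w⟩ ∈ LinearMap.ker p := by
      rw [LinearMap.mem_ker, map_sub, hs', sub_self]
    have h2 := hker h1
    rw [LinearMap.mem_ker, map_sub] at h2
    exact sub_eq_zero.1 h2
  obtain ⟨lam, hlam⟩ := tr_scale hJ hdet φ (by
    intro X Y
    obtain ⟨w'', h1, h2⟩ := hbr (s X) (s Y)
    rw [hs', hs'] at h1
    have h3 := hpφ w''
    have h4 : (⟨p w'', hpm w''⟩ : spS J) = ⟨(X : Mn n F) * (Y : Mn n F) - (Y : Mn n F) * (X : Mn n F), comm_mem hJ X.2 Y.2⟩ := Subtype.ext h1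
    rw [h4] at h3
    rw [← h3, h2]
    rfl)
  rintro _ ⟨w, hw, rfl⟩ htr
  have h1 : ∀ Y ∈ 𝔩, lam * Matrix.trace (p w * Y) = 0 := by
    intro Y hY
    have h2 := htr (p' (s ⟨Y, hle hY⟩)) ⟨s ⟨Y, hle hY⟩, by
      show p (s ⟨Y, hle hY⟩) ∈ 𝔩
      rw [hs']
      exact hY, rfl⟩
    rw [hpφ w, hpφ (s ⟨Y, hle hY⟩), hlam] at h2
    simp only [hs'] at h2
    exact h2
  by_cases hl : lam = 0
  · refine TN_sp hJ hdet _ (hp'm w) fun Y hY => ?_
    rw [← hp'] at hY
    obtain ⟨w', rfl⟩ := hY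
    rw [hpφ w, hpφ w', hlam, hl, zero_mul]
  · have h2 : p w = 0 := tn _ hw fun Y hY => (mul_eq_zero.1 (h1 Y hY)).resolve_left hl
    exact hker (LinearMap.mem_ker.2 h2)

end Pool.Agent.H936.X
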