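import Pool.Agent.H936.X.Ult

/-!
# Uniform sequences of points near different centres
-/

set_option autoImplicit false
set_option linter.unusedSectionVars false
set_option linter.unusedVariables false

open Matrix Module Filter PowerSeries

namespace Pool.Agent.H936.X

open Pool.Agent.Y113 (ev Cv GSys ps)
open Pool.Agent.Y118.HV (Hv hh)
open Pool.Agent.Y120.GH (cx cx_mem Cw sf ou_shift ou_ev)
open Pool.Agent.Helper880_LF (om pr spS mem_spS comm_mem)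
open Pool.Agent.Helper880_LF.NB (gm gm_mul gm_add gm_sub gm_smul gm_zero gm_one gm_ev gm_eq gm_surj gm_neg gm_unit gm_apply
  gm_transpose gm_kt kt kt_apply dm dm_mul dm_smul dm_transpose Lst mem_Lst normL rank_le kerD mem_kerD ker_alg)
open Pool.Agent.Helper880_R3 (Ix ib Tot)
open Pool.Agent.Y118.UL (mk mk_eq mk_eq_zero mk_ne_zero mk_surj ev_ge rep U)
open Pool.Agent.Y119.HY (cm cm_apply cm_mul cm_one cm_transpose cm_zero cm_add cm_neg cm_pow)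
open Pool.Agent.Y123.ST (fl um LL LL_def fl_um um_fl)
open Pool.Agent.TH127.PT (IsSubtorsor)
open Pool.Agent.Y102 (AbVar QBar)
open Pool.Agent.H936.SL (Mn GS Pj TN Lm RatGrp Pres Lev finrank_spS_ge)
open Pool.Agent.H936.G (DD ld ld_apply cjg cjg_apply Xd Fu mkLev upS mem_upS upS_dim Spc cm_unit cm_unit' nrmS nrmS_dim L0
  L0_rlie RLie)
open Pool.Agent.H936.V (gm_spS gm_skew Pt ix fs_ix sn_ix ix_inj Cen JJ JJ_skew JJ_det TN_GUs nrm_L0 Ag der_ag gens evs ld_scale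
  Bd Ctr SpecialC)
open Pool.Agent.H885 (Sys InfT part hder_gen curveP fs sn GUs mem_GUs)

variable {n N r₀ g R : ℕ}

/-- the conditions on the points -/
structure OKX (q E : ℕ) (J : Mn n ℂ) (C : Fin N → Mn n ℂ) (d : Pt 1 n N) : Prop where
  one_le : 1 ≤ d.B
  sys : ∀ l j, Sys (N := 1) q d.B (d.T l j) (fun _ => d.A l j) (fun _ => d.Z l j) (fun _ => d.W l j)
  T_ne : ∀ l j, d.T l j ≠ 0
  ρ_pos : 0 < d.ρ
  mem : ∀ l j a b, cx (d.Z l j a b) ∈ Cw d.ρ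
  b_mem : ∀ l j, d.b₀ ≤ d.b l j ∧ d.b l j ≤ d.b₀ + d.w
  sep : ∀ l j l' j', ¬ (l = l' ∧ d.b l j = d.b l' j') → 2 * d.ρ < |(d.b l j : ℝ) - d.b l' j'|
  big : (2 * d.B * ((d.w : ℝ) + d.ρ + 2)) ^ E ≤ (d.b₀ : ℝ)
  inf : ∀ l, ∀ X : Fin N → Mn n ℂ, (∀ j, X j ∈ spS J) → ∀ β,
    InfT (part (d.b l) (d.Z l) β) (fun j => if d.b l j = β then (C j)⁻¹ * X j * C j else 0)

/-- **the derivations** -/
theorem der_ptsX {q : ℕ} {C : ℕ → Fin N → Mn n ℂ} {J : ℕ → Mn n ℂ} {d : ℕ → Pt 1 n N}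
    (hd : ∀ k, OKX q k (J k) (C k) (d k)) (i : Fin N)
    {G : ℕ → Mn n ℂ} (hG : ∀ k, G k ∈ spS (J k)) : ∃ δ : DD,
      dm δ (gm fun k => Hv ((d k).Z 0 i) ((d k).b 0 i)) =
        gm (fun k => (C k i)⁻¹ * G k * C k i) * (gm fun k => Hv ((d k).Z 0 i) ((d k).b 0 i)) ∧
      ∀ j, j ≠ i → dm δ (gm fun k => Hv ((d k).Z 0 j) ((d k).b 0 j)) = 0 := by
  classical
  set Y : ℕ → Fin 1 → Fin N → Mn n ℂ := fun k l j => if j = i then G k else 0 with hY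
  have hYs : ∀ k l j, Y k l j ∈ spS (J k) := by
    intro k l j
    rw [hY]
    simp only
    split_ifs
    · exact hG k
    · exact Submodule.zero_mem _
  obtain ⟨δ, hδ⟩ := hder_gen (z := fun k (i : Fin (1 * N)) => (d k).z i)
    (X := fun k i => (C k (sn i))⁻¹ * Y k (fs i) (sn i) * C k (sn i))
    (fun e' => by
      obtain ⟨E, hE⟩ := curveP 1 N n q e'
      filter_upwards [ev_ge E] with k hk P hPd hP s
      have hH := (hd k).one_le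
      have hw0 : (0 : ℝ) ≤ (d k).w := by positivity
      have hρ := (hd k).ρ_pos
      refine hE (d k).B hH (d k).T (d k).A (d k).Z (d k).W (hd k).sys (hd k).T_ne (d k).ρ hρ (hd k).mem (d k).w (d k).b₀
        (d k).b (hd k).b_mem (hd k).sep ((pow_le_pow_right₀ (by nlinarith) hk).trans (hd k).big)
        (fun l j => (C k j)⁻¹ * Y k l j * C k j)
        (fun l' β => (hd k).inf l' (Y k l') (hYs k l') β) P hPd hP s)
  have hδ' : ∀ j : Fin N, dm δ (gm fun k => Hv ((d k).Z 0 j) ((d k).b 0 j)) =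
      gm fun k => (C k j)⁻¹ * Y k 0 j * C k j * Hv ((d k).Z 0 j) ((d k).b 0 j) := by
    intro j
    have h1 := hδ (ix 0 j)
    simp only [Pt.z_ix, fs_ix, sn_ix] at h1
    exact h1
  refine ⟨δ, ?_, fun j hj => ?_⟩
  · rw [hδ' i, ← gm_mul]
    congr 1
    funext k
    rw [hY]
    simp only [if_true]
  · rw [hδ' j]
    have h3 : (fun k => (C k j)⁻¹ * Y k 0 j * C k j * Hv ((d k).Z 0 j) ((d k).b 0 j)) = fun _ => 0 := by
      funext k
      rw [hY]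
      simp only [if_neg hj]
      rw [Matrix.mul_zero, Matrix.zero_mul, Matrix.zero_mul]
    rw [h3, gm_zero]

/-- **sequences of special fibres** -/
theorem spc_l0 (hg : 2 ≤ g) {D : ℕ} {H : ℕ → Matrix (Fin (2 * g)) (Fin (2 * g)) ℚ} {C : ℕ → Mn (2 * g) ℂ} {θ : ℂ}
    (hc : Cen D H C θ) {A : ℕ → AbVar g} {R : ℕ → Matrix (Fin (2 * g)) (Fin (2 * g)) ℚ}
    {K : ℕ → Subfield ℂ} {d : ℕ} (hK : ∀ k, FiniteDimensional ℚ (K k)) (hD : ∀ k, finrank ℚ (K k) ≤ d)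
    {S : ℕ → Set (Mn (2 * g) ℂ)} (hS : ∀ k, Spc (A k) (H k) (C k) (R k) (K k) (S k)) :
    ∃ 𝔩 : Submodule (U ℂ) (Mn (2 * g) (U ℂ)), 𝔩 ≤ spS (gm (JJ H)) ∧ TN 𝔩 ∧ 𝔩 ≠ ⊥ ∧ 𝔩 ≠ spS (gm (JJ H)) ∧
      ∀ δ : DD, ∃ c : U ℂ, ld C δ + c • (1 : Mn (2 * g) (U ℂ)) ∈ nrmS (gm (JJ H)) 𝔩 := by
  have hrl : ∀ k, RLie (A k) (H k) (R k) (L0 (JJ H k) (S k)) := fun k =>
    L0_rlie (hS k).alg (hS k).tor (hS k).rat (hS k).mem (hS k).pres (hc.skew k) (hc.hd k)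
  have htop : ∀ k, L0 (JJ H k) (S k) ≠ spS (JJ H k) := fun k => (hS k).ne_top (by omega) (hc.skew k) (hc.hd k)
  refine ⟨GUs fun k => L0 (JJ H k) (S k), ?_, TN_GUs fun k => (hrl k).tn (hc.hd k) (hS k).pres, ?_, ?_,
    nrm_L0 hc hK hD (fun k => (hS k).tor) fun k => (hS k).mem⟩
  · rintro _ ⟨F, rfl, hF⟩
    exact gm_spS.2 (Filter.Eventually.of_forall fun k => (hF k).1)
  · choose X hX hX0 using fun k => Submodule.exists_mem_ne_zero_of_ne_bot ((hrl k).ne (hS k).pres (by omega))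
    intro hcon
    have h1 : gm X ∈ GUs fun k => L0 (JJ H k) (S k) := mem_GUs.2 (Filter.Eventually.of_forall hX)
    rw [hcon, Submodule.mem_bot, ← gm_zero] at h1
    obtain ⟨k, hk⟩ := (gm_eq h1).exists
    exact hX0 k hk
  · intro hcon
    have h1 : ∀ k, ∃ X ∈ spS (JJ H k), X ∉ L0 (JJ H k) (S k) := by
      intro k
      by_contra hcon'
      push Not at hcon'
      exact htop k (le_antisymm (hrl k).le hcon')
    choose X hX hX' using h1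
    have h2 : gm X ∈ GUs fun k => L0 (JJ H k) (S k) := by
      rw [hcon]
      exact gm_spS.2 (Filter.Eventually.of_forall hX)
    obtain ⟨k, hk⟩ := (mem_GUs.1 h2).exists
    exact hX' k hk

/-! ### the additional periods -/

/-- first condition -/
def LkA (g e : ℕ) {s : ℕ} (β : Fin s → ℂ) (C₀ : Matrix (Fin r₀) (Fin r₀) ℂ) : Prop :=
  s + 2 ≤ 2 * g ∧ ∃ κ : ℂ, κ ≠ 0 ∧ ∀ i j, Ag e β (κ * C₀ i j)

/-- second condition -/
def LkB (g e : ℕ) (θ : ℂ) {s : ℕ} (β : Fin s → ℂ) (C : Mn (2 * g) ℂ) (C₀ : Matrix (Fin r₀) (Fin r₀) ℂ) : Prop :=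
  s + 3 ≤ 2 * g ∧ ∀ i j, Ag e (gens θ C β) (C₀ i j)

/-- third condition -/
def LkC (g e : ℕ) {s : ℕ} (β : Fin s → ℂ) (C : Mn (2 * g) ℂ) (C₀ : Matrix (Fin r₀) (Fin r₀) ℂ) : Prop :=
  s < (2 * g + 1).choose 2 ∧ (∃ κ : ℂ, κ ≠ 0 ∧ ∀ i j, Ag e β (κ * C₀ i j)) ∧ ∃ κ : ℂ, κ ≠ 0 ∧ ∀ i j, Ag e β (κ * C i j)

section few
variable {D e s : ℕ} {H : ℕ → Matrix (Fin (2 * g)) (Fin (2 * g)) ℚ} {C : ℕ → Mn (2 * g) ℂ} {θ : ℂ}
    {C₀ : ℕ → Matrix (Fin r₀) (Fin r₀) ℂ} {β : ℕ → Fin s → ℂ}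

theorem fewA (hg : 2 ≤ g) (hc : Cen D H C θ) (hC₀ : ∀ k, (C₀ k).det ≠ 0) (hl : ∀ k, LkA g e (β k) (C₀ k))
    {𝔩 : Submodule (U ℂ) (Mn (2 * g) (U ℂ))} (le : 𝔩 ≤ spS (gm (JJ H))) (nb : 𝔩 ≠ ⊥) (nt : 𝔩 ≠ spS (gm (JJ H)))
    (fc : ∀ δ : DD, ∃ c : U ℂ, ld C δ + c • (1 : Mn (2 * g) (U ℂ)) ∈ nrmS (gm (JJ H)) 𝔩) : FewX (JJ H) C C₀ := by
  have hs := (hl 0).1
  choose κ hκ h1 using fun k => (hl k).2
  refine ⟨(Fin s → U ℂ), inferInstance, inferInstance, inferInstance, evs β, nrmS (gm (JJ H)) 𝔩, fun X hX => hX.1, ?_,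
    fun δ hδ => ⟨⟨_, ld_scale hC₀ hκ fun i j => der_ag (fun k => h1 k i j) fun i => congrFun hδ i⟩, fc δ⟩⟩
  rw [Module.finrank_fin_fun]
  have h2 := nrmS_dim (gm_skew (JJ_skew hc.skew)) (gm_unit (JJ_det hc.hd)) (by omega) le nb nt
  omega

theorem fewB (hg : 2 ≤ g) (hc : Cen D H C θ) (hl : ∀ k, LkB g e θ (β k) (C k) (C₀ k))
    {𝔩 : Submodule (U ℂ) (Mn (2 * g) (U ℂ))} (le : 𝔩 ≤ spS (gm (JJ H))) (nb : 𝔩 ≠ ⊥) (nt : 𝔩 ≠ spS (gm (JJ H)))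
    (fc : ∀ δ : DD, ∃ c : U ℂ, ld C δ + c • (1 : Mn (2 * g) (U ℂ)) ∈ nrmS (gm (JJ H)) 𝔩) : FewX (JJ H) C C₀ := by
  have hs := (hl 0).1
  have hG : ∀ δ : DD, ld C δ ∈ upS (nrmS (gm (JJ H)) 𝔩) := fun δ => by
    obtain ⟨c, hcc⟩ := fc δ
    exact mem_upS hcc
  let Φ1 : DD →ₗ[U ℂ] upS (nrmS (gm (JJ H)) 𝔩) := (ld C).codRestrict _ hG
  refine ⟨upS (nrmS (gm (JJ H)) 𝔩) × (Fin s → U ℂ), inferInstance, inferInstance, inferInstance, Φ1.prod (evs β), ⊥,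
    bot_le, ?_, fun δ hδ => ?_⟩
  · rw [Module.finrank_prod, Module.finrank_fin_fun, finrank_bot, add_zero]
    have h2 := nrmS_dim (gm_skew (JJ_skew hc.skew)) (gm_unit (JJ_det hc.hd)) (by omega) le nb nt
    have h3 := upS_dim (nrmS (gm (JJ H)) 𝔩)
    omega
  · have h1 : Φ1 δ = 0 := congrArg Prod.fst hδ
    have h2 : evs β δ = 0 := congrArg Prod.snd hδ
    have hCu : IsUnit (gm C).det := gm_unit fun k => (hc.cd k).ne_zero
    have h4 : ld C δ = 0 := congrArg Subtype.val h1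
    have h3 : dm δ (gm C) = 0 := by
      have h5 : dm δ (gm C) * (gm C)⁻¹ = 0 := h4
      calc dm δ (gm C) = dm δ (gm C) * (gm C)⁻¹ * gm C := by
            rw [Matrix.mul_assoc, Matrix.nonsing_inv_mul _ hCu, Matrix.mul_one]
        _ = 0 := by rw [h5, Matrix.zero_mul]
    refine ⟨⟨0, ?_⟩, 0, by rw [h4, zero_smul, add_zero]; exact Submodule.zero_mem _⟩
    have h5 : dm δ (gm C₀) = 0 := by
      ext i j
      refine der_ag (fun k => (hl k).2 i j) fun o => ?_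
      rcases o with _ | p | i
      · exact hc.tau (by omega) h3
      · exact congrFun (congrFun h3 p.1) p.2
      · exact congrFun h2 i
    rw [ld_apply, h5, Matrix.zero_mul, zero_smul]

theorem fewC (hg : 2 ≤ g) (hc : Cen D H C θ) (hC₀ : ∀ k, (C₀ k).det ≠ 0) (hl : ∀ k, LkC g e (β k) (C k) (C₀ k)) :
    FewX (JJ H) C C₀ := by
  have hs := (hl 0).1
  choose κ hκ h1 using fun k => (hl k).2.1
  choose κ' hκ' h1' using fun k => (hl k).2.2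
  refine ⟨(Fin s → U ℂ), inferInstance, inferInstance, inferInstance, evs β, ⊥, bot_le, ?_, fun δ hδ =>
    ⟨⟨_, ld_scale hC₀ hκ fun i j => der_ag (fun k => h1 k i j) fun i => congrFun hδ i⟩, ?_⟩⟩
  · rw [Module.finrank_fin_fun, finrank_bot, add_zero]
    exact hs.trans_le (finrank_spS_ge (gm_skew (JJ_skew hc.skew)) (gm_unit (JJ_det hc.hd)))
  · have h2 := ld_scale (fun k => (hc.cd k).ne_zero) hκ' (δ := δ) fun i j => der_ag (fun k => h1' k i j) fun i => congrFun hδ i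
    refine ⟨-(-(δ (mk ℂ κ') / mk ℂ κ')), ?_⟩
    rw [h2, ← add_smul, add_neg_cancel, zero_smul]
    exact Submodule.zero_mem _

end few

end Pool.Agent.H936.X
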