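import Pool.Agent.H936.X.Fft

/-!
# Subtorsors of tensor classes
-/

set_option autoImplicit false
set_option linter.unusedSectionVars false
set_option linter.unusedVariables false

open Matrix Module

namespace Pool.Agent.H936.X

open Pool.Agent.Y123.ST (tp tp_mul tp_one)
open Pool.Agent.Helper880_R3 (Ix ib Tot)
open Pool.Agent.TH127.PT (IsSubtorsor)
open Pool.Agent.H936.SL (Mn Lm RatGrp Tot_mul' Tot_one' Tot_inv map_inv_aut)
open Pool.Agent.H936.V (inv_unit off eq_Tot Tot_map Tot_unit_of)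

variable {n N r : ℕ} {κ₀ κ : Type} [Fintype κ₀] [Fintype κ] [DecidableEq κ₀] [DecidableEq κ]

/-- the sum of `x` and the contragredient matrix -/
noncomputable def both (x : Matrix (Fin r) (Fin r) ℂ) : Matrix (Fin r ⊕ Fin r) (Fin r ⊕ Fin r) ℂ :=
  fromBlocks x 0 0 (x⁻¹)ᵀ

theorem both_mul (x y : Matrix (Fin r) (Fin r) ℂ) : both (x * y) = both x * both y := by
  unfold both
  rw [fromBlocks_multiply, Matrix.mul_inv_rev, Matrix.transpose_mul]
  simp only [Matrix.mul_zero, Matrix.zero_mul, add_zero, zero_add]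

theorem both_one : both (1 : Matrix (Fin r) (Fin r) ℂ) = 1 := by
  unfold both
  rw [inv_one, Matrix.transpose_one, fromBlocks_one]

/-- the action on tensors -/
noncomputable def actT (κ₀ κ : Type) [Fintype κ₀] [Fintype κ] (x : Matrix (Fin r) (Fin r) ℂ) (X : Fin N → Mn n ℂ) :
    Matrix ((κ₀ → Fin r ⊕ Fin r) × (κ → Fin n × Fin N)) ((κ₀ → Fin r ⊕ Fin r) × (κ → Fin n × Fin N)) ℂ :=
  kroneckerMap (· * ·) (tp κ₀ (both x)) (tp κ (blockDiagonal X))

theorem actT_apply (x : Matrix (Fin r) (Fin r) ℂ) (X : Fin N → Mn n ℂ) (I J : (κ₀ → Fin r ⊕ Fin r) × (κ → Fin n × Fin N)) :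
    actT κ₀ κ x X I J = (∏ k, both x (I.1 k) (J.1 k)) * ∏ k, blockDiagonal X (I.2 k) (J.2 k) := rfl

theorem actT_mul (x y : Matrix (Fin r) (Fin r) ℂ) (X Y : Fin N → Mn n ℂ) :
    actT κ₀ κ (x * y) (fun j => X j * Y j) = actT κ₀ κ x X * actT κ₀ κ y Y := by
  unfold actT
  rw [both_mul, tp_mul, blockDiagonal_mul, tp_mul]
  exact Matrix.mul_kronecker_mul _ _ _ _

theorem actT_one : actT κ₀ κ (1 : Matrix (Fin r) (Fin r) ℂ) (fun _ : Fin N => (1 : Mn n ℂ)) = 1 := by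
  unfold actT
  have h1 : blockDiagonal (fun _ : Fin N => (1 : Mn n ℂ)) = 1 := blockDiagonal_one
  rw [both_one, tp_one, h1, tp_one]
  exact Matrix.one_kronecker_one

theorem actT_inv {x : Matrix (Fin r) (Fin r) ℂ} (hx : IsUnit x) {X : Fin N → Mn n ℂ} (hX : ∀ j, IsUnit (X j)) :
    actT κ₀ κ x⁻¹ (fun j => (X j)⁻¹) * actT κ₀ κ x X = 1 := by
  rw [← actT_mul, Matrix.nonsing_inv_mul _ ((Matrix.isUnit_iff_isUnit_det _).1 hx)]
  have h1 : (fun j => (X j)⁻¹ * X j) = fun _ => 1 :=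
    funext fun j => Matrix.nonsing_inv_mul _ ((Matrix.isUnit_iff_isUnit_det _).1 (hX j))
  rw [h1, actT_one]

theorem inv_map {B : Type} [Fintype B] [DecidableEq B] (σ : ℂ ≃+* ℂ) (x : Matrix B B ℂ) : (x.map σ)⁻¹ = (x⁻¹).map σ := by
  have hd : (x.map σ).det = σ x.det := (RingHom.map_det (σ : ℂ →+* ℂ) x).symm
  by_cases hx : IsUnit x.det
  · refine Matrix.inv_eq_right_inv ?_
    rw [← map_inv_aut, Matrix.mul_nonsing_inv _ hx]
    exact Matrix.map_one _ (map_zero σ) (map_one σ)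
  · rw [Matrix.nonsing_inv_apply_not_isUnit _ hx, Matrix.nonsing_inv_apply_not_isUnit]
    · ext a b
      exact (map_zero σ).symm
    · rw [hd, isUnit_iff_ne_zero, not_ne_iff]
      rw [isUnit_iff_ne_zero, not_ne_iff] at hx
      rw [hx, map_zero]

theorem actT_map (σ : ℂ ≃+* ℂ) (x : Matrix (Fin r) (Fin r) ℂ) (X : Fin N → Mn n ℂ) (I J : (κ₀ → Fin r ⊕ Fin r) × (κ → Fin n × Fin N)) :
    σ (actT κ₀ κ x X I J) = actT κ₀ κ (x.map σ) (fun j => (X j).map σ) I J := by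
  rw [actT_apply, actT_apply, map_mul, map_prod, map_prod]
  congr 1
  · refine Finset.prod_congr rfl fun k _ => ?_
    have h1 : both (x.map σ) = (both x).map σ := by
      unfold both
      rw [fromBlocks_map, inv_map, Matrix.transpose_map]
      congr 1
      · ext a b
        exact (map_zero σ).symm
      · ext a b
        exact (map_zero σ).symm
    rw [h1]
    rfl
  · refine Finset.prod_congr rfl fun k _ => ?_
    rw [blockDiagonal_apply, blockDiagonal_apply]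
    split_ifs
    · rfl
    · exact map_zero σ

/-- the isomorphisms which map the line of `α` to the line of `τ` -/
def TT (α τ : (κ₀ → Fin r ⊕ Fin r) × (κ → Fin n × Fin N) → ℂ) : Set (Matrix (Ix r n N) (Ix r n N) ℂ) :=
  {x | IsUnit x ∧ ∃ (y : Matrix (Fin r) (Fin r) ℂ) (Y : Fin N → Mn n ℂ), x = Tot y Y ∧
    ∃ l : ℂ, l ≠ 0 ∧ actT κ₀ κ y Y *ᵥ α = l • τ}

theorem act_inv {y : Matrix (Fin r) (Fin r) ℂ} {Y : Fin N → Mn n ℂ} (hy : IsUnit (Tot y Y))
    {α τ : (κ₀ → Fin r ⊕ Fin r) × (κ → Fin n × Fin N) → ℂ} {l : ℂ} (hl : l ≠ 0) (h : actT κ₀ κ y Y *ᵥ α = l • τ) :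
    actT κ₀ κ y⁻¹ (fun j => (Y j)⁻¹) *ᵥ τ = l⁻¹ • α := by
  have hu := Pool.Agent.Helper880_R3.Tot_unit hy
  have h1 := congrArg (fun v => actT κ₀ κ y⁻¹ (fun j => (Y j)⁻¹) *ᵥ v) h
  rw [Matrix.mulVec_mulVec, actT_inv hu.1 hu.2, Matrix.one_mulVec, Matrix.mulVec_smul] at h1
  rw [h1, smul_smul, inv_mul_cancel₀ hl, one_smul]

section alg
variable {K : Subfield ℂ}

/-- evaluation -/
noncomputable def evK (K : Subfield ℂ) (x : Matrix (Ix r n N) (Ix r n N) ℂ) :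
    MvPolynomial (Ix r n N × Ix r n N) K →+* ℂ := MvPolynomial.eval₂Hom (algebraMap K ℂ) fun b => x b.1 b.2

/-- the generic first block -/
noncomputable def G0 (K : Subfield ℂ) (r n N : ℕ) : Matrix (Fin r) (Fin r) (MvPolynomial (Ix r n N × Ix r n N) K) :=
  Matrix.of fun a b => MvPolynomial.X (Sum.inl a, Sum.inl b)

/-- the generic matrix of `both`, times the determinant -/
noncomputable def bothP (K : Subfield ℂ) (r n N : ℕ) :
    Matrix (Fin r ⊕ Fin r) (Fin r ⊕ Fin r) (MvPolynomial (Ix r n N × Ix r n N) K) :=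
  fromBlocks ((G0 K r n N).det • G0 K r n N) 0 0 ((G0 K r n N).adjugate)ᵀ

theorem bothP_ev {y : Matrix (Fin r) (Fin r) ℂ} {Y : Fin N → Mn n ℂ} (hy : IsUnit y) (a b : Fin r ⊕ Fin r) :
    evK K (Tot y Y) (bothP K r n N a b) = y.det * both y a b := by
  have h0 : (evK K (Tot y Y)).mapMatrix (G0 K r n N) = y := by
    ext a b
    show evK K (Tot y Y) (MvPolynomial.X (Sum.inl a, Sum.inl b)) = _
    unfold evK
    rw [MvPolynomial.coe_eval₂Hom, MvPolynomial.eval₂_X]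
    rfl
  have hd : evK K (Tot y Y) (G0 K r n N).det = y.det := by
    rw [RingHom.map_det, h0]
  have had : (evK K (Tot y Y)).mapMatrix (G0 K r n N).adjugate = y.adjugate := by
    rw [RingHom.map_adjugate, h0]
  have hyd := (Matrix.isUnit_iff_isUnit_det _).1 hy
  have hinv : y.det • y⁻¹ = y.adjugate := by
    rw [Matrix.inv_def, smul_smul, Ring.mul_inverse_cancel _ hyd, one_smul]
  rcases a with a | a <;> rcases b with b | b
  · show evK K (Tot y Y) ((G0 K r n N).det * G0 K r n N a b) = y.det * y a b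
    rw [map_mul, hd]
    congr 1
    exact congrFun (congrFun h0 a) b
  · show evK K (Tot y Y) 0 = y.det * 0
    rw [map_zero, mul_zero]
  · show evK K (Tot y Y) 0 = y.det * 0
    rw [map_zero, mul_zero]
  · show evK K (Tot y Y) ((G0 K r n N).adjugate b a) = y.det * y⁻¹ b a
    have h1 := congrFun (congrFun had b) a
    have h2 := congrFun (congrFun hinv b) a
    rw [Matrix.smul_apply, smul_eq_mul] at h2
    rw [h2]
    exact h1

/-- the generic image of the tensor `α` -/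
noncomputable def vP (α : (κ₀ → Fin r ⊕ Fin r) × (κ → Fin n × Fin N) → K) (I : (κ₀ → Fin r ⊕ Fin r) × (κ → Fin n × Fin N)) :
    MvPolynomial (Ix r n N × Ix r n N) K :=
  ∑ J : (κ₀ → Fin r ⊕ Fin r) × (κ → Fin n × Fin N), (∏ k, bothP K r n N (I.1 k) (J.1 k)) *
    (∏ k, MvPolynomial.X (Sum.inr (I.2 k), Sum.inr (J.2 k))) * MvPolynomial.C (α J)

theorem vP_ev (α : (κ₀ → Fin r ⊕ Fin r) × (κ → Fin n × Fin N) → K) {y : Matrix (Fin r) (Fin r) ℂ} {Y : Fin N → Mn n ℂ}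
    (hy : IsUnit y) (I : (κ₀ → Fin r ⊕ Fin r) × (κ → Fin n × Fin N)) :
    evK K (Tot y Y) (vP α I) = y.det ^ Fintype.card κ₀ * (actT κ₀ κ y Y *ᵥ fun J => (α J : ℂ)) I := by
  unfold vP
  rw [map_sum]
  show _ = y.det ^ Fintype.card κ₀ * ∑ J, actT κ₀ κ y Y I J * (α J : ℂ)
  rw [Finset.mul_sum]
  refine Finset.sum_congr rfl fun J _ => ?_
  rw [map_mul, map_mul, map_prod, map_prod, actT_apply]
  have h1 : ∏ k, evK K (Tot y Y) (bothP K r n N (I.1 k) (J.1 k)) =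
      y.det ^ Fintype.card κ₀ * ∏ k, both y (I.1 k) (J.1 k) := by
    simp only [bothP_ev hy, Finset.prod_mul_distrib, Finset.prod_const, Finset.card_univ]
  have h2 : ∀ a b : Fin n × Fin N, evK K (Tot y Y) (MvPolynomial.X (Sum.inr a, Sum.inr b)) = blockDiagonal Y a b := by
    intro a b
    unfold evK
    rw [MvPolynomial.coe_eval₂Hom, MvPolynomial.eval₂_X]
    rfl
  have h3 : evK K (Tot y Y) (MvPolynomial.C (α J)) = (α J : ℂ) := by
    unfold evK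
    rw [MvPolynomial.coe_eval₂Hom, MvPolynomial.eval₂_C]
    rfl
  rw [h1, h3]
  simp only [h2]
  ring

/-- **the subtorsor of a class** -/
theorem TT_tor {α : (κ₀ → Fin r ⊕ Fin r) × (κ → Fin n × Fin N) → K} (hα : α ≠ 0)
    {τ : (κ₀ → Fin r ⊕ Fin r) × (κ → Fin n × Fin N) → ℚ} (hτ : τ ≠ 0) :
    IsSubtorsor K (TT (fun I => (α I : ℂ)) fun I => (τ I : ℂ)) where
  isUnit x hx := hx.1
  torsor := by
    rintro _ ⟨hx, x, X, rfl, l, hl, hX⟩ _ ⟨hy, y, Y, rfl, l', hl', hY⟩ _ ⟨hz, z, Z, rfl, l'', hl'', hZ⟩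
    refine ⟨(hx.mul (inv_unit hy)).mul hz, x * y⁻¹ * z, fun i => X i * (Y i)⁻¹ * Z i, ?_, l'' * l'⁻¹ * l,
      mul_ne_zero (mul_ne_zero hl'' (inv_ne_zero hl')) hl, ?_⟩
    · rw [Tot_inv hy, Tot_mul', Tot_mul']
    · have h1 : actT κ₀ κ (x * y⁻¹ * z) (fun i => X i * (Y i)⁻¹ * Z i) =
          actT κ₀ κ x X * actT κ₀ κ y⁻¹ (fun i => (Y i)⁻¹) * actT κ₀ κ z Z := by
        rw [← actT_mul, ← actT_mul]
      rw [h1, ← Matrix.mulVec_mulVec, ← Matrix.mulVec_mulVec, hZ, Matrix.mulVec_smul, Matrix.mulVec_smul,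
        act_inv hy hl' hY, Matrix.mulVec_smul, hX, smul_smul, smul_smul]
  algebraic := by
    classical
    refine ⟨(fun p : Ix r n N × Ix r n N => (MvPolynomial.X p : MvPolynomial (Ix r n N × Ix r n N) ℂ)) '' off ∪
      Set.range (fun q : ((κ₀ → Fin r ⊕ Fin r) × (κ → Fin n × Fin N)) × ((κ₀ → Fin r ⊕ Fin r) × (κ → Fin n × Fin N)) =>
        MvPolynomial.map (algebraMap K ℂ) (vP α q.1 * MvPolynomial.C (τ q.2 : K) - vP α q.2 * MvPolynomial.C (τ q.1 : K))),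
      ?_, fun x => ?_⟩
    · rintro _ (⟨p, -, rfl⟩ | ⟨q, rfl⟩) m
      · show (MvPolynomial.X p : MvPolynomial _ ℂ).coeff m ∈ K
        rw [MvPolynomial.coeff_X]
        split_ifs
        · exact K.one_mem
        · exact K.zero_mem
      · show (MvPolynomial.map (algebraMap K ℂ) _).coeff m ∈ K
        rw [MvPolynomial.coeff_map]
        exact SetLike.coe_mem _
    · have hren : ∀ (p : MvPolynomial (Ix r n N × Ix r n N) K) (x : Matrix (Ix r n N) (Ix r n N) ℂ),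
          MvPolynomial.eval (fun b : Ix r n N × Ix r n N => x b.1 b.2) (MvPolynomial.map (algebraMap K ℂ) p) =
          evK K x p := fun p x => MvPolynomial.eval_map _ _ _
      have hm : ∀ {y : Matrix (Fin r) (Fin r) ℂ} {Y : Fin N → Mn n ℂ}, IsUnit y →
          ∀ I I' : (κ₀ → Fin r ⊕ Fin r) × (κ → Fin n × Fin N),
          evK K (Tot y Y) (vP α I * MvPolynomial.C (τ I' : K) - vP α I' * MvPolynomial.C (τ I : K)) =
            y.det ^ Fintype.card κ₀ * ((actT κ₀ κ y Y *ᵥ fun J => (α J : ℂ)) I * τ I' -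
              (actT κ₀ κ y Y *ᵥ fun J => (α J : ℂ)) I' * τ I) := by
        intro y Y hy I I'
        have h3 : ∀ q : ℚ, evK K (Tot y Y) (MvPolynomial.C (q : K)) = (q : ℂ) := by
          intro q
          unfold evK
          rw [MvPolynomial.coe_eval₂Hom, MvPolynomial.eval₂_C]
          rfl
        rw [map_sub, map_mul, map_mul, vP_ev α hy, vP_ev α hy, h3, h3]
        ring
      constructor
      · rintro ⟨hx, y, Y, rfl, l, hl, hY⟩
        refine ⟨hx, ?_⟩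
        rintro _ (⟨p, hp, rfl⟩ | ⟨⟨I, I'⟩, rfl⟩)
        · show MvPolynomial.eval _ (MvPolynomial.X p) = 0
          rw [MvPolynomial.eval_X]
          exact hp y Y
        · show MvPolynomial.eval _ (MvPolynomial.map (algebraMap K ℂ) _) = 0
          rw [hren, hm (Pool.Agent.Helper880_R3.Tot_unit hx).1, hY, Pi.smul_apply, Pi.smul_apply, smul_eq_mul, smul_eq_mul]
          ring
      · rintro ⟨hx, h⟩
        have h1 : ∀ p ∈ (off : Set (Ix r n N × Ix r n N)), x p.1 p.2 = 0 := by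
          intro p hp
          have h2 := h _ (Or.inl ⟨p, hp, rfl⟩)
          rwa [MvPolynomial.eval_X] at h2
        have h3 := eq_Tot h1
        set Y : Fin N → Mn n ℂ := fun i => Matrix.of fun k l => x (Sum.inr (k, i)) (Sum.inr (l, i)) with hY
        have h4 : IsUnit (Tot x.toBlocks₁₁ Y) := by rwa [← h3]
        have hu := Pool.Agent.Helper880_R3.Tot_unit h4
        have hdet : x.toBlocks₁₁.det ≠ 0 := ((Matrix.isUnit_iff_isUnit_det _).1 hu.1).ne_zero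
        obtain ⟨I₁, hI₁⟩ := Function.ne_iff.1 hτ
        rw [Pi.zero_apply] at hI₁
        have hI₁' : (τ I₁ : ℂ) ≠ 0 := by exact_mod_cast hI₁
        have h5 : ∀ I, (actT κ₀ κ x.toBlocks₁₁ Y *ᵥ fun J => (α J : ℂ)) I * τ I₁ =
            (actT κ₀ κ x.toBlocks₁₁ Y *ᵥ fun J => (α J : ℂ)) I₁ * τ I := by
          intro I
          have h6 := h _ (Or.inr ⟨(I, I₁), rfl⟩)
          rw [hren, h3, hm hu.1] at h6
          rcases mul_eq_zero.1 h6 with h7 | h7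
          · exact absurd h7 (pow_ne_zero _ hdet)
          · linear_combination h7
        have h6 : (actT κ₀ κ x.toBlocks₁₁ Y *ᵥ fun J => (α J : ℂ)) =
            ((actT κ₀ κ x.toBlocks₁₁ Y *ᵥ fun J => (α J : ℂ)) I₁ / τ I₁) • fun I => (τ I : ℂ) := by
          funext I
          rw [Pi.smul_apply, smul_eq_mul, div_mul_eq_mul_div, ← h5 I, mul_div_assoc, div_self hI₁', mul_one]
        refine ⟨hx, _, Y, h3, _, ?_, h6⟩
        intro h7
        rw [h7, zero_smul] at h6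
        have h8 := congrArg (fun v => actT κ₀ κ (x.toBlocks₁₁)⁻¹ (fun j => (Y j)⁻¹) *ᵥ v) h6
        rw [Matrix.mulVec_mulVec, actT_inv hu.1 hu.2, Matrix.one_mulVec, Matrix.mulVec_zero] at h8
        exact hα (funext fun J => Subtype.ext (congrFun h8 J))

/-- the group of the subtorsor is defined over the field of rational numbers -/
theorem TT_rat (α : (κ₀ → Fin r ⊕ Fin r) × (κ → Fin n × Fin N) → ℂ)
    (τ : (κ₀ → Fin r ⊕ Fin r) × (κ → Fin n × Fin N) → ℚ) : RatGrp (TT α fun I => (τ I : ℂ)) := by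
  rintro σ _ ⟨hx, x, X, rfl, l, hl, hX⟩ _ ⟨hy, y, Y, rfl, l', hl', hY⟩
  have h1 := Pool.Agent.Helper880_R3.Tot_unit hx
  have h2 := Pool.Agent.Helper880_R3.Tot_unit hy
  have hzu : IsUnit ((x * y⁻¹).map σ) := (h1.1.mul (inv_unit h2.1)).map (σ : ℂ →+* ℂ).mapMatrix
  have hZu : ∀ i, IsUnit ((X i * (Y i)⁻¹).map σ) := fun i =>
    ((h1.2 i).mul (inv_unit (h2.2 i))).map (σ : ℂ →+* ℂ).mapMatrix
  have h3 : actT κ₀ κ (x * y⁻¹) (fun i => X i * (Y i)⁻¹) *ᵥ (fun I => (τ I : ℂ)) = (l'⁻¹ * l) • fun I => (τ I : ℂ) := by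
    rw [actT_mul, ← Matrix.mulVec_mulVec, act_inv hy hl' hY, Matrix.mulVec_smul, hX, smul_smul]
  have h4 : actT κ₀ κ ((x * y⁻¹).map σ) (fun i => (X i * (Y i)⁻¹).map σ) *ᵥ (fun I => (τ I : ℂ)) =
      σ (l'⁻¹ * l) • fun I => (τ I : ℂ) := by
    funext I
    have h5 := congrArg σ (congrFun h3 I)
    rw [Pi.smul_apply, smul_eq_mul, map_mul] at h5
    have h6 : σ ((τ I : ℚ) : ℂ) = (τ I : ℂ) := map_ratCast σ _
    rw [h6] at h5
    rw [Pi.smul_apply, smul_eq_mul, ← h5]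
    show ∑ J, actT κ₀ κ ((x * y⁻¹).map σ) (fun i => (X i * (Y i)⁻¹).map σ) I J * (τ J : ℂ) =
      σ (∑ J, actT κ₀ κ (x * y⁻¹) (fun i => X i * (Y i)⁻¹) I J * (τ J : ℂ))
    rw [map_sum]
    refine Finset.sum_congr rfl fun J _ => ?_
    rw [map_mul, actT_map, map_ratCast σ]
  have hzt : IsUnit (Tot ((x * y⁻¹).map σ) fun i => (X i * (Y i)⁻¹).map σ) := Tot_unit_of hzu hZu
  refine ⟨Tot ((x * y⁻¹).map σ) (fun i => (X i * (Y i)⁻¹).map σ) * Tot y Y, ⟨hzt.mul hy, _, _, Tot_mul' _ _ _ _,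
    l' * σ (l'⁻¹ * l), mul_ne_zero hl' ?_, ?_⟩, Tot y Y, ⟨hy, y, Y, rfl, l', hl', hY⟩, ?_⟩
  · intro h5
    have h6 : l'⁻¹ * l = 0 := by
      apply σ.injective
      rw [h5, map_zero]
    exact mul_ne_zero (inv_ne_zero hl') hl h6
  · have h5 := actT_mul (κ₀ := κ₀) (κ := κ) ((x * y⁻¹).map σ) y (fun i => (X i * (Y i)⁻¹).map σ) Y
    rw [h5, ← Matrix.mulVec_mulVec, hY, Matrix.mulVec_smul, h4, smul_smul]
  · rw [Tot_inv hy, Tot_mul', Tot_map, ← Tot_inv hy, Matrix.mul_assoc,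
      Matrix.mul_nonsing_inv _ ((Matrix.isUnit_iff_isUnit_det _).1 hy), Matrix.mul_one]

theorem Tot_inj {x y : Matrix (Fin r) (Fin r) ℂ} {X Y : Fin N → Mn n ℂ} (h : Tot x X = Tot y Y) : x = y ∧ X = Y := by
  obtain ⟨h1, -, -, h2⟩ := Matrix.fromBlocks_inj.1 h
  exact ⟨h1, blockDiagonal_injective h2⟩

/-- **Tensor classes.** -/
theorem tens_of {H : Matrix (Fin n) (Fin n) ℚ} (hH : Hᵀ = -H) (hd : IsUnit H.det)
    {C₀ : Matrix (Fin r) (Fin r) ℂ} {P : Fin N → Mn n ℂ} (hu : IsUnit (Tot C₀ P))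
    (hst : ∀ S : Set (Matrix (Ix r n N) (Ix r n N) ℂ), IsSubtorsor K S → RatGrp S → Tot C₀ P ∈ S →
      ∀ γ : Fin N → Mn n ℂ, (∀ j, γ j * Pool.Agent.Y119.HY.cm H * (γ j)ᵀ = Pool.Agent.Y119.HY.cm H) →
        Tot 1 γ * Tot C₀ P ∈ S)
    (α : (κ₀ → Fin r ⊕ Fin r) × (κ → Fin n × Fin N) → K) (τ : (κ₀ → Fin r ⊕ Fin r) × (κ → Fin n × Fin N) → ℚ) {ξ : ℂ}
    (hξ : ξ ≠ 0) (hc : actT κ₀ κ C₀ P *ᵥ (fun J => (α J : ℂ)) = ξ • fun I => (τ I : ℂ)) :
    (fun (I : κ → Fin n × Fin N) (I₀ : κ₀ → Fin r ⊕ Fin r) => τ (I₀, I)) ∈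
      Submodule.span ℚ {G : (κ → Fin n × Fin N) → (κ₀ → Fin r ⊕ Fin r) → ℚ |
        ∃ (m : ℕ) (e : Fin m × Fin 2 ≃ κ) (b : Fin m → Fin N) (u : (κ₀ → Fin r ⊕ Fin r) → ℚ), G = prM H e b u} := by
  by_cases hτ : τ = 0
  · have h1 : (fun (I : κ → Fin n × Fin N) (I₀ : κ₀ → Fin r ⊕ Fin r) => τ (I₀, I)) = 0 := by
      funext I I₀
      rw [hτ]
      rfl
    rw [h1]
    exact Submodule.zero_mem _
  have hα : α ≠ 0 := by
    rintro rfl
    have h1 : (fun J => (((0 : (κ₀ → Fin r ⊕ Fin r) × (κ → Fin n × Fin N) → K) J : K) : ℂ)) = 0 := by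
      funext J
      rfl
    rw [h1, Matrix.mulVec_zero] at hc
    refine hτ (funext fun I => ?_)
    have h2 := (congrFun hc I).symm
    rw [Pi.smul_apply, smul_eq_mul] at h2
    have h3 := (mul_eq_zero.1 h2).resolve_left hξ
    exact_mod_cast h3
  refine span_ofC hH hd (ι := κ₀ → Fin r ⊕ Fin r) _ fun γ hγ I₀ => ?_
  obtain ⟨-, y, Y, hyY, l, hl, h1⟩ := hst _ (TT_tor hα hτ) (TT_rat _ τ) ⟨hu, C₀, P, rfl, ξ, hξ, hc⟩ γ hγ
  rw [Tot_mul'] at hyY
  obtain ⟨rfl, rfl⟩ := Tot_inj hyY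
  have h2 := actT_mul (κ₀ := κ₀) (κ := κ) 1 C₀ γ P
  rw [h2, ← Matrix.mulVec_mulVec, hc, Matrix.mulVec_smul] at h1
  refine ⟨ξ⁻¹ * l, ?_⟩
  have h3 : actT κ₀ κ 1 γ *ᵥ (fun I => (τ I : ℂ)) = (ξ⁻¹ * l) • fun I => (τ I : ℂ) := by
    rw [← smul_smul, ← h1, smul_smul, inv_mul_cancel₀ hξ, one_smul]
  funext I
  have h4 := congrFun h3 (I₀, I)
  rw [Pi.smul_apply] at h4 ⊢
  rw [← h4]
  show ∑ J, tp κ (blockDiagonal γ) I J * (τ (I₀, J) : ℂ) =
    ∑ J : (κ₀ → Fin r ⊕ Fin r) × (κ → Fin n × Fin N), actT κ₀ κ 1 γ (I₀, I) J * (τ J : ℂ)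
  rw [Fintype.sum_prod_type, Finset.sum_eq_single I₀]
  · refine Finset.sum_congr rfl fun J _ => ?_
    have h5 : actT κ₀ κ (1 : Matrix (Fin r) (Fin r) ℂ) γ (I₀, I) (I₀, J) =
        tp κ₀ (both (1 : Matrix (Fin r) (Fin r) ℂ)) I₀ I₀ * tp κ (blockDiagonal γ) I J := rfl
    rw [h5, both_one, tp_one, Matrix.one_apply_eq, one_mul]
  · intro J₀ _ hJ₀
    refine Finset.sum_eq_zero fun J _ => ?_
    have h5 : actT κ₀ κ (1 : Matrix (Fin r) (Fin r) ℂ) γ (I₀, I) (J₀, J) =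
        tp κ₀ (both (1 : Matrix (Fin r) (Fin r) ℂ)) I₀ J₀ * tp κ (blockDiagonal γ) I J := rfl
    rw [h5, both_one, tp_one, Matrix.one_apply_ne (Ne.symm hJ₀), zero_mul, zero_mul]
  · intro h5
    exact absurd (Finset.mem_univ _) h5

end alg

end Pool.Agent.H936.X
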