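import Pool.Agent.H936.X.Chain
import Pool.Agent.H936.V.Pull

/-!
# The core theorem in the ultrapower
-/

set_option autoImplicit false
set_option linter.unusedSectionVars false
set_option linter.unusedVariables false

open Matrix Module Filter

namespace Pool.Agent.H936.X

open Pool.Agent.Helper880_LF (om om_add_left om_add_right om_smul_left om_smul_right om_zero_left om_zero_right pr spS
  mem_spS comm_mem)
open Pool.Agent.Helper880_LF.NB (gm gm_mul gm_add gm_sub gm_smul gm_zero gm_one gm_ev gm_eq gm_surj gm_neg gm_unit gm_apply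
  gm_transpose gm_kt kt kt_apply dm dm_mul dm_smul Lst mem_Lst normL rank_le)
open Pool.Agent.Helper880_R3 (Ix ib ib_apply ib_inj ib_mul Tot GU mem_GU finrank_GU gm_fb gm_ib dm_fb)
open Pool.Agent.Y118.UL (mk mk_eq mk_eq_zero mk_ne_zero mk_surj ev_ge U)
open Pool.Agent.Y119.HY (cm cm_apply cm_mul cm_one cm_transpose cm_zero cm_add cm_neg)
open Pool.Agent.Y123.ST (fl um LL fl_um um_fl)
open Pool.Agent.TH127.PT (IsSubtorsor)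
open Pool.Agent.Y102 (AbVar)
open Pool.Agent.H936.SL (Mn GS Pj TN Lm gm_Tot tr_gm dm_Tot Lst_br Tot_mul' finrank_spS_ge)
open Pool.Agent.H936.G (DD dm_addD dm_smulD ld ld_apply cjg cjg_apply Xd Tot_inv2 ld_mul nrmS mem_nrmS nrmS_dim L0 L0_rlie
  RLie Spc upS mem_upS upS_dim)
open Pool.Agent.H936.V (gm_spS gm_skew TN_gm ne_gm ld_Tot Cen JJ JJ_skew JJ_det TN_GUs nrm_L0 Ag der_ag gens evs ld_scale Bd)
open Pool.Agent.H885 (GUs mem_GUs)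

variable {n r₀ M : ℕ}

/-- the derivations which move the points in the symplectic directions -/
noncomputable def DsX (J : ℕ → Mn n ℂ) (Cs : Fin M → ℕ → Mn n ℂ) (z : ℕ → Fin M → Mn n ℂ) : Submodule (U ℂ) DD where
  carrier := {δ | ∀ i, Xd (Cs i) z i δ ∈ spS (gm J)}
  zero_mem' i := by rw [map_zero]; exact Submodule.zero_mem _
  add_mem' ha hb i := by rw [map_add]; exact Submodule.add_mem _ (ha i) (hb i)
  smul_mem' c a ha i := by rw [map_smul]; exact Submodule.smul_mem _ c (ha i)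

/-- the condition on the additional periods -/
def FewX (J C : ℕ → Mn n ℂ) (C₀ : ℕ → Matrix (Fin r₀) (Fin r₀) ℂ) : Prop :=
  ∃ (V : Type) (_ : AddCommGroup V) (_ : Module (U ℂ) V) (_ : FiniteDimensional (U ℂ) V) (Φ : DD →ₗ[U ℂ] V)
    (𝔊 : Submodule (U ℂ) (Mn n (U ℂ))), 𝔊 ≤ spS (gm J) ∧
    finrank (U ℂ) V + finrank (U ℂ) 𝔊 < finrank (U ℂ) (spS (gm J)) ∧
    ∀ δ, Φ δ = 0 → (∃ z : U ℂ, ld C₀ δ = z • 1) ∧ ∃ c : U ℂ, ld C δ + c • (1 : Mn n (U ℂ)) ∈ 𝔊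

/-- back to the components -/
theorem back1 {J : ℕ → Mn n ℂ} {T : ℕ → Set (Matrix (Ix r₀ n M) (Ix r₀ n M) ℂ)} {i : Fin M}
    (h : ∀ Y ∈ spS (gm J), ib (r₀ := r₀) i Y ∈ Lst fun k => LL (T k)) :
    ∀ᶠ k in (hyperfilter ℕ : Filter ℕ), ∀ X ∈ spS (J k), ib (r₀ := r₀) i X ∈ Lm (T k) := by
  classical
  by_contra hcon
  rw [← Ultrafilter.eventually_not] at hcon
  have h1 : ∀ k, ∃ X ∈ spS (J k), (¬ ∀ X ∈ spS (J k), ib (r₀ := r₀) i X ∈ Lm (T k)) → ib (r₀ := r₀) i X ∉ Lm (T k) := by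
    intro k
    by_cases hk : ∀ X ∈ spS (J k), ib (r₀ := r₀) i X ∈ Lm (T k)
    · exact ⟨0, (spS (J k)).zero_mem, fun h => absurd hk h⟩
    · have hk' := hk
      push Not at hk'
      obtain ⟨Y, h1, h2⟩ := hk'
      exact ⟨Y, h1, fun _ => h2⟩
  choose X hX1 hX2 using h1
  have h3 : ib i (gm X) ∈ Lst fun k => LL (T k) := h _ (gm_spS.2 (Filter.Eventually.of_forall hX1))
  rw [← gm_ib] at h3
  have h5 := mem_Lst.1 h3
  obtain ⟨k, hk1, hk2⟩ := (h5.and hcon).exists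
  exact hX2 k hk2 hk1

/-- back to the components -/
theorem back2 {J : ℕ → Mn n ℂ} {T : ℕ → Set (Matrix (Ix r₀ n M) (Ix r₀ n M) ℂ)} {i : Fin M}
    (h : ∀ Y ∈ spS (gm J), ∃ e, Tot e (Pi.single i Y) ∈ Lst fun k => LL (T k)) :
    ∀ᶠ k in (hyperfilter ℕ : Filter ℕ), ∀ X ∈ spS (J k), ∃ e, Tot e (Pi.single i X) ∈ Lm (T k) := by
  classical
  by_contra hcon
  rw [← Ultrafilter.eventually_not] at hcon
  have h1 : ∀ k, ∃ X ∈ spS (J k), (¬ ∀ X ∈ spS (J k), ∃ e, Tot (r₀ := r₀) e (Pi.single i X) ∈ Lm (T k)) →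
      ¬ ∃ e, Tot (r₀ := r₀) e (Pi.single i X) ∈ Lm (T k) := by
    intro k
    by_cases hk : ∀ X ∈ spS (J k), ∃ e, Tot (r₀ := r₀) e (Pi.single i X) ∈ Lm (T k)
    · exact ⟨0, (spS (J k)).zero_mem, fun h => absurd hk h⟩
    · have hk' := hk
      rw [not_forall] at hk'
      obtain ⟨Y, hk'⟩ := hk'
      rw [Classical.not_imp] at hk'
      exact ⟨Y, hk'.1, fun _ => hk'.2⟩
  choose X hX1 hX2 using h1
  obtain ⟨e, he⟩ := h _ (gm_spS.2 (Filter.Eventually.of_forall hX1))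
  obtain ⟨e', rfl⟩ := gm_surj e
  have h3 : Tot (gm e') (Pi.single i (gm X)) = gm fun k => Tot (e' k) (Pi.single i (X k)) := by
    rw [gm_Tot]
    congr 1
    funext l
    by_cases hl : l = i
    · subst hl
      rw [Pi.single_eq_same]
      congr 1
      funext k
      rw [Pi.single_eq_same]
    · rw [Pi.single_eq_of_ne hl, ← gm_zero]
      congr 1
      funext k
      rw [Pi.single_eq_of_ne hl]
  rw [h3] at he
  have h5 := mem_Lst.1 he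
  obtain ⟨k, hk1, hk2⟩ := (h5.and hcon).exists
  exact hX2 k hk2 ⟨e' k, hk1⟩

section
variable {J : ℕ → Mn n ℂ} {Cs : Fin M → ℕ → Mn n ℂ} {z : ℕ → Fin M → Mn n ℂ} {C₀ : ℕ → Matrix (Fin r₀) (Fin r₀) ℂ}
    {𝔩 : Fin M → Submodule (U ℂ) (Mn n (U ℂ))} {K : ℕ → Subfield ℂ} {d : ℕ}
    {T : ℕ → Set (Matrix (Ix r₀ n M) (Ix r₀ n M) ℂ)}

theorem ch_of (cu : ∀ i k, (Cs i k).det ≠ 0) (zu : ∀ k i, (z k i).det ≠ 0) (hC₀ : ∀ k, (C₀ k).det ≠ 0)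
    (le : ∀ i, 𝔩 i ≤ spS (gm J)) (tn : ∀ i, TN (𝔩 i)) (nb : ∀ i, 𝔩 i ≠ ⊥)
    (nt : ∀ i, 𝔩 i ≠ spS (gm J)) (fc : ∀ i (δ : DD), ∃ c : U ℂ, ld (Cs i) δ + c • (1 : Mn n (U ℂ)) ∈ nrmS (gm J) (𝔩 i))
    (hK : ∀ k, FiniteDimensional ℚ (K k)) (hD : ∀ k, finrank ℚ (K k) ≤ d) (hT : ∀ k, IsSubtorsor (K k) (T k))
    (hcT : ∀ k, Tot (C₀ k) (fun i => Cs i k * z k i) ∈ T k) :
    Ch (gm J) (𝒟 := DsX J Cs z) (fun i => Xd (Cs i) z i ∘ₗ (DsX J Cs z).subtype)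
      (fun i => ld (Cs i) ∘ₗ (DsX J Cs z).subtype) (ld C₀ ∘ₗ (DsX J Cs z).subtype) 𝔩 (Lst fun k => LL (T k)) := by
  refine ⟨Lst_br hT fun k => ⟨_, hcT k⟩, fun i d => d.2 i, fun d w hw => ?_, le, tn, nb, nt, fun i d => fc i d⟩
  have h3 := normL hK hD hT hcT (d : DD) hw
  have h4 : dm (d : DD) (gm fun k => Tot (C₀ k) fun i => Cs i k * z k i) *
      (gm fun k => Tot (C₀ k) fun i => Cs i k * z k i)⁻¹ =
      Tot (ld C₀ (d : DD)) (fun i => ld (Cs i) (d : DD) + Xd (Cs i) z i (d : DD)) := by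
    have h5 := ld_Tot (C₀ := C₀) hC₀ (y := fun k i => Cs i k * z k i) (fun k i => by
      rw [Matrix.det_mul]
      exact mul_ne_zero (cu i k) (zu k _)) (d : DD)
    refine h5.trans ?_
    congr 1
    funext i
    exact ld_mul (cu i) (fun k => zu k i) _
  rw [h4] at h3
  exact h3

theorem surj_of {j : Fin M}
    (surj : ∀ Y ∈ spS (gm J), ∃ δ : DD, Xd (Cs j) z j δ = Y ∧ ∀ i, i ≠ j → Xd (Cs i) z i δ = 0) :
    ∀ Y ∈ spS (gm J), ∃ d : DsX J Cs z, (Xd (Cs j) z j ∘ₗ (DsX J Cs z).subtype) d = Y ∧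
      ∀ i, i ≠ j → (Xd (Cs i) z i ∘ₗ (DsX J Cs z).subtype) d = 0 := by
  intro Y hY
  obtain ⟨δ, h1, h2⟩ := surj Y hY
  refine ⟨⟨δ, fun i => ?_⟩, h1, h2⟩
  by_cases hi : i = j
  · subst hi
    rw [h1]
    exact hY
  · rw [h2 i hi]
    exact Submodule.zero_mem _

/-- **the core theorem in the ultrapower**, few additional periods -/
theorem core_ult (hn : 3 ≤ n) (skew : ∀ k, (J k)ᵀ = -J k) (det : ∀ k, (J k).det ≠ 0)
    (cu : ∀ i k, (Cs i k).det ≠ 0) (zu : ∀ k i, (z k i).det ≠ 0) (hC₀ : ∀ k, (C₀ k).det ≠ 0)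
    (le : ∀ i, 𝔩 i ≤ spS (gm J)) (tn : ∀ i, TN (𝔩 i)) (nb : ∀ i, 𝔩 i ≠ ⊥)
    (nt : ∀ i, 𝔩 i ≠ spS (gm J)) (fc : ∀ i (δ : DD), ∃ c : U ℂ, ld (Cs i) δ + c • (1 : Mn n (U ℂ)) ∈ nrmS (gm J) (𝔩 i))
    {j : Fin M} (surj : ∀ Y ∈ spS (gm J), ∃ δ : DD, Xd (Cs j) z j δ = Y ∧ ∀ i, i ≠ j → Xd (Cs i) z i δ = 0)
    (hK : ∀ k, FiniteDimensional ℚ (K k)) (hD : ∀ k, finrank ℚ (K k) ≤ d) (hT : ∀ k, IsSubtorsor (K k) (T k))
    (hcT : ∀ k, Tot (C₀ k) (fun i => Cs i k * z k i) ∈ T k) (hTN : ∀ k, TN (Pj (J k) (Lm (T k)) j))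
    (hne : ∀ k, Pj (J k) (Lm (T k)) j ≠ ⊥) (hfew : FewX J (Cs j) C₀) :
    ∀ᶠ k in (hyperfilter ℕ : Filter ℕ), ∀ X ∈ spS (J k), ib (r₀ := r₀) j X ∈ Lm (T k) := by
  obtain ⟨V, _, _, _, Φ, 𝔊, hG, hV, hΦ⟩ := hfew
  exact back1 ((ch_of cu zu hC₀ le tn nb nt fc hK hD hT hcT).core (gm_skew skew) (gm_unit det) hn (surj_of surj)
    (TN_gm hTN) (ne_gm hne) (Φ ∘ₗ (DsX J Cs z).subtype) hG hV fun d hd => hΦ d hd)

/-- **the core theorem in the ultrapower**, arbitrary additional periods -/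
theorem core_ult0 (hn : 3 ≤ n) (skew : ∀ k, (J k)ᵀ = -J k) (det : ∀ k, (J k).det ≠ 0)
    (cu : ∀ i k, (Cs i k).det ≠ 0) (zu : ∀ k i, (z k i).det ≠ 0) (hC₀ : ∀ k, (C₀ k).det ≠ 0)
    (le : ∀ i, 𝔩 i ≤ spS (gm J)) (tn : ∀ i, TN (𝔩 i)) (nb : ∀ i, 𝔩 i ≠ ⊥)
    (nt : ∀ i, 𝔩 i ≠ spS (gm J)) (fc : ∀ i (δ : DD), ∃ c : U ℂ, ld (Cs i) δ + c • (1 : Mn n (U ℂ)) ∈ nrmS (gm J) (𝔩 i))
    {j : Fin M} (surj : ∀ Y ∈ spS (gm J), ∃ δ : DD, Xd (Cs j) z j δ = Y ∧ ∀ i, i ≠ j → Xd (Cs i) z i δ = 0)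
    (hK : ∀ k, FiniteDimensional ℚ (K k)) (hD : ∀ k, finrank ℚ (K k) ≤ d) (hT : ∀ k, IsSubtorsor (K k) (T k))
    (hcT : ∀ k, Tot (C₀ k) (fun i => Cs i k * z k i) ∈ T k) (hTN : ∀ k, TN (Pj (J k) (Lm (T k)) j))
    (hne : ∀ k, Pj (J k) (Lm (T k)) j ≠ ⊥) :
    ∀ᶠ k in (hyperfilter ℕ : Filter ℕ), ∀ X ∈ spS (J k), ∃ e, Tot e (Pi.single j X) ∈ Lm (T k) :=
  back2 ((ch_of cu zu hC₀ le tn nb nt fc hK hD hT hcT).core0 (gm_skew skew) (gm_unit det) hn (surj_of surj)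
    (TN_gm hTN) (ne_gm hne))

end

end Pool.Agent.H936.X
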